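import Mathlib

set_option autoImplicit false
open Finset
open scoped Classical

namespace Pool.Agent.Lib.MP_22c8d1_co

section PD
variable {V σ : Type*}

/-- pairwise disjoint vertex sets -/
def PD (vs : σ → Finset V) (F : Finset σ) : Prop :=
  ∀ s ∈ F, ∀ t ∈ F, s ≠ t → Disjoint (vs s) (vs t)

/-- union of the vertex sets -/
noncomputable def VV (vs : σ → Finset V) (F : Finset σ) : Finset V := F.biUnion vs

variable {vs : σ → Finset V} {F : Finset σ}

lemma mem_VV {x : V} : x ∈ VV vs F ↔ ∃ s ∈ F, x ∈ vs s := by simp [VV]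

lemma PD.mono (h : PD vs F) {F' : Finset σ} (hs : F' ⊆ F) : PD vs F' :=
  fun s hs1 t ht1 hne => h s (hs hs1) t (hs ht1) hne

lemma PD.eq_of_mem (h : PD vs F) {s t : σ} (hs : s ∈ F) (ht : t ∈ F) {x : V}
    (hxs : x ∈ vs s) (hxt : x ∈ vs t) : s = t := by
  by_contra hne
  exact Finset.disjoint_left.1 (h s hs t ht hne) hxs hxt

lemma PD_iff : PD vs F ↔ ∀ s ∈ F, ∀ t ∈ F, ∀ x, x ∈ vs s → x ∈ vs t → s = t := by
  constructor
  · intro h s hs t ht x hxs hxt
    exact h.eq_of_mem hs ht hxs hxt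
  · intro h s hs t ht hne
    exact Finset.disjoint_left.2 fun x hxs hxt => hne (h s hs t ht x hxs hxt)

lemma PD.card_VV (h : PD vs F) : (VV vs F).card = ∑ s ∈ F, (vs s).card :=
  Finset.card_biUnion (fun s hs t ht hne => h s hs t ht hne)

lemma card_VV_le : (VV vs F).card ≤ ∑ s ∈ F, (vs s).card := Finset.card_biUnion_le

lemma PD.card_filter (h : PD vs F) (p : V → Prop) [DecidablePred p] :
    ((VV vs F).filter p).card = ∑ s ∈ F, ((vs s).filter p).card := by
  have : (VV vs F).filter p = F.biUnion (fun s => (vs s).filter p) := by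
    ext x; simp only [VV, mem_filter, mem_biUnion]
    constructor
    · rintro ⟨⟨s, hs, hx⟩, hp⟩; exact ⟨s, hs, hx, hp⟩
    · rintro ⟨s, hs, hx, hp⟩; exact ⟨⟨s, hs, hx⟩, hp⟩
  rw [this, Finset.card_biUnion]
  intro s hs t ht hne
  exact Finset.disjoint_filter_filter (h s hs t ht hne)

lemma PD.union [DecidableEq σ] {A B : Finset σ} (hA : PD vs A) (hB : PD vs B)
    (h : ∀ s ∈ A, ∀ t ∈ B, Disjoint (vs s) (vs t)) : PD vs (A ∪ B) := by
  intro s hs t ht hne
  rcases mem_union.1 hs with hs | hs <;> rcases mem_union.1 ht with ht | ht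
  · exact hA s hs t ht hne
  · exact h s hs t ht
  · exact (h t ht s hs).symm
  · exact hB s hs t ht hne

lemma disjoint_of_vs {A B : Finset σ} (hne : ∀ s ∈ A, (vs s).Nonempty)
    (h : ∀ s ∈ A, ∀ t ∈ B, Disjoint (vs s) (vs t)) : Disjoint A B := by
  refine Finset.disjoint_left.2 fun s hs ht => ?_
  obtain ⟨x, hx⟩ := hne s hs
  exact Finset.disjoint_left.1 (h s hs s ht) hx hx

/-- the number of members of a disjoint family meeting `X` is at most the size of the trace -/
lemma PD.card_hit (h : PD vs F) (X : Finset V) :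
    (F.filter (fun s => ∃ x ∈ vs s, x ∈ X)).card ≤ ((VV vs F).filter (· ∈ X)).card := by
  rw [h.card_filter, Finset.card_filter]
  refine Finset.sum_le_sum fun s _ => ?_
  split_ifs with hh
  · obtain ⟨x, hx, hX⟩ := hh
    exact Finset.card_pos.2 ⟨x, mem_filter.2 ⟨hx, hX⟩⟩
  · exact Nat.zero_le _

lemma PD.card_hit' (h : PD vs F) (X : Finset V) :
    (F.filter (fun s => ∃ x ∈ vs s, x ∈ X)).card ≤ X.card :=
  (h.card_hit X).trans (Finset.card_le_card fun _ hx => (mem_filter.1 hx).2)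

lemma PD.image {τ : Type*} [DecidableEq τ] {vt : τ → Finset V} (h : PD vs F) (f : σ → τ)
    (hf : ∀ s ∈ F, vt (f s) ⊆ vs s) : PD vt (F.image f) := by
  intro a ha b hb hne
  obtain ⟨s, hs, rfl⟩ := mem_image.1 ha
  obtain ⟨t, ht, rfl⟩ := mem_image.1 hb
  have : s ≠ t := fun e => hne (by rw [e])
  exact Finset.disjoint_of_subset_left (hf s hs)
    (Finset.disjoint_of_subset_right (hf t ht) (h s hs t ht this))

lemma PD.injOn {τ : Type*} {vt : τ → Finset V} (h : PD vs F) (f : σ → τ)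
    (hf : ∀ s ∈ F, vt (f s) ⊆ vs s) (hne : ∀ s ∈ F, (vt (f s)).Nonempty) :
    Set.InjOn f F := by
  intro s hs t ht e
  obtain ⟨x, hx⟩ := hne s hs
  exact h.eq_of_mem hs ht (hf s hs hx) (hf t ht (e ▸ hx))

end PD

section Dense

/-- numeric density condition -/
def DN (n m k l : ℤ) : Prop :=
  2 * k + l ≤ n + 1 ∧ m < (n - 2 * k - l + 2) * (4 * k - 3 + (n - 2 * k - l + 2)) ∧
    m < (n - 2 * k - l + 2 + k - 1) * (n - 2 * k - l + 2 + k)

lemma DN.mono_m {n m m' k l : ℤ} (h : DN n m k l) (hm : m' ≤ m) : DN n m' k l :=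
  ⟨h.1, lt_of_le_of_lt hm h.2.1, lt_of_le_of_lt hm h.2.2⟩

lemma DN.succ_n {n m k l : ℤ} (h : DN n m k l) (hk : 1 ≤ k) : DN (n + 1) m k l := by
  obtain ⟨h1, h2, h3⟩ := h
  refine ⟨by linarith, ?_, ?_⟩ <;> nlinarith

lemma DN.mono_n {n n' m k l : ℤ} (h : DN n m k l) (hk : 1 ≤ k) (hn : n ≤ n') : DN n' m k l := by
  induction n', hn using Int.leInduction with
  | base => exact h
  | succ n' _ ih => exact ih.succ_n hk

lemma DN.del_l {n m k l : ℤ} (h : DN n m k l) (b : ℤ) : DN (n - b) m k (l - b) := by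
  obtain ⟨h1, h2, h3⟩ := h
  have e : n - b - 2 * k - (l - b) + 2 = n - 2 * k - l + 2 := by ring
  refine ⟨by linarith, ?_, ?_⟩ <;> rw [e] <;> assumption

lemma two_B {j k i m : ℤ} (hi : 0 ≤ i) (hik : i ≤ k - 1)
    (h2 : m < j * (4 * k - 3 + j)) (h3 : m < (j + k - 1) * (j + k)) :
    m < (j + i) * (4 * k - 3 + j - 3 * i) := by
  by_cases hc : 0 ≤ 4 * k - 3 - 2 * j - 3 * i
  · nlinarith [mul_nonneg hi hc]
  · have h4 : 0 ≤ 2 * j - k + 3 * i := by omega
    have h5 : 0 ≤ k - 1 - i := by omega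
    nlinarith [mul_nonneg h5 h4]

lemma DN.del_k1 {n m k l : ℤ} (h : DN n m (k + 1) l) (hk : 1 ≤ k) : DN (n - 1) m k l := by
  obtain ⟨h1, h2, h3⟩ := h
  have := two_B (i := 1) (by norm_num) (by linarith) h2 h3
  refine ⟨by linarith, ?_, ?_⟩ <;> nlinarith

lemma DN.del_k {m k l : ℤ} (hk : 1 ≤ k) (a : ℕ) :
    ∀ n : ℤ, DN n m (k + a) l → DN (n - a) m k l := by
  induction a with
  | zero => intro n h; simpa using h
  | succ a ih =>
    intro n h
    have h1 : DN (n - 1) m (k + a) l := by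
      apply DN.del_k1 _ (by omega)
      have e : k + (a:ℤ) + 1 = k + ((a + 1 : ℕ) : ℤ) := by push_cast; ring
      rw [e]; exact h
    have := ih _ h1
    have e : n - 1 - (a:ℤ) = n - ((a + 1 : ℕ) : ℤ) := by push_cast; ring
    rwa [e] at this

lemma DN.del {n n' m m' k l k' l' : ℤ} (h : DN n m k l) (hk : 1 ≤ k') (hkk : k' ≤ k)
    (hn : n - (k - k') - (l - l') ≤ n') (hm : m' ≤ m) : DN n' m' k' l' := by
  obtain ⟨a, ha⟩ := Int.eq_ofNat_of_zero_le (show 0 ≤ k - k' by omega)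
  have h1 : DN (n - a) m k' l := DN.del_k hk a n (by rw [← ha]; simpa using h)
  have h2 := h1.del_l (l - l')
  have e : l - (l - l') = l' := by ring
  rw [e] at h2
  exact (h2.mono_n hk (by omega)).mono_m hm

end Dense

section Graph
variable {V : Type*} (G : SimpleGraph V)

noncomputable def deg (U : Finset V) (x : V) : ℕ := (U.filter (G.Adj x)).card

noncomputable def md (U : Finset V) (x : V) : ℕ :=
  (U.filter (fun y => y ≠ x ∧ ¬ G.Adj x y)).card

noncomputable def miss2 (U : Finset V) : ℕ := ∑ x ∈ U, md G U x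

def Dense (U : Finset V) (k l : ℤ) : Prop := DN U.card (miss2 G U) k l

variable {G}

lemma deg_add_md {U : Finset V} {x : V} (hx : x ∈ U) : deg G U x + md G U x + 1 = U.card := by
  have h1 := Finset.card_filter_add_card_filter_not (s := U.erase x) (G.Adj x)
  have e1 : (U.erase x).filter (G.Adj x) = U.filter (G.Adj x) := by
    ext y; simp only [mem_filter, mem_erase]
    constructor
    · rintro ⟨⟨_, h⟩, h'⟩; exact ⟨h, h'⟩
    · rintro ⟨h, h'⟩; exact ⟨⟨h'.ne', h⟩, h'⟩
  have e2 : (U.erase x).filter (fun y => ¬ G.Adj x y)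
      = U.filter (fun y => y ≠ x ∧ ¬ G.Adj x y) := by
    ext y; simp only [mem_filter, mem_erase]; tauto
  rw [e1, e2, Finset.card_erase_of_mem hx] at h1
  have : 0 < U.card := card_pos.2 ⟨x, hx⟩
  unfold deg md; omega

lemma md_mono {U U' : Finset V} (h : U' ⊆ U) (x : V) : md G U' x ≤ md G U x :=
  card_le_card (filter_subset_filter _ h)

lemma miss2_mono {U U' : Finset V} (h : U' ⊆ U) : miss2 G U' ≤ miss2 G U :=
  (sum_le_sum fun x _ => md_mono h x).trans (sum_le_sum_of_subset h)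

lemma md_swap (A B : Finset V) : ∑ x ∈ A, md G B x = ∑ y ∈ B, md G A y := by
  unfold md
  simp only [card_filter]
  rw [sum_comm]
  refine sum_congr rfl fun y _ => sum_congr rfl fun x _ => ?_
  have : (y ≠ x ∧ ¬ G.Adj x y) ↔ (x ≠ y ∧ ¬ G.Adj y x) := by
    rw [G.adj_comm, ne_comm]
  simp only [this]

lemma md_split {U L : Finset V} (h : L ⊆ U) (x : V) :
    md G U x = md G L x + md G (U \ L) x := by
  unfold md
  rw [← card_union_of_disjoint (disjoint_filter_filter disjoint_sdiff), ← filter_union,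
    union_sdiff_of_subset h]

lemma miss2_split {U L : Finset V} (h : L ⊆ U) :
    miss2 G U + miss2 G L = miss2 G (U \ L) + 2 * ∑ x ∈ L, md G U x := by
  have e1 : miss2 G U = ∑ x ∈ U \ L, md G U x + ∑ x ∈ L, md G U x := (sum_sdiff h).symm
  have e2 : ∑ x ∈ U \ L, md G U x = ∑ x ∈ U \ L, md G L x + miss2 G (U \ L) := by
    unfold miss2; rw [← sum_add_distrib]; exact sum_congr rfl fun x _ => md_split h x
  have e3 : ∑ x ∈ L, md G U x = miss2 G L + ∑ x ∈ L, md G (U \ L) x := by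
    unfold miss2; rw [← sum_add_distrib]; exact sum_congr rfl fun x _ => md_split h x
  have e4 := md_swap (G := G) L (U \ L)
  omega

lemma miss2_le (L : Finset V) : (miss2 G L : ℤ) ≤ L.card * (L.card - 1) := by
  unfold miss2
  push_cast
  have : ∀ x ∈ L, (md G L x : ℤ) ≤ L.card - 1 := fun x hx => by
    have := deg_add_md (G := G) hx; omega
  calc _ ≤ ∑ _x ∈ L, ((L.card : ℤ) - 1) := sum_le_sum this
    _ = _ := by rw [sum_const, nsmul_eq_mul]

lemma low_set {U L : Finset V} (h : L ⊆ U) :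
    2 * ∑ x ∈ L, (md G U x : ℤ) - L.card * (L.card - 1) ≤ miss2 G U := by
  have h1 := miss2_split (G := G) h
  have h2 := miss2_le (G := G) L
  have h3 : ((miss2 G U : ℤ) + miss2 G L = miss2 G (U \ L) + 2 * ∑ x ∈ L, (md G U x : ℤ)) := by
    exact_mod_cast h1
  have : (0 : ℤ) ≤ miss2 G (U \ L) := Int.natCast_nonneg _
  linarith

lemma Dense.del {U U' : Finset V} {k l k' l' : ℤ} (h : Dense G U k l) (hU : U' ⊆ U)
    (hk : 1 ≤ k') (hkk : k' ≤ k) (hn : (U.card : ℤ) - (k - k') - (l - l') ≤ U'.card) :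
    Dense G U' k' l' :=
  DN.del h hk hkk hn (by exact_mod_cast miss2_mono hU)

lemma Dense.sdiff {U : Finset V} (X : Finset V) {k l k' l' : ℤ} (h : Dense G U k l)
    (hk : 1 ≤ k') (hkk : k' ≤ k) (hn : (X.card : ℤ) ≤ (k - k') + (l - l')) :
    Dense G (U \ X) k' l' := by
  refine h.del sdiff_subset hk hkk ?_
  have : U.card ≤ (U \ X).card + X.card := Finset.card_le_card_sdiff_add_card
  omega

lemma Dense.erase_low {U : Finset V} {k l : ℤ} (h : Dense G U k l) (hk : 1 ≤ k) {x : V}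
    (hx : x ∈ U) (hd : (deg G U x : ℤ) < l) : Dense G (U.erase x) k l := by
  have h1 := miss2_split (G := G) (L := {x}) (singleton_subset_iff.2 hx)
  have h0 : miss2 G {x} = 0 := by simp [miss2, md]
  rw [h0, sum_singleton, ← erase_eq] at h1
  have h2 := deg_add_md (G := G) hx
  have h3 : ((U.erase x).card : ℤ) = U.card - 1 := by
    rw [card_erase_of_mem hx]; omega
  obtain ⟨a1, a2, a3⟩ := h
  unfold Dense DN
  rw [h3]
  have hm : (miss2 G (U.erase x) : ℤ) + 2 * (U.card - l) ≤ miss2 G U := by omega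
  have hm0 : (0 : ℤ) ≤ miss2 G (U.erase x) := Int.natCast_nonneg _
  have hj : 2 * k + l ≤ (U.card : ℤ) := by
    by_contra hc
    have e : (U.card : ℤ) = 2 * k + l - 1 := by omega
    rw [e] at a2 hm
    nlinarith
  refine ⟨by linarith, ?_, ?_⟩ <;> nlinarith

end Graph

end Pool.Agent.Lib.MP_22c8d1_co
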