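import Pool.Agent.Lib.MP_22c8d1_co.Group4

set_option autoImplicit false
open Finset
open scoped Classical

namespace Pool.Agent.Lib.MP_22c8d1_co

variable {V : Type*}

/-- two-colourable with no monochromatic matching of size `s` -/
def TwoOK (G : SimpleGraph V) (s : ℕ) : Prop :=
  ∃ c : Sym2 V → Bool, ∀ F : Finset (Sym2 V), (↑F : Set (Sym2 V)) ⊆ G.edgeSet → F.card = s →
    (∀ e ∈ F, ∀ f ∈ F, e ≠ f → ∀ v ∈ e, v ∉ f) → ¬ ∃ b : Bool, ∀ e ∈ F, c e = b

/-- colourable by residues with no zero-sum matching of size `s` -/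
def ZOK (G : SimpleGraph V) (s : ℕ) : Prop :=
  ∃ c : Sym2 V → ZMod s, ∀ F : Finset (Sym2 V), (↑F : Set (Sym2 V)) ⊆ G.edgeSet → F.card = s →
    (∀ e ∈ F, ∀ f ∈ F, e ≠ f → ∀ v ∈ e, v ∉ f) → ∑ e ∈ F, c e ≠ 0

lemma TwoOK.zok {G : SimpleGraph V} {s : ℕ} (h : TwoOK G s) : ZOK G s := by
  obtain ⟨c, hc⟩ := h
  refine ⟨fun e => if c e = true then 1 else 0, fun F h1 h2 h3 h4 => hc F h1 h2 h3 ?_⟩
  rw [sum_boole, ZMod.natCast_eq_zero_iff] at h4
  have hle := card_filter_le F (fun e => c e = true)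
  rcases Nat.eq_zero_or_pos (F.filter (fun e => c e = true)).card with h0 | h0
  · rw [card_eq_zero, filter_eq_empty_iff] at h0
    exact ⟨false, fun e he => by simpa using h0 he⟩
  · have := Nat.le_of_dvd h0 h4
    have e : F.filter (fun e => c e = true) = F := eq_of_subset_of_card_le (filter_subset _ _)
      (by omega)
    exact ⟨true, fun x hx => by rw [← e] at hx; exact (mem_filter.1 hx).2⟩

lemma ZOK.not_dense {G : SimpleGraph V} {s : ℕ} (hs : 1 ≤ s) (h : ZOK G s) (U : Finset V) :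
    ¬ Dense G U s s := by
  intro hD
  obtain ⟨c, hc⟩ := h
  have : NeZero s := ⟨by omega⟩
  obtain ⟨M, m1, m2, m3⟩ := thmZ s hs (fun x y => ((c s(x, y)).val : ℤ))
    (fun x y => by rw [Sym2.eq_swap]) U s le_rfl dvd_rfl hD
  have mem : ∀ (e : V × V) (v : V), v ∈ s(e.1, e.2) ↔ v ∈ ev e := fun e v => by
    rw [Sym2.mem_iff, mem_ev]
  have inj : Set.InjOn (fun e : V × V => s(e.1, e.2)) M := fun a ha b hb e =>
    m1.2.eq_of_mem ha hb (x := a.1) (by simp [ev]) ((mem b _).1 (by
      have e' : s(a.1, a.2) = s(b.1, b.2) := e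
      rw [← e']; simp))
  refine hc (M.image (fun e => s(e.1, e.2))) (fun x hx => ?_)
    (by rw [card_image_of_injOn inj]; omega) (fun x hx y hy hne v h1 h2 => ?_) ?_
  · obtain ⟨e, he, rfl⟩ := mem_image.1 hx
    exact (m1.1 e he).1
  · obtain ⟨e, he, rfl⟩ := mem_image.1 hx
    obtain ⟨f, hf, rfl⟩ := mem_image.1 hy
    exact hne (by rw [m1.2.eq_of_mem he hf ((mem _ _).1 h1) ((mem _ _).1 h2)])
  · rw [sum_image inj]
    have := (ZMod.intCast_zmod_eq_zero_iff_dvd _ s).2 m3
    push_cast at this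
    simpa using this

/-- the extremal graphs -/
def GX (A B C : Finset V) : SimpleGraph V where
  Adj x y := x ≠ y ∧ (x ∈ A ∨ y ∈ A ∨ x ∈ B ∨ y ∈ B ∨ (x ∈ C ∧ y ∈ C))
  symm := ⟨fun x y h => ⟨h.1.symm, by have := h.2; tauto⟩⟩
  loopless := ⟨fun x h => h.1 rfl⟩

variable [Fintype V]

lemma gx_ok {A B C : Finset V} {s : ℕ} (h1 : 2 * A.card + C.card < 2 * s) (h2 : B.card < s) :
    TwoOK (GX A B C) s := by
  refine ⟨fun e => decide (∃ v ∈ e, v ∈ B), fun F f1 f2 f3 ⟨b, hb⟩ => ?_⟩
  have pd : PD (fun e : Sym2 V => univ.filter (· ∈ e)) F := fun e he f hf hne =>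
    Finset.disjoint_left.2 fun v h h' => f3 e he f hf hne v (mem_filter.1 h).2 (mem_filter.1 h').2
  cases b with
  | true =>
    have := pd.card_hit' B
    rw [filter_true_of_mem (fun e he => by
      obtain ⟨v, v1, v2⟩ := of_decide_eq_true (hb e he)
      exact ⟨v, by simpa using v1, v2⟩)] at this
    omega
  | false =>
    have a1 : ∀ X : Finset V, ∑ e ∈ F, ((univ.filter (· ∈ e)).filter (· ∈ X)).card ≤ X.card :=
      fun X => by
        rw [← pd.card_filter]
        exact card_le_card fun _ h => (mem_filter.1 h).2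
    have a2 : F.card * 2 ≤ ∑ e ∈ F, (2 * ((univ.filter (· ∈ e)).filter (· ∈ A)).card +
        ((univ.filter (· ∈ e)).filter (· ∈ C)).card) := by
      refine card_nsmul_le_sum F _ 2 fun e he => ?_
      have nb := of_decide_eq_false (hb e he)
      have ad := f1 he
      induction e using Sym2.ind with
      | _ x y =>
      obtain ⟨hxy, h⟩ : (GX A B C).Adj x y := ad
      rcases h with h | h | h | h | h
      · have : 0 < ((univ.filter (· ∈ s(x, y))).filter (· ∈ A)).card :=
          card_pos.2 ⟨x, by simp [h]⟩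
        omega
      · have : 0 < ((univ.filter (· ∈ s(x, y))).filter (· ∈ A)).card :=
          card_pos.2 ⟨y, by simp [h]⟩
        omega
      · exact absurd ⟨x, by simp, h⟩ nb
      · exact absurd ⟨y, by simp, h⟩ nb
      · have : 1 < ((univ.filter (· ∈ s(x, y))).filter (· ∈ C)).card :=
          one_lt_card.2 ⟨x, by simp [h.1], y, by simp [h.2], hxy⟩
        omega
    rw [sum_add_distrib, ← mul_sum] at a2
    have := a1 A
    have := a1 C
    omega

lemma gx_miss (A B C : Finset V) : (miss2 (GX A B C) univ : ℤ) ≤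
    C.card * ((univ \ (A ∪ B)) \ C).card +
      ((univ \ (A ∪ B)) \ C).card * ((univ \ (A ∪ B)).card - 1) := by
  set N := univ \ (A ∪ B) with hN
  have hm : ∀ x y, y ∈ univ.filter (fun y => y ≠ x ∧ ¬ (GX A B C).Adj x y) →
      y ≠ x ∧ x ∈ N ∧ y ∈ N ∧ ¬ (x ∈ C ∧ y ∈ C) := by
    intro x y h
    obtain ⟨h1, h2⟩ := (mem_filter.1 h).2
    have h3 : ¬ (x ∈ A ∨ y ∈ A ∨ x ∈ B ∨ y ∈ B ∨ (x ∈ C ∧ y ∈ C)) := fun h' => h2 ⟨h1.symm, h'⟩
    simp only [hN, mem_sdiff, mem_univ, mem_union, true_and]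
    tauto
  have key : ∀ x, (md (GX A B C) univ x : ℤ) ≤ (if x ∈ C then ((N \ C).card : ℤ) else 0) +
      (if x ∈ N \ C then (N.card : ℤ) - 1 else 0) := by
    intro x
    by_cases h1 : x ∈ C
    · have : md (GX A B C) univ x ≤ (N \ C).card := card_le_card fun y hy =>
        mem_sdiff.2 ⟨(hm x y hy).2.2.1, fun h => (hm x y hy).2.2.2 ⟨h1, h⟩⟩
      rw [if_pos h1, if_neg (fun h => (mem_sdiff.1 h).2 h1)]; omega
    · rw [if_neg h1]
      by_cases h2 : x ∈ N
      · have : md (GX A B C) univ x ≤ (N.erase x).card := card_le_card fun y hy =>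
          mem_erase.2 ⟨(hm x y hy).1, (hm x y hy).2.2.1⟩
        have := card_erase_add_one h2
        rw [if_pos (mem_sdiff.2 ⟨h2, h1⟩)]; omega
      · have : md (GX A B C) univ x = 0 := card_eq_zero.2
          (eq_empty_of_forall_notMem fun y hy => h2 (hm x y hy).2.1)
        rw [if_neg (fun h => h2 (mem_sdiff.1 h).1)]; omega
  unfold miss2
  push_cast
  refine (sum_le_sum fun x _ => key x).trans (le_of_eq ?_)
  rw [sum_add_distrib, sum_ite_mem, sum_ite_mem, univ_inter, univ_inter, sum_const, sum_const,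
    nsmul_eq_mul, nsmul_eq_mul]

lemma edge_count (G : SimpleGraph V) :
    2 * G.edgeSet.ncard + miss2 G univ + Fintype.card V = Fintype.card V * Fintype.card V := by
  have h1 := G.sum_degrees_eq_twice_card_edges
  have h2 : G.edgeSet.ncard = G.edgeFinset.card := by
    rw [← SimpleGraph.coe_edgeFinset, Set.ncard_coe_finset]
  have h3 : ∀ x, G.degree x = deg G univ x := fun x => by
    rw [← SimpleGraph.card_neighborFinset_eq_degree, SimpleGraph.neighborFinset_eq_filter]; rfl
  have h4 : ∑ x, (deg G univ x + md G univ x + 1) = ∑ _x : V, Fintype.card V :=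
    sum_congr rfl fun x hx => deg_add_md hx
  rw [sum_add_distrib, sum_add_distrib, sum_const, sum_const, card_univ, smul_eq_mul,
    smul_eq_mul] at h4
  rw [h2, ← h1, sum_congr rfl fun x _ => h3 x]
  rw [mul_one] at h4
  exact h4

theorem zok_le {G : SimpleGraph V} {s : ℕ} (hs : 1 ≤ s) (h : ZOK G s) :
    ∃ G' : SimpleGraph V, TwoOK G' s ∧ G.edgeSet.ncard ≤ G'.edgeSet.ncard := by
  suffices H : ∃ G' : SimpleGraph V, TwoOK G' s ∧ miss2 G' univ ≤ miss2 G univ by
    obtain ⟨G', h1, h2⟩ := H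
    have := edge_count G
    have := edge_count G'
    exact ⟨G', h1, by omega⟩
  have hD := h.not_dense hs univ
  have cs : ∀ X : Finset V, (univ \ X).card + X.card = (univ : Finset V).card := fun X =>
    card_sdiff_add_card_eq_card (subset_univ X)
  by_cases h1 : (univ : Finset V).card + 2 ≤ 3 * s
  · obtain ⟨B, -, hB⟩ := exists_subset_card_eq (s := (univ : Finset V))
      (n := min (s - 1) (univ : Finset V).card) (min_le_right _ _)
    have := cs B
    refine ⟨GX ∅ B (univ \ B), gx_ok (by simp only [card_empty]; omega) (by omega), ?_⟩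
    have := gx_miss ∅ B (univ \ B)
    rw [empty_union, Finset.sdiff_self] at this
    simp only [card_empty, Nat.cast_zero, mul_zero, zero_mul, add_zero] at this
    omega
  obtain ⟨B, -, hB⟩ := exists_subset_card_eq (s := (univ : Finset V)) (n := s - 1) (by omega)
  have cB := cs B
  unfold Dense DN at hD
  by_cases h2 : (miss2 G univ : ℤ) < (((univ : Finset V).card : ℤ) - 2 * s - s + 2) *
      (4 * s - 3 + (((univ : Finset V).card : ℤ) - 2 * s - s + 2))
  · have h3 := not_lt.1 fun h3 => hD ⟨by omega, h2, h3⟩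
    obtain ⟨A, a1, hA⟩ := exists_subset_card_eq (s := univ \ B) (n := s - 1) (by omega)
    refine ⟨GX A B ∅, gx_ok (by simp only [card_empty]; omega) (by omega), ?_⟩
    have h4 := gx_miss A B ∅
    have h5 := cs (A ∪ B)
    rw [card_union_of_disjoint (Finset.disjoint_left.2 fun x hx => (mem_sdiff.1 (a1 hx)).2)] at h5
    rw [sdiff_empty, card_empty] at h4
    have h6 : ((univ \ (A ∪ B)).card : ℤ) = (univ : Finset V).card - 2 * s - s + 2 + s := by omega
    rw [h6] at h4
    have : (miss2 (GX A B ∅) univ : ℤ) ≤ miss2 G univ := by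
      refine h4.trans (le_trans (le_of_eq ?_) h3); push_cast; ring
    exact_mod_cast this
  · obtain ⟨C, c1, hC⟩ := exists_subset_card_eq (s := univ \ B) (n := 2 * s - 1) (by omega)
    refine ⟨GX ∅ B C, gx_ok (by simp only [card_empty]; omega) (by omega), ?_⟩
    have h4 := gx_miss ∅ B C
    rw [empty_union] at h4
    have h5 := card_sdiff_add_card_eq_card c1
    have h6 : (((univ \ B) \ C).card : ℤ) = (univ : Finset V).card - 2 * s - s + 2 := by omega
    have h7 : ((univ \ B).card : ℤ) = (univ : Finset V).card - s + 1 := by omega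
    have h8 : (C.card : ℤ) = 2 * s - 1 := by omega
    rw [h6, h7, h8] at h4
    have : (miss2 (GX ∅ B C) univ : ℤ) ≤ miss2 G univ := by
      refine h4.trans (le_trans (le_of_eq ?_) (not_lt.1 h2)); ring
    exact_mod_cast this

theorem main_eq (s : ℕ) (hs : 1 ≤ s) :
    sSup {k : ℕ | ∃ G : SimpleGraph V, G.edgeSet.ncard = k ∧ TwoOK G s} =
      sSup {k : ℕ | ∃ G : SimpleGraph V, G.edgeSet.ncard = k ∧ ZOK G s} := by
  have bd : ∀ P : SimpleGraph V → Prop,
      BddAbove {k : ℕ | ∃ G : SimpleGraph V, G.edgeSet.ncard = k ∧ P G} := fun P =>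
    ⟨Fintype.card V * Fintype.card V, fun k ⟨G, h, _⟩ => by have := edge_count G; omega⟩
  refine le_antisymm (csSup_le' fun k ⟨G, h1, h2⟩ => le_csSup (bd _) ⟨G, h1, h2.zok⟩)
    (csSup_le' fun k ⟨G, h1, h2⟩ => ?_)
  obtain ⟨G', g1, g2⟩ := zok_le hs h2
  exact (h1 ▸ g2).trans (le_csSup (bd _) ⟨G', rfl, g1⟩)

end Pool.Agent.Lib.MP_22c8d1_co
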