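import Pool.Agent.Lib.MP_22c8d1_co.Match

set_option autoImplicit false
open Finset
open scoped Classical

namespace Pool.Agent.Lib.MP_22c8d1_co

variable {V : Type*}

/-- difference of the two colours of a slot -/
def dd (c : V → V → ℤ) (s : (V × V) × (V × V)) : ℤ := c s.2.1 s.2.2 - c s.1.1 s.1.2

/-- the `k`-matchings inside `U` attain every residue modulo `g` -/
def Cover (G : SimpleGraph V) (c : V → V → ℤ) (U : Finset V) (k g : ℤ) : Prop :=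
  ∀ r : ℤ, ∃ M, IsM G.Adj U M ∧ (M.card : ℤ) = k ∧ g ∣ ∑ e ∈ M, c e.1 e.2 - r

/-- edges whose colour is not `γ` modulo `g` -/
def Bad (G : SimpleGraph V) (c : V → V → ℤ) (g γ : ℤ) (x y : V) : Prop :=
  G.Adj x y ∧ ¬ g ∣ c x y - γ

def Small (G : SimpleGraph V) (c : V → V → ℤ) (U : Finset V) (g γ b : ℤ) : Prop :=
  ∀ M, IsM (Bad G c g γ) U M → (M.card : ℤ) ≤ b

def MonoOff (G : SimpleGraph V) (c : V → V → ℤ) (U Y : Finset V) (g γ : ℤ) : Prop :=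
  ∀ x ∈ U, ∀ y ∈ U, x ∉ Y → y ∉ Y → ¬ Bad G c g γ x y

def OutM (G : SimpleGraph V) (c : V → V → ℤ) (U : Finset V) (k g : ℤ) : Prop :=
  (∃ γ M, IsM G.Adj U M ∧ (M.card : ℤ) = k ∧ ∀ e ∈ M, g ∣ c e.1 e.2 - γ) ∧
    (2 * g - 2 ≤ k → ∃ γ, Small G c U g γ (g - 2))

def OutN (G : SimpleGraph V) (c : V → V → ℤ) (U : Finset V) (g : ℕ) : Prop :=
  ∃ (ι m : ℕ) (γ : ℤ) (Y : Finset V), g = ι * m ∧ 2 ≤ ι ∧ 2 ≤ m ∧ Y.card + m ≤ g ∧
    (ι = 2 → g ≤ 6 → Y.card ≤ 1) ∧ MonoOff G c U Y ι γ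

/-- the slots `I` generate the multiples of `x` modulo `x τ` -/
def Gen (c : V → V → ℤ) (x τ : ℤ) (I : Finset ((V × V) × (V × V))) : Prop :=
  ∀ r : ℤ, ∃ J ⊆ I, x * τ ∣ ∑ s ∈ J, dd c s - x * r

variable {G : SimpleGraph V} {c : V → V → ℤ} {U : Finset V}

lemma cover_step {I : Finset ((V × V) × (V × V))} (hI : IsS G.Adj U I) {x τ k : ℤ}
    (hg : Gen c x τ I) (h : Cover G c (U \ VV qv I) (k - I.card) x) : Cover G c U k (x * τ) := by
  intro r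
  obtain ⟨M, m1, m2, a, ha⟩ := h (r - ∑ s ∈ I, c s.1.1 s.1.2)
  obtain ⟨J, j1, j2⟩ := hg (-a)
  obtain ⟨n1, n2⟩ := hI.select (fun s => if s ∈ J then s.2 else s.1)
    (fun s _ => by split_ifs <;> simp)
  obtain ⟨u1, u2⟩ := n1.union (X := VV qv I) (fun e he z hz => by
    obtain ⟨s, hs, rfl⟩ := mem_image.1 he
    refine mem_VV.2 ⟨s, hs, ?_⟩
    split_ifs at hz
    · exact mem_union_right _ hz
    · exact mem_union_left _ hz) m1
  refine ⟨_, u1, by rw [card_union_of_disjoint u2, card_image_of_injOn n2]; push_cast; omega, ?_⟩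
  rw [sum_union u2, sum_image n2]
  have e1 : ∑ s ∈ I, c (if s ∈ J then s.2 else s.1).1 (if s ∈ J then s.2 else s.1).2
      = ∑ s ∈ I, c s.1.1 s.1.2 + ∑ s ∈ J, dd c s := by
    rw [← inter_eq_right.2 j1, ← sum_ite_mem, ← sum_add_distrib, inter_eq_right.2 j1]
    refine sum_congr rfl fun s _ => ?_
    split_ifs <;> simp [dd]
  rw [e1]
  have e2 : ∑ s ∈ I, c s.1.1 s.1.2 + ∑ s ∈ J, dd c s + ∑ e ∈ M, c e.1 e.2 - r
      = ∑ s ∈ J, dd c s - x * -a := by linarith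
  rwa [e2]

lemma gen_exists (c : V → V → ℤ) {x τ : ℕ} (hx : 1 ≤ x) (hτ : 1 ≤ τ)
    (T : Finset ((V × V) × (V × V))) (h1 : ∀ s ∈ T, (x : ℤ) ∣ dd c s)
    (h2 : ∀ y : ℕ, y ∣ τ → 2 ≤ y → y ≤ (T.filter (fun s => ¬ ((x * y : ℕ) : ℤ) ∣ dd c s)).card + 1) :
    ∃ I ⊆ T, I.card + 1 ≤ τ ∧ Gen c x τ I := by
  have hx0 : (x : ℤ) ≠ 0 := by omega
  obtain ⟨I, i1, i2, i3⟩ := kneser_lite (fun s => dd c s / x) τ hτ T (fun y y1 y2 => by
    refine (h2 y y1 y2).trans (Nat.add_le_add_right (card_le_card fun s hs => ?_) 1)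
    refine mem_filter.2 ⟨(mem_filter.1 hs).1, fun h => (mem_filter.1 hs).2 ?_⟩
    rw [← Int.mul_ediv_cancel' (h1 s (mem_filter.1 hs).1)]
    push_cast
    exact mul_dvd_mul_left _ h)
  refine ⟨I, i1, i2, fun r => ?_⟩
  obtain ⟨J, j1, j2⟩ := i3 r
  refine ⟨J, j1, ?_⟩
  have : ∑ s ∈ J, dd c s = x * ∑ s ∈ J, dd c s / x := by
    rw [mul_sum]
    exact sum_congr rfl fun s hs => (Int.mul_ediv_cancel' (h1 s (i1 (j1 hs)))).symm
  rw [this, ← mul_sub]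
  exact mul_dvd_mul_left _ j2

lemma IsS.first {A : V → V → Prop} {S : Finset ((V × V) × (V × V))} (h : IsS A U S) :
    IsM A U (S.image Prod.fst) ∧ (S.image Prod.fst).card = S.card := by
  obtain ⟨n1, n2⟩ := h.select Prod.fst (fun _ _ => Or.inl rfl)
  exact ⟨n1, card_image_of_injOn n2⟩

lemma cover_one {M : Finset (V × V)} (h : IsM G.Adj U M) {k : ℤ} (hk : (M.card : ℤ) = k) :
    Cover G c U k 1 := fun _ => ⟨M, h, hk, one_dvd _⟩

lemma card_qv_le (s : (V × V) × (V × V)) : (qv s).card ≤ 4 := by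
  have := card_union_le (ev s.1) (ev s.2)
  have := card_ev_le s.1
  have := card_ev_le s.2
  unfold qv; omega

lemma card_VV_qv (I : Finset ((V × V) × (V × V))) (m : ℕ) (h : ∀ s ∈ I, (qv s).card ≤ m) :
    (VV qv I).card ≤ m * I.card := by
  refine card_VV_le.trans ?_
  have := sum_le_card_nsmul I (fun p => (qv p).card) m h
  simpa [mul_comm] using this

lemma MonoOff.small {Y : Finset V} {g γ : ℤ} (h : MonoOff G c U Y g γ) :
    Small G c U g γ Y.card := by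
  intro M hM
  have := hM.2.card_hit' Y
  rw [filter_true_of_mem (fun e he => by
    by_contra hh
    push Not at hh
    exact h e.1 ((hM.1 e he).2 (by simp [ev])) e.2 ((hM.1 e he).2 (by simp [ev]))
      (hh _ (by simp [ev])) (hh _ (by simp [ev])) (hM.1 e he).1)] at this
  exact_mod_cast this

lemma Small.slots {S : Finset ((V × V) × (V × V))} (hS : IsS G.Adj U S) {g γ b : ℤ}
    (h : Small G c U g γ b) :
    ((S.filter (fun s => ¬ g ∣ c s.1.1 s.1.2 - γ)).card : ℤ) ≤ b := by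
  obtain ⟨a1, a2⟩ := (hS.sub (filter_subset (fun s => ¬ g ∣ c s.1.1 s.1.2 - γ) S)).first
  rw [← a2]
  refine h _ ⟨fun e he => ⟨⟨(a1.1 e he).1, ?_⟩, (a1.1 e he).2⟩, a1.2⟩
  obtain ⟨s, hs, rfl⟩ := mem_image.1 he
  exact (mem_filter.1 hs).2

lemma Small.congr {g γ γ' b : ℤ} (h : Small G c U g γ b) (hγ : g ∣ γ - γ') :
    Small G c U g γ' b := fun M hM =>
  h M ⟨fun e he => ⟨⟨(hM.1 e he).1.1, fun hd => (hM.1 e he).1.2 (by
    have := dvd_add hd hγ; simpa using this)⟩, (hM.1 e he).2⟩, hM.2⟩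

end Pool.Agent.Lib.MP_22c8d1_co
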