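import Pool.Agent.Lib.MP_22c8d1_co.Group1

set_option autoImplicit false
open Finset
open scoped Classical

namespace Pool.Agent.Lib.MP_22c8d1_co

variable {V : Type*} {G : SimpleGraph V} {c : V → V → ℤ} {U : Finset V}

lemma gen_avoid {x τ : ℕ} (hx : 1 ≤ x) (hτ : 1 ≤ τ) {S : Finset ((V × V) × (V × V))}
    (hS : IsS G.Adj U S)
    (hbig : ∀ y : ℕ, y ∣ τ → 2 ≤ y →
      x * y ≤ (S.filter (fun s => ¬ ((x * y : ℕ) : ℤ) ∣ dd c s)).card + 1) (X : Finset V)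
    (hX : (X \ VV qv (S.filter (fun s => ¬ (x : ℤ) ∣ dd c s))).card +
      (S.filter (fun s => ¬ (x : ℤ) ∣ dd c s)).card + 2 ≤ 2 * x) :
    ∃ I ⊆ S, I.card + 1 ≤ τ ∧ Gen c x τ I ∧ ∀ z ∈ X, z ∉ VV qv I := by
  set NT := S.filter (fun s => ¬ (x : ℤ) ∣ dd c s) with hNT
  obtain ⟨I, i1, i2, i3⟩ := gen_exists c hx hτ
    (S.filter (fun s => (x : ℤ) ∣ dd c s ∧ ∀ z ∈ qv s, z ∉ X))
    (fun s hs => (mem_filter.1 hs).2.1) (fun y y1 y2 => by
      have h1 := hbig y y1 y2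
      have h2 := hS.2.card_hit' (X \ VV qv NT)
      have h3 : S.filter (fun s => ¬ ((x * y : ℕ) : ℤ) ∣ dd c s) ⊆
          ((S.filter (fun s => (x : ℤ) ∣ dd c s ∧ ∀ z ∈ qv s, z ∉ X)).filter
            (fun s => ¬ ((x * y : ℕ) : ℤ) ∣ dd c s) ∪ NT) ∪
            S.filter (fun s => ∃ z ∈ qv s, z ∈ X \ VV qv NT) := by
        intro s hs
        obtain ⟨s1, s2⟩ := mem_filter.1 hs
        by_cases a : (x : ℤ) ∣ dd c s
        · by_cases b : ∀ z ∈ qv s, z ∉ X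
          · exact mem_union_left _ (mem_union_left _ (mem_filter.2 ⟨mem_filter.2 ⟨s1, a, b⟩, s2⟩))
          · push Not at b
            obtain ⟨z, z1, z2⟩ := b
            refine mem_union_right _ (mem_filter.2 ⟨s1, z, z1, mem_sdiff.2 ⟨z2, fun h => ?_⟩⟩)
            obtain ⟨t, ht, z3⟩ := mem_VV.1 h
            exact (mem_filter.1 ht).2 (hS.2.eq_of_mem s1 (mem_filter.1 ht).1 z1 z3 ▸ a)
        · exact mem_union_left _ (mem_union_right _ (mem_filter.2 ⟨s1, a⟩))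
      have h4 := (card_le_card h3).trans ((card_union_le _ _).trans
        (Nat.add_le_add_right (card_union_le _ _) _))
      obtain ⟨x', rfl⟩ : ∃ x', x = x' + 1 := ⟨x - 1, by omega⟩
      obtain ⟨y', rfl⟩ : ∃ y', y = y' + 2 := ⟨y - 2, by omega⟩
      nlinarith [Nat.zero_le (x' * y')])
  refine ⟨I, i1.trans (filter_subset _ _), i2, i3, fun z hz h => ?_⟩
  obtain ⟨s, hs, z1⟩ := mem_VV.1 h
  exact (mem_filter.1 (i1 hs)).2.2 z z1 hz

lemma out_big {x τ : ℕ} (hx : 3 ≤ x) (hτ : 2 ≤ τ) {k : ℤ} (hk : (x * τ : ℤ) ≤ k)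
    (hD : Dense G U k (x * τ))
    (IH : ∀ (U' : Finset V) (k' : ℤ), (x : ℤ) ≤ k' → Dense G U' k' x →
      Cover G c U' k' x ∨ OutM G c U' k' x ∨ OutN G c U' x)
    (hC : ¬ Cover G c U k (x * τ)) (hN : ¬ OutN G c U (x * τ))
    {I : Finset ((V × V) × (V × V))} (hI : IsS G.Adj U I) (i2 : I.card + 1 ≤ τ)
    (i3 : Gen c x τ I) : (∃ γ, Small G c (U \ VV qv I) x γ (x - 2)) ∨
      (2 ∣ x ∧ x ≤ 6 ∧ ∃ γ, Small G c (U \ VV qv I) 2 γ 1) := by
  have cV := card_VV_qv I 4 (fun s _ => card_qv_le s)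
  obtain ⟨τ', rfl⟩ : ∃ τ', τ = τ' + 1 := ⟨τ - 1, by omega⟩
  have a1 : 3 * τ' ≤ x * τ' := Nat.mul_le_mul_right _ hx
  have a2 : ((x * (τ' + 1 : ℕ) : ℤ)) = (x * τ' : ℕ) + x := by push_cast; ring
  have a3 : x - 1 ≤ (x - 1) * τ' := Nat.le_mul_of_pos_right _ (by omega)
  have a4 : (x - 1) * τ' + τ' = x * τ' := by
    obtain ⟨x', rfl⟩ : ∃ x', x = x' + 1 := ⟨x - 1, by omega⟩
    simp [add_mul]
  rcases IH (U \ VV qv I) (k - I.card) (by omega) (hD.sdiff _ (by omega) (by omega) (by omega))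
    with h | h | ⟨ι, m, γ, Y, n1, n2, n3, n4, n5, n6⟩
  · exact absurd (cover_step hI i3 h) hC
  · exact Or.inl (h.2 (by omega))
  · by_cases h4 : 4 + m ≤ x
    · refine absurd ⟨ι, m * (τ' + 1), γ, Y ∪ VV qv I, by rw [n1]; ring, n2, by nlinarith, ?_,
        fun _ h => by nlinarith, fun a ha b hb a1 b1 => ?_⟩ hN
      · have := card_union_le Y (VV qv I)
        have := Nat.mul_le_mul_right τ' h4
        nlinarith
      · rw [mem_union, not_or] at a1 b1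
        exact n6 a (mem_sdiff.2 ⟨ha, a1.2⟩) b (mem_sdiff.2 ⟨hb, b1.2⟩) a1.1 b1.1
    · have e : ι = 2 := by
        by_contra e
        have : 3 * m ≤ ι * m := Nat.mul_le_mul_right _ (by omega)
        omega
      subst e
      refine Or.inr ⟨⟨m, n1⟩, by omega, γ, fun M hM => ?_⟩
      have := n6.small M hM
      have := n5 rfl (by omega)
      omega

lemma IsM.bad_mono {g g' γ : ℤ} (h : g ∣ g') {M : Finset (V × V)} (hM : IsM (Bad G c g γ) U M) :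
    IsM (Bad G c g' γ) U M :=
  ⟨fun e he => ⟨⟨(hM.1 e he).1.1, fun hd => (hM.1 e he).1.2 (h.trans hd)⟩, (hM.1 e he).2⟩, hM.2⟩

theorem step_big {x τ : ℕ} (hx : 3 ≤ x) (hτ : 2 ≤ τ) {k : ℤ} (hk : (x * τ : ℤ) ≤ k)
    (hD : Dense G U k (x * τ))
    (IH : ∀ (U' : Finset V) (k' : ℤ), (x : ℤ) ≤ k' → Dense G U' k' x →
      Cover G c U' k' x ∨ OutM G c U' k' x ∨ OutN G c U' x)
    {S : Finset ((V × V) × (V × V))} (hS : IsS G.Adj U S) (hSk : (S.card : ℤ) = k)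
    (hq : (S.filter (fun s => ¬ (x : ℤ) ∣ dd c s)).card + 2 ≤ x)
    (hbig : ∀ y : ℕ, y ∣ τ → 2 ≤ y →
      x * y ≤ (S.filter (fun s => ¬ ((x * y : ℕ) : ℤ) ∣ dd c s)).card + 1) :
    Cover G c U k (x * τ) ∨ OutN G c U (x * τ) := by
  by_contra hcon
  rw [not_or] at hcon
  obtain ⟨hC, hN⟩ := hcon
  let Maj : ℤ → ℤ → Prop := fun ι γ =>
    ((S.filter (fun s => ¬ ι ∣ c s.1.1 s.1.2 - γ)).card : ℤ) ≤ x + τ - 3
  have maj : ∀ I ⊆ S, I.card + 1 ≤ τ → ∀ ι γ b : ℤ, b ≤ x - 2 →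
      Small G c (U \ VV qv I) ι γ b → Maj ι γ := by
    intro I hI i2 ι γ b hb h
    have h1 := h.slots (hS.rest hI)
    have h2 : S.filter (fun s => ¬ ι ∣ c s.1.1 s.1.2 - γ) ⊆
        (S \ I).filter (fun s => ¬ ι ∣ c s.1.1 s.1.2 - γ) ∪ I := by
      intro s hs
      by_cases a : s ∈ I
      · exact mem_union_right _ a
      · exact mem_union_left _ (mem_filter.2 ⟨mem_sdiff.2 ⟨(mem_filter.1 hs).1, a⟩,
          (mem_filter.1 hs).2⟩)
    have h3 := (card_le_card h2).trans (card_union_le _ _)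
    simp only [Maj]
    omega
  have uniq : ∀ ι γ ι' γ' j, Maj ι γ → Maj ι' γ' → j ∣ ι → j ∣ ι' → j ∣ γ - γ' := by
    intro ι γ ι' γ' j h1 h2 j1 j2
    obtain ⟨s, -, s1, s2⟩ : ∃ s ∈ S, ι ∣ c s.1.1 s.1.2 - γ ∧ ι' ∣ c s.1.1 s.1.2 - γ' := by
      by_contra hh
      have h3 : S ⊆ S.filter (fun s => ¬ ι ∣ c s.1.1 s.1.2 - γ) ∪
          S.filter (fun s => ¬ ι' ∣ c s.1.1 s.1.2 - γ') := by
        intro s hs
        by_cases a : ι ∣ c s.1.1 s.1.2 - γ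
        · exact mem_union_right _ (mem_filter.2 ⟨hs, fun b => hh ⟨s, hs, a, b⟩⟩)
        · exact mem_union_left _ (mem_filter.2 ⟨hs, a⟩)
      have h4 := (card_le_card h3).trans (card_union_le _ _)
      simp only [Maj] at h1 h2
      have : (0 : ℤ) ≤ (x - 2) * (τ - 2) := mul_nonneg (by omega) (by omega)
      have h5 : k ≤ 2 * x + 2 * τ - 6 := by omega
      nlinarith
    have := dvd_sub (j2.trans s2) (j1.trans s1)
    simpa using this
  obtain ⟨γ, g1, g2⟩ : ∃ γ : ℤ, (∀ γ', Maj x γ' → (x : ℤ) ∣ γ' - γ) ∧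
      (2 ∣ x → ∀ γ', Maj 2 γ' → (2 : ℤ) ∣ γ' - γ) := by
    by_cases a : ∃ γ, Maj x γ
    · obtain ⟨γ, a⟩ := a
      exact ⟨γ, fun γ' h => uniq _ _ _ _ _ h a dvd_rfl dvd_rfl,
        fun h2 γ' h => uniq _ _ _ _ _ h a dvd_rfl (by exact_mod_cast h2)⟩
    · by_cases b : ∃ γ, Maj 2 γ
      · obtain ⟨γ, b⟩ := b
        exact ⟨γ, fun γ' h => absurd ⟨γ', h⟩ a, fun _ γ' h => uniq _ _ _ _ _ h b dvd_rfl dvd_rfl⟩
      · exact ⟨0, fun γ' h => absurd ⟨γ', h⟩ a, fun _ γ' h => absurd ⟨γ', h⟩ b⟩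
  obtain ⟨M, m1, m2⟩ : ∃ M, IsM (Bad G c x γ) U M ∧ (M.card : ℤ) = x - 1 := by
    by_cases a : Small G c U x γ (x - 2)
    · obtain ⟨Y, y1, y2⟩ := cover_of_small a
      refine absurd ⟨x, τ, γ, Y, rfl, by omega, hτ, ?_, by omega, y2⟩ hN
      have : (0 : ℤ) ≤ (x - 1) * (τ - 2) := mul_nonneg (by omega) (by omega)
      have : (Y.card : ℤ) + τ ≤ x * τ := by nlinarith
      exact_mod_cast this
    · simp only [Small, not_forall, not_le] at a
      obtain ⟨M, m1, m2⟩ := a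
      obtain ⟨M', -, a2, a3⟩ := m1.exists_card (k := x - 1) (by omega) (by omega)
      exact ⟨M', a2, a3⟩
  obtain ⟨P, p1, p2, p3, p4⟩ : ∃ P, IsM (Bad G c 2 γ) U P ∧ IsM (Bad G c x γ) U P ∧
      2 * P.card ≤ x ∧ (2 ∣ x → x ≤ 6 → 2 ≤ P.card) := by
    by_cases b : 2 ∣ x
    · by_cases a : Small G c U 2 γ 1
      · obtain ⟨Y, y1, y2⟩ := cover_of_small a
        obtain ⟨m, rfl⟩ := b
        have : 2 * 2 ≤ m * τ := Nat.mul_le_mul (by omega) hτ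
        exact absurd ⟨2, m * τ, γ, Y, by ring, le_rfl, by omega, by rw [mul_assoc]; omega,
          fun _ h => by rw [mul_assoc] at h; omega, y2⟩ hN
      · simp only [Small, not_forall, not_le] at a
        obtain ⟨M, m1, m2⟩ := a
        obtain ⟨M', -, a2, a3⟩ := m1.exists_card (k := 2) (by omega) (by omega)
        exact ⟨M', a2, a2.bad_mono (by exact_mod_cast b), by omega, fun _ _ => by omega⟩
    · exact ⟨∅, ⟨by simp, by simp [PD]⟩, ⟨by simp, by simp [PD]⟩, by simp, fun h => absurd h b⟩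
  set NT := S.filter (fun s => ¬ (x : ℤ) ∣ dd c s) with hNT
  obtain ⟨q1, q2⟩ := (hS.sub (filter_subset _ _ : NT ⊆ S)).select
    (fun s => if (x : ℤ) ∣ c s.1.1 s.1.2 - γ then s.2 else s.1) (fun s _ => by split_ifs <;> simp)
  set Q := NT.image (fun s => if (x : ℤ) ∣ c s.1.1 s.1.2 - γ then s.2 else s.1) with hQ
  have q3 : Q.card = NT.card := card_image_of_injOn q2
  have q4 : IsM (Bad G c x γ) U Q := by
    refine ⟨fun e he => ⟨⟨(q1.1 e he).1, ?_⟩, (q1.1 e he).2⟩, q1.2⟩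
    obtain ⟨s, hs, rfl⟩ := mem_image.1 he
    split_ifs with a
    · refine fun b => (mem_filter.1 hs).2 ?_
      have := dvd_sub b a
      simpa [dd] using this
    · exact a
  have q5 : VV ev Q ⊆ VV qv NT := by
    intro z hz
    obtain ⟨e, he, hz⟩ := mem_VV.1 hz
    obtain ⟨s, hs, rfl⟩ := mem_image.1 he
    refine mem_VV.2 ⟨s, hs, ?_⟩
    split_ifs at hz
    · exact mem_union_right _ hz
    · exact mem_union_left _ hz
  obtain ⟨X, F, x1, x2, x3, x4, x5⟩ := protect p2 q4 m1 (by omega) (by omega)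
  have x6 := card_le_card (sdiff_subset_sdiff (Subset.refl X) q5)
  obtain ⟨I, i1, i2, i3, i4⟩ := gen_avoid (by omega) (by omega) hS hbig X (by rw [← hNT]; omega)
  have x7 : X ⊆ U \ VV qv I := fun z hz => mem_sdiff.2 ⟨x1 hz, i4 z hz⟩
  rcases out_big hx hτ hk hD IH hC hN (hS.sub i1) i2 i3 with ⟨γ', h⟩ | ⟨a, b, γ', h⟩
  · have := h.congr (g1 γ' (maj I i1 i2 _ _ _ le_rfl h)) F (x3.sup x7)
    omega
  · have := h.congr (g2 a γ' (maj I i1 i2 _ _ _ (by omega) h)) P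
      (p1.mono Subset.rfl fun e he => (x2.1 e he).2.trans x7)
    have := p4 a b
    omega

end Pool.Agent.Lib.MP_22c8d1_co
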