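import Pool.Agent.Lib.MP_22c8d1_co.Group2

set_option autoImplicit false
open Finset
open scoped Classical

namespace Pool.Agent.Lib.MP_22c8d1_co

variable {V : Type*} {G : SimpleGraph V} {c : V → V → ℤ} {U : Finset V}

lemma gen_two {τ : ℕ} (hτ : 1 ≤ τ) {S : Finset ((V × V) × (V × V))}
    (hev : ∀ s ∈ S, (2 : ℤ) ∣ dd c s)
    (hbig : ∀ y : ℕ, y ∣ τ → 2 ≤ y →
      2 * y ≤ (S.filter (fun s => ¬ ((2 * y : ℕ) : ℤ) ∣ dd c s)).card + 1)
    (Rm : Finset ((V × V) × (V × V)))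
    (h : Rm.card ≤ 2 ∨ (Rm.card ≤ 3 ∧ (2 ∣ τ → ∃ s ∈ S, s ∉ Rm ∧ ¬ (4 : ℤ) ∣ dd c s))) :
    ∃ I ⊆ S \ Rm, I.card + 1 ≤ τ ∧ Gen c 2 τ I := by
  refine gen_exists c (x := 2) (by norm_num) hτ (S \ Rm) (fun s hs => hev s (mem_sdiff.1 hs).1)
    fun y y1 y2 => ?_
  have h1 := hbig y y1 y2
  have h3 : S.filter (fun s => ¬ ((2 * y : ℕ) : ℤ) ∣ dd c s) ⊆
      (S \ Rm).filter (fun s => ¬ ((2 * y : ℕ) : ℤ) ∣ dd c s) ∪ Rm := by
    intro s hs
    by_cases a : s ∈ Rm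
    · exact mem_union_right _ a
    · exact mem_union_left _ (mem_filter.2 ⟨mem_sdiff.2 ⟨(mem_filter.1 hs).1, a⟩,
        (mem_filter.1 hs).2⟩)
  have h4 := (card_le_card h3).trans (card_union_le _ _)
  rcases h with h | ⟨h, h'⟩
  · omega
  · by_cases e : y = 2
    · subst e
      obtain ⟨s, s1, s2, s3⟩ := h' y1
      have : 0 < ((S \ Rm).filter (fun s => ¬ ((2 * 2 : ℕ) : ℤ) ∣ dd c s)).card :=
        card_pos.2 ⟨s, mem_filter.2 ⟨mem_sdiff.2 ⟨s1, s2⟩, by simpa using s3⟩⟩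
      omega
    · omega

lemma cover_two {k : ℤ} {M N : Finset (V × V)} (hM : IsM G.Adj U M) (hN : IsM G.Adj U N)
    (kM : (M.card : ℤ) = k) (kN : (N.card : ℤ) = k)
    (h : ¬ (2 : ℤ) ∣ ∑ e ∈ M, c e.1 e.2 - ∑ e ∈ N, c e.1 e.2) : Cover G c U k 2 := by
  intro r
  by_cases a : (2 : ℤ) ∣ ∑ e ∈ M, c e.1 e.2 - r
  · exact ⟨M, hM, kM, a⟩
  · exact ⟨N, hN, kN, by omega⟩

lemma sum_mono {g γ : ℤ} {M : Finset (V × V)} (h : ∀ e ∈ M, g ∣ c e.1 e.2 - γ) :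
    g ∣ ∑ e ∈ M, c e.1 e.2 - M.card * γ := by
  have := dvd_sum h
  rwa [sum_sub_distrib, sum_const, nsmul_eq_mul] at this

lemma switch {k γ : ℤ} (hk : 1 ≤ k) {M B : Finset (V × V)} {f : V × V} (hM : IsM G.Adj U M)
    (kM : (M.card : ℤ) = k) (cM : ∀ e ∈ M, (2 : ℤ) ∣ c e.1 e.2 - γ)
    (hB : IsM G.Adj (U \ ev f) B) (kB : k - 1 ≤ B.card) (cB : ∀ e ∈ B, (2 : ℤ) ∣ c e.1 e.2 - γ)
    (hf : Bad G c 2 γ f.1 f.2) (hfU : ev f ⊆ U) : Cover G c U k 2 := by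
  obtain ⟨B', b1, b2, b3⟩ := hB.exists_card (by omega) kB
  obtain ⟨i1, i2⟩ := (b2.sup sdiff_subset).insert hf.1 hfU
    (fun e he z hz hz' => (mem_sdiff.1 ((b2.1 e he).2 hz')).2 hz)
  refine cover_two hM i1 kM (by rw [card_insert_of_notMem i2]; omega) ?_
  rw [sum_insert i2]
  have a1 := sum_mono cM
  have a2 := sum_mono (fun e he => cB e (b1 he))
  have a3 := hf.2
  rw [kM] at a1
  rw [b3, sub_mul, one_mul] at a2
  omega

lemma IsS.first_plus {A : V → V → Prop} {S : Finset ((V × V) × (V × V))} (h : IsS A U S)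
    {Q : (V × V) × (V × V)} (hQ : Q ∈ S) (hd : Disjoint (ev Q.1) (ev Q.2)) {T : Finset _}
    (hT : T ⊆ S) :
    IsM A U (insert Q.2 (T.image Prod.fst)) ∧ Q.2 ∉ T.image Prod.fst := by
  refine (h.sub hT).first.1.insert (h.1 Q hQ).2.1 (subset_union_right.trans (h.1 Q hQ).2.2)
    fun e he z hz hz' => ?_
  obtain ⟨s, hs, rfl⟩ := mem_image.1 he
  have := h.2.eq_of_mem (hT hs) hQ (mem_union_left _ hz') (mem_union_right _ hz)
  subst this
  exact Finset.disjoint_left.1 hd hz' hz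

lemma card_qv_three {s : (V × V) × (V × V)} (h : ¬ Disjoint (ev s.1) (ev s.2)) :
    (qv s).card ≤ 3 := by
  have h1 := card_union_add_card_inter (ev s.1) (ev s.2)
  have h2 : 0 < (ev s.1 ∩ ev s.2).card := card_pos.2 (not_disjoint_iff_nonempty_inter.1 h)
  have := card_ev_le s.1
  have := card_ev_le s.2
  unfold qv; omega

lemma card_inter_le_one (hc : ∀ x y, c x y = c y x) {s : (V × V) × (V × V)} (h : dd c s ≠ 0) :
    (ev s.1 ∩ ev s.2).card ≤ 1 := by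
  refine card_le_one.2 fun a ha b hb => ?_
  by_contra hab
  obtain ⟨⟨x, y⟩, ⟨z, w⟩⟩ := s
  simp only [mem_inter, mem_ev] at ha hb
  have := hc x y
  have := hc z w
  unfold dd at h
  grind

lemma avoid_rest {S I : Finset ((V × V) × (V × V))} {f : V × V} (hfU : ev f ⊆ U)
    (hI : I ⊆ S) (h : ∀ s ∈ I, s ∉ S.filter (fun s => ∃ z ∈ qv s, z ∈ ev f)) :
    ev f ⊆ U \ VV qv I := by
  refine fun z hz => mem_sdiff.2 ⟨hfU hz, fun hz' => ?_⟩
  obtain ⟨s, hs, z1⟩ := mem_VV.1 hz'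
  exact h s hs (mem_filter.2 ⟨hI hs, z, z1, hz⟩)

theorem two_noquad {τ : ℕ} (hτ : 2 ≤ τ) {k : ℤ} (hk : (2 * τ : ℤ) ≤ k) (hD : Dense G U k (2 * τ))
    (IH : ∀ (U' : Finset V) (k' : ℤ), 2 ≤ k' → Dense G U' k' 2 →
      Cover G c U' k' 2 ∨ OutM G c U' k' 2 ∨ OutN G c U' 2)
    {S : Finset ((V × V) × (V × V))} (hS : IsS G.Adj U S) (hSk : (S.card : ℤ) = k)
    (hev : ∀ s ∈ S, (2 : ℤ) ∣ dd c s)
    (hbig : ∀ y : ℕ, y ∣ τ → 2 ≤ y →
      2 * y ≤ (S.filter (fun s => ¬ ((2 * y : ℕ) : ℤ) ∣ dd c s)).card + 1)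
    (hnq : ∀ s ∈ S, ¬ Disjoint (ev s.1) (ev s.2)) :
    Cover G c U k (2 * τ) ∨ OutN G c U (2 * τ) := by
  have key : ∀ I ⊆ S, I.card + 1 ≤ τ → Gen c 2 τ I → ∀ e f : V × V, G.Adj e.1 e.2 → G.Adj f.1 f.2 →
      ev e ⊆ U \ VV qv I → ev f ⊆ U \ VV qv I → ¬ (2 : ℤ) ∣ c f.1 f.2 - c e.1 e.2 →
      Cover G c U k (2 * τ) := by
    intro I i1 i2 i3 e f a1 a2 a3 a4 a5
    have cV := card_VV_qv I 3 (fun s hs => card_qv_three (hnq s (i1 hs)))
    rcases IH (U \ VV qv I) (k - I.card) (by omega) (hD.sdiff _ (by omega) (by omega) (by omega))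
      with h | h | ⟨ι, m, γ, Y, n1, n2, n3, -⟩
    · exact cover_step (hS.sub i1) i3 h
    · exfalso
      obtain ⟨γ, h⟩ := h.2 (by omega)
      have k1 : ∀ e : V × V, G.Adj e.1 e.2 → ev e ⊆ U \ VV qv I → (2 : ℤ) ∣ c e.1 e.2 - γ := by
        intro e a1 a2
        by_contra hh
        have := h {e} ⟨fun t ht => by rw [mem_singleton.1 ht]; exact ⟨⟨a1, hh⟩, a2⟩, PD_single _ _⟩
        simp at this
      have := k1 e a1 a3
      have := k1 f a2 a4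
      omega
    · have : 2 * 2 ≤ ι * m := Nat.mul_le_mul n2 n3
      omega
  have fst : ∀ I ⊆ S, ∀ s ∈ S, s ∉ I → G.Adj s.1.1 s.1.2 ∧ ev s.1 ⊆ U \ VV qv I :=
    fun I hI s hs hs' => ⟨(hS.1 s hs).1,
      subset_union_left.trans ((hS.rest hI).1 s (mem_sdiff.2 ⟨hs, hs'⟩)).2.2⟩
  obtain ⟨s0, hs0⟩ : S.Nonempty := card_pos.1 (by omega)
  by_cases hall : ∀ s ∈ S, (2 : ℤ) ∣ c s.1.1 s.1.2 - c s0.1.1 s0.1.2
  · by_cases hm : MonoOff G c U ∅ 2 (c s0.1.1 s0.1.2)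
    · exact Or.inr ⟨2, τ, _, ∅, rfl, le_rfl, hτ, by simp; omega, by simp, hm⟩
    left
    simp only [MonoOff, not_forall, not_not] at hm
    obtain ⟨x, hx, y, hy, -, -, hb⟩ := hm
    have h2 := (hS.2.card_hit' (ev (x, y))).trans (card_ev_le _)
    obtain ⟨I, i1, i2, i3⟩ := gen_two (by omega) hev hbig _ (Or.inl h2)
    have iS := i1.trans sdiff_subset
    obtain ⟨s, hs, hs'⟩ := exists_mem_notMem_of_card_lt_card (s := I) (t := S) (by omega)
    refine key I iS i2 i3 s.1 (x, y) (fst I iS s hs hs').1 hb.1 (fst I iS s hs hs').2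
      (avoid_rest (insert_subset hx (singleton_subset_iff.2 hy)) iS
        fun t ht => (mem_sdiff.1 (i1 ht)).2) ?_
    have := hall s hs
    have := hb.2
    simp only at *
    omega
  · left
    push Not at hall
    obtain ⟨s1, hs1, hb⟩ := hall
    obtain ⟨I, i1, i2, i3⟩ := gen_two (by omega) hev hbig {s0, s1} (Or.inl card_le_two)
    have iS := i1.trans sdiff_subset
    have b0 := fst I iS s0 hs0 (fun h => (mem_sdiff.1 (i1 h)).2 (by simp))
    have b1 := fst I iS s1 hs1 (fun h => (mem_sdiff.1 (i1 h)).2 (by simp))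
    exact key I iS i2 i3 s0.1 s1.1 b0.1 b1.1 b0.2 b1.2 hb

theorem two_quad (hc : ∀ x y, c x y = c y x) {τ : ℕ} (hτ : 2 ≤ τ) {k : ℤ} (hk : (2 * τ : ℤ) ≤ k)
    {S : Finset ((V × V) × (V × V))} (hS : IsS G.Adj U S) (hSk : (S.card : ℤ) = k)
    (hev : ∀ s ∈ S, (2 : ℤ) ∣ dd c s)
    (hbig : ∀ y : ℕ, y ∣ τ → 2 ≤ y →
      2 * y ≤ (S.filter (fun s => ¬ ((2 * y : ℕ) : ℤ) ∣ dd c s)).card + 1)
    {Q : (V × V) × (V × V)} (hQ : Q ∈ S) (hd : Disjoint (ev Q.1) (ev Q.2)) :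
    Cover G c U k (2 * τ) ∨ OutN G c U (2 * τ) := by
  set γ := c Q.1.1 Q.1.2 with hγ
  have cQ : (2 : ℤ) ∣ c Q.2.1 Q.2.2 - γ := hev Q hQ
  by_cases hall : ∀ s ∈ S, (2 : ℤ) ∣ c s.1.1 s.1.2 - γ
  swap
  · left
    push Not at hall
    obtain ⟨s1, hs1, hb⟩ := hall
    obtain ⟨I, i1, i2, i3⟩ := gen_two (by omega) hev hbig {Q, s1} (Or.inl card_le_two)
    have iS := i1.trans sdiff_subset
    have b0 : Q ∈ S \ I := mem_sdiff.2 ⟨hQ, fun h => (mem_sdiff.1 (i1 h)).2 (by simp)⟩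
    have b1 : s1 ∈ S \ I := mem_sdiff.2 ⟨hs1, fun h => (mem_sdiff.1 (i1 h)).2 (by simp)⟩
    have hR := hS.rest iS
    have cR := card_sdiff_add_card_eq_card iS
    obtain ⟨a1, a2⟩ := hR.first_plus b0 hd (erase_subset s1 _)
    have a3 := (hR.sub (erase_subset s1 _)).first.2
    have a4 := card_erase_add_one b1
    refine cover_step (hS.sub iS) i3 (cover_two hR.first.1 a1 (by rw [hR.first.2]; omega)
      (by rw [card_insert_of_notMem a2]; omega) ?_)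
    have inj := (hR.select Prod.fst (fun _ _ => Or.inl rfl)).2
    rw [sum_insert a2, sum_image inj, sum_image (inj.mono (by exact_mod_cast erase_subset s1 _)),
      ← add_sum_erase _ _ b1]
    omega
  have call : ∀ T ⊆ S, ∀ e ∈ T.image Prod.fst, (2 : ℤ) ∣ c e.1 e.2 - γ := by
    intro T hT e he
    obtain ⟨s, hs, rfl⟩ := mem_image.1 he
    exact hall s (hT hs)
  have feas : ∀ f : V × V, Bad G c 2 γ f.1 f.2 → ev f ⊆ U →
      (2 ∣ τ → ∃ s ∈ S, s ∉ insert Q (S.filter (fun s => ∃ z ∈ qv s, z ∈ ev f)) ∧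
        ¬ (4 : ℤ) ∣ dd c s) → Cover G c U k (2 * τ) := by
    intro f hf hfU h4
    have h2 := (hS.2.card_hit' (ev f)).trans (card_ev_le _)
    obtain ⟨I, i1, i2, i3⟩ := gen_two (by omega) hev hbig _
      (Or.inr ⟨(card_insert_le _ _).trans (by omega), h4⟩)
    have iS := i1.trans sdiff_subset
    have b0 : Q ∈ S \ I := mem_sdiff.2 ⟨hQ, fun h => (mem_sdiff.1 (i1 h)).2 (by simp)⟩
    have hR := hS.rest iS
    have cR := card_sdiff_add_card_eq_card iS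
    obtain ⟨a1, a2⟩ := hR.first_plus b0 hd Subset.rfl
    obtain ⟨B, b1, b2, b3⟩ := a1.avoid (ev f)
    rw [card_insert_of_notMem a2, hR.first.2] at b3
    have := card_ev_le f
    refine cover_step (hS.sub iS) i3 (switch (by omega) hR.first.1 (by rw [hR.first.2]; omega)
      (call _ sdiff_subset) b2 (by omega) (fun e he => ?_) hf (avoid_rest hfU iS
        fun t ht h => (mem_sdiff.1 (i1 ht)).2 (mem_insert_of_mem h)))
    rcases mem_insert.1 (b1 he) with rfl | he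
    · exact cQ
    · exact call _ sdiff_subset e he
  set T4 := (S.filter (fun s => ¬ (4 : ℤ) ∣ dd c s)).erase Q with hT4
  have mT : ∀ s ∈ T4, s ∈ S ∧ s ≠ Q ∧ ¬ (4 : ℤ) ∣ dd c s := fun s hs =>
    ⟨(mem_filter.1 (mem_erase.1 hs).2).1, (mem_erase.1 hs).1, (mem_filter.1 (mem_erase.1 hs).2).2⟩
  have feas' : ∀ f : V × V, Bad G c 2 γ f.1 f.2 → ev f ⊆ U →
      (2 ∣ τ → ¬ T4 ⊆ S.filter (fun s => ∃ z ∈ qv s, z ∈ ev f)) → Cover G c U k (2 * τ) := by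
    intro f hf hfU h
    refine feas f hf hfU fun h2 => ?_
    obtain ⟨s, s1, s2⟩ := not_subset.1 (h h2)
    obtain ⟨t1, t2, t3⟩ := mT s s1
    exact ⟨s, t1, fun h' => s2 ((mem_insert.1 h').resolve_left t2), t3⟩
  obtain ⟨Y, y1, y2⟩ : ∃ Y : Finset V, Y.card ≤ 1 ∧ ∀ f : V × V, Bad G c 2 γ f.1 f.2 → ev f ⊆ U →
      (∀ z ∈ ev f, z ∉ Y) → Cover G c U k (2 * τ) := by
    by_cases h4 : 2 ∣ τ
    swap
    · exact ⟨∅, by simp, fun f hf hfU _ => feas' f hf hfU (fun h => absurd h h4)⟩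
    have c4 : 2 ≤ T4.card := by
      have := hbig 2 h4 le_rfl
      have e := pred_card_le_card_erase (s := S.filter (fun s => ¬ (4 : ℤ) ∣ dd c s)) (a := Q)
      norm_num at this
      rw [← hT4] at e
      omega
    obtain ⟨s1, hs1, s2, hs2, hne⟩ := one_lt_card.1 c4
    obtain ⟨t1, -, t3⟩ := mT s1 hs1
    refine ⟨ev s1.1 ∩ ev s1.2, card_inter_le_one hc (fun e => t3 (by rw [e]; simp)),
      fun f hf hfU hY => ?_⟩
    by_cases hsub : T4 ⊆ S.filter (fun s => ∃ z ∈ qv s, z ∈ ev f)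
    swap
    · exact feas' f hf hfU fun _ => hsub
    set H := S.filter (fun s => ∃ z ∈ qv s, z ∈ ev f) with hH
    have h2 : H.card ≤ 2 := (hS.2.card_hit' (ev f)).trans (card_ev_le _)
    obtain ⟨-, u, u1, u2⟩ := mem_filter.1 (hsub hs1)
    obtain ⟨t2, v, v1, v2⟩ := mem_filter.1 (hsub hs2)
    have uv : u ≠ v := fun e => hne (hS.2.eq_of_mem t1 t2 u1 (e ▸ v1))
    obtain ⟨e, e1, e2⟩ : ∃ e : V × V, (e = s1.1 ∨ e = s1.2) ∧ u ∉ ev e := by
      by_cases a : u ∈ ev s1.1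
      · exact ⟨s1.2, Or.inr rfl, fun b => hY u u2 (mem_inter.2 ⟨a, b⟩)⟩
      · exact ⟨s1.1, Or.inl rfl, a⟩
    have e3 : ev e ⊆ qv s1 := by
      rcases e1 with rfl | rfl
      · exact subset_union_left
      · exact subset_union_right
    have e4 : ∀ z ∈ ev e, z ∉ ev f := by
      intro z hz hz'
      have : z = u ∨ z = v := by
        have a := mem_ev.1 hz'; have b := mem_ev.1 u2; have c := mem_ev.1 v2
        grind
      rcases this with rfl | rfl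
      · exact e2 hz
      · exact hne (hS.2.eq_of_mem t1 t2 (e3 hz) v1)
    obtain ⟨I, i1, i2, i3⟩ := gen_two (by omega) hev hbig H (Or.inl h2)
    have iS := i1.trans sdiff_subset
    have hR := hS.rest iS
    have cR := card_sdiff_add_card_eq_card iS
    have b1 : s1 ∈ S \ I := mem_sdiff.2 ⟨t1, fun h => (mem_sdiff.1 (i1 h)).2 (hsub hs1)⟩
    obtain ⟨a1, a2⟩ := (hR.sub (sdiff_subset (t := H))).first
    have a3 : IsM G.Adj ((U \ VV qv I) \ ev f) (((S \ I) \ H).image Prod.fst) :=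
      a1.mono Subset.rfl fun t ht z hz => mem_sdiff.2 ⟨(a1.1 t ht).2 hz, fun hz' => by
        obtain ⟨s, hs, rfl⟩ := mem_image.1 ht
        exact (mem_sdiff.1 hs).2 (mem_filter.2
          ⟨(mem_sdiff.1 (mem_sdiff.1 hs).1).1, z, mem_union_left _ hz, hz'⟩)⟩
    obtain ⟨a4, a5⟩ := a3.insert (f := e) (by
        rcases e1 with rfl | rfl
        · exact (hS.1 s1 t1).1
        · exact (hS.1 s1 t1).2.1)
      (fun z hz => mem_sdiff.2 ⟨(hR.1 s1 b1).2.2 (e3 hz), e4 z hz⟩)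
      (fun t ht z hz hz' => by
        obtain ⟨s, hs, rfl⟩ := mem_image.1 ht
        have := hS.2.eq_of_mem (mem_sdiff.1 (mem_sdiff.1 hs).1).1 t1 (mem_union_left _ hz') (e3 hz)
        exact (mem_sdiff.1 hs).2 (this ▸ hsub hs1))
    have a6 : (S \ I).card ≤ ((S \ I) \ H).card + H.card := card_le_card_sdiff_add_card
    refine cover_step (hS.sub iS) i3 (switch (by omega) hR.first.1 (by rw [hR.first.2]; omega)
      (call _ sdiff_subset) a4 (by rw [card_insert_of_notMem a5]; omega) (fun t ht => ?_) hf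
      (avoid_rest hfU iS fun t ht h => (mem_sdiff.1 (i1 ht)).2 h))
    rcases mem_insert.1 ht with rfl | ht
    · have := hall s1 t1
      have := hev s1 t1
      unfold dd at this
      rcases e1 with rfl | rfl <;> omega
    · exact call _ (sdiff_subset.trans sdiff_subset) t ht
  by_cases hm : MonoOff G c U Y 2 γ
  · exact Or.inr ⟨2, τ, γ, Y, rfl, le_rfl, hτ, by omega, fun _ _ => y1, hm⟩
  · left
    simp only [MonoOff, not_forall, not_not] at hm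
    obtain ⟨x, hx, y, hy, x1, x2, hb⟩ := hm
    refine y2 (x, y) hb (insert_subset hx (singleton_subset_iff.2 hy)) fun z hz => ?_
    rcases mem_ev.1 hz with rfl | rfl <;> assumption

end Pool.Agent.Lib.MP_22c8d1_co
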