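import Pool.Agent.Lib.MP_22c8d1_co.Group3

set_option autoImplicit false
open Finset
open scoped Classical

namespace Pool.Agent.Lib.MP_22c8d1_co

variable {V : Type*} {G : SimpleGraph V}

theorem thmG {c : V → V → ℤ} (hc : ∀ x y, c x y = c y x) (g : ℕ) : 1 ≤ g →
    ∀ (U : Finset V) (k : ℤ), (g : ℤ) ≤ k → Dense G U k g →
      Cover G c U k g ∨ OutM G c U k g ∨ OutN G c U g := by
  induction g using Nat.strong_induction_on with
  | _ g ih =>
  intro hg U k hk hD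
  have hc' : ∀ x y, c x y % g = c y x % g := fun x y => by rw [hc]
  by_cases hs : Sys G.Adj (fun x y => c x y % g) U k g
  swap
  · refine Or.inr (Or.inl ⟨?_, fun h2 => ?_⟩)
    · obtain ⟨γ, M, m1, m2, m3⟩ := (thmC hc' (by omega) hk U hD).resolve_left hs
      exact ⟨γ, M, m1, m3, fun e he => by rw [← m2 e he]; exact Int.dvd_self_sub_emod⟩
    · obtain ⟨γ, h⟩ := (thmC' hc' U g (by omega) hk h2 hD).resolve_left hs
      exact ⟨γ, fun M hM => h M ⟨fun e he => ⟨(hM.1 e he).1.1, (hM.1 e he).2⟩, hM.2⟩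
        fun e he h' => (hM.1 e he).1.2 (by rw [← h']; exact Int.dvd_self_sub_emod)⟩
  obtain ⟨S, hS, hSk, hp⟩ := hs
  have hp' : g ≤ (S.filter (fun s => ¬ (g : ℤ) ∣ dd c s)).card + 1 := by
    have := card_le_card (s := S.filter (fun s => c s.1.1 s.1.2 % g ≠ c s.2.1 s.2.2 % g))
      (t := S.filter (fun s => ¬ (g : ℤ) ∣ dd c s)) (monotone_filter_right _
        fun s _ h h' => h (Int.modEq_iff_dvd.2 (by simpa only [dd] using h')))
    simp only at hp
    omega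
  set D := (range (g + 1)).filter (fun y => y ∣ g ∧ 2 ≤ y ∧
    (S.filter (fun s => ¬ (y : ℤ) ∣ dd c s)).card + 2 ≤ y) with hDdef
  have nD : ∀ y, y ∣ g → 2 ≤ y → y ∉ D →
      y ≤ (S.filter (fun s => ¬ (y : ℤ) ∣ dd c s)).card + 1 := by
    intro y y1 y2 y3
    by_contra h
    exact y3 (mem_filter.2 ⟨mem_range.2 (Nat.lt_succ_of_le (Nat.le_of_dvd hg y1)), y1, y2, by omega⟩)
  rcases D.eq_empty_or_nonempty with hE | hE
  · left
    obtain ⟨I, i1, -, i3⟩ := gen_exists c (x := 1) le_rfl hg S (fun _ _ => by simp)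
      (fun y y1 y2 => by rw [one_mul]; exact nD y y1 y2 (by simp [hE]))
    have cR := card_sdiff_add_card_eq_card i1
    have := cover_step (hS.sub i1) i3 (k := k)
      (cover_one (hS.rest i1).first.1 (by rw [(hS.rest i1).first.2]; omega))
    simpa using this
  obtain ⟨x, hx, hmax⟩ := exists_max_image D id hE
  obtain ⟨-, ⟨τ, hτ⟩, x2, x3⟩ := mem_filter.1 hx
  have τ0 : τ ≠ 0 := by rintro rfl; omega
  have τ1 : τ ≠ 1 := by rintro rfl; rw [mul_one] at hτ; subst hτ; omega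
  have τ2 : 2 ≤ τ := by omega
  have xg : x < g := by nlinarith
  have hbig : ∀ y : ℕ, y ∣ τ → 2 ≤ y →
      x * y ≤ (S.filter (fun s => ¬ ((x * y : ℕ) : ℤ) ∣ dd c s)).card + 1 := by
    intro y y1 y2
    refine nD _ (hτ ▸ Nat.mul_dvd_mul_left x y1) (by nlinarith) fun h => ?_
    have := hmax _ h
    simp only [id] at this
    nlinarith
  have IH := ih x xg (by omega)
  have e : (g : ℤ) = x * τ := by exact_mod_cast hτ
  rw [e] at hk hD
  suffices h : Cover G c U k (x * τ) ∨ OutN G c U (x * τ) by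
    rw [← e, ← hτ] at h
    exact h.imp_right Or.inr
  by_cases h2 : x = 2
  · subst h2
    have hev : ∀ s ∈ S, (2 : ℤ) ∣ dd c s := by
      intro s hs
      by_contra h
      have : 0 < (S.filter (fun s => ¬ ((2 : ℕ) : ℤ) ∣ dd c s)).card :=
        card_pos.2 ⟨s, mem_filter.2 ⟨hs, h⟩⟩
      omega
    by_cases hq : ∃ Q ∈ S, Disjoint (ev Q.1) (ev Q.2)
    · obtain ⟨Q, q1, q2⟩ := hq
      exact two_quad hc τ2 hk hS hSk hev hbig q1 q2
    · push Not at hq
      exact two_noquad τ2 hk hD IH hS hSk hev hbig hq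
  · exact step_big (by omega) τ2 hk hD IH hS hSk x3 hbig

theorem thmZ (g : ℕ) : 1 ≤ g → ∀ (c : V → V → ℤ), (∀ x y, c x y = c y x) →
    ∀ (U : Finset V) (k : ℤ), (g : ℤ) ≤ k → (g : ℤ) ∣ k → Dense G U k g →
      ∃ M, IsM G.Adj U M ∧ (M.card : ℤ) = k ∧ (g : ℤ) ∣ ∑ e ∈ M, c e.1 e.2 := by
  induction g using Nat.strong_induction_on with
  | _ g ih =>
  intro hg c hc U k hk hdvd hD
  rcases thmG hc g hg U k hk hD with h | ⟨⟨γ, M, m1, m2, m3⟩, -⟩ |
    ⟨ι, m, γ, Y, n1, n2, n3, n4, -, n6⟩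
  · obtain ⟨M, m1, m2, m3⟩ := h 0
    exact ⟨M, m1, m2, by simpa using m3⟩
  · refine ⟨M, m1, m2, ?_⟩
    have := sum_mono m3
    rw [m2] at this
    have h2 := dvd_add this (hdvd.mul_right γ)
    simpa using h2
  · have e : (g : ℤ) = ι * m := by exact_mod_cast n1
    have mg : m < g := by nlinarith
    obtain ⟨M, m1, m2, m3⟩ := ih m mg (by omega) (fun x y => (c x y - γ) / ι)
      (fun x y => by rw [hc]) (U \ Y) k (by omega) (Dvd.dvd.trans ⟨ι, by rw [e]; ring⟩ hdvd)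
      (hD.sdiff _ (by omega) le_rfl (by omega))
    refine ⟨M, m1.sup sdiff_subset, m2, ?_⟩
    have h1 : ∑ e ∈ M, c e.1 e.2 = ι * ∑ e ∈ M, (c e.1 e.2 - γ) / ι + k * γ := by
      rw [mul_sum, ← m2, ← nsmul_eq_mul, ← sum_const, ← sum_add_distrib]
      refine sum_congr rfl fun x hx => ?_
      have a1 := mem_sdiff.1 ((m1.1 x hx).2 (show x.1 ∈ ev x by simp [ev]))
      have a2 := mem_sdiff.1 ((m1.1 x hx).2 (show x.2 ∈ ev x by simp [ev]))
      have : (ι : ℤ) ∣ c x.1 x.2 - γ := by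
        by_contra h
        exact n6 _ a1.1 _ a2.1 a1.2 a2.2 ⟨(m1.1 x hx).1, h⟩
      rw [Int.mul_ediv_cancel' this]; ring
    rw [h1]
    exact dvd_add (e ▸ mul_dvd_mul_left _ m3) (hdvd.mul_right γ)

end Pool.Agent.Lib.MP_22c8d1_co
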