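import Pool.Agent.Lib.MP_22c8d1_co.Sys

set_option autoImplicit false
open Finset
open scoped Classical

namespace Pool.Agent.Lib.MP_22c8d1_co

variable {V α : Type*}

lemma IsM.mono {A : V → V → Prop} {U U' : Finset V} {M M' : Finset (V × V)} (h : IsM A U M)
    (hM : M' ⊆ M) (hU : ∀ e ∈ M', ev e ⊆ U') : IsM A U' M' :=
  ⟨fun e he => ⟨(h.1 e (hM he)).1, hU e he⟩, h.2.mono hM⟩

lemma IsM.sub {A : V → V → Prop} {U : Finset V} {M M' : Finset (V × V)} (h : IsM A U M)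
    (hM : M' ⊆ M) : IsM A U M' := h.mono hM fun e he => (h.1 e (hM he)).2

lemma IsM.sup {A : V → V → Prop} {U U' : Finset V} {M : Finset (V × V)} (h : IsM A U M)
    (hU : U ⊆ U') : IsM A U' M := h.mono Subset.rfl fun e he => (h.1 e he).2.trans hU

lemma IsS.sup {A : V → V → Prop} {U U' : Finset V} {S : Finset ((V × V) × (V × V))}
    (h : IsS A U S) (hU : U ⊆ U') : IsS A U' S :=
  ⟨fun s hs => ⟨(h.1 s hs).1, (h.1 s hs).2.1, (h.1 s hs).2.2.trans hU⟩, h.2⟩

lemma Sys.sup {A : V → V → Prop} {col : V → V → α} {U U' : Finset V} {k l : ℤ}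
    (h : Sys A col U k l) (hU : U ⊆ U') : Sys A col U' k l := by
  obtain ⟨S, h1, h2⟩ := h
  exact ⟨S, h1.sup hU, h2⟩

lemma ev_other {e : V × V} {s : V} (hs : s ∈ ev e) {A : V → V → Prop}
    (hA : ∀ x y, A x y → A y x) (he : A e.1 e.2) {col : V → V → α}
    (hc : ∀ x y, col x y = col y x) :
    ∃ o, A s o ∧ col s o = col e.1 e.2 ∧ ∀ z, z ∈ ev e ↔ z = s ∨ z = o := by
  rcases mem_ev.1 hs with rfl | rfl
  · exact ⟨e.2, he, rfl, fun z => mem_ev⟩
  · exact ⟨e.1, hA _ _ he, hc _ _, fun z => by rw [mem_ev, or_comm]⟩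

namespace Ctx
variable {C : Ctx V α}

theorem init_pack {M N : Finset (V × V)} (hM : IsM C.G.Adj C.U M) (hN : IsM C.G.Adj C.U N)
    (cM : ∀ e ∈ M, C.R (C.col e.1 e.2)) (cN : ∀ e ∈ N, ¬ C.R (C.col e.1 e.2)) :
    ∃ F, C.Pk F ∧ (N.card : ℤ) ≤ ∑ s ∈ F, C.bet s ∧ (M.card : ℤ) - N.card ≤ ∑ s ∈ F, C.rho s := by
  set W := VV ev N with hW
  let good : V × V → Prop := fun f => ∃ m ∈ M, ∃ s ∈ ev m, s ∈ ev f ∧ ∃ z ∈ ev m, z ∉ W
  let xv : V × V → Finset V := fun f =>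
    ev f ∪ C.U.filter (fun z => z ∉ W ∧ ∃ m ∈ M, z ∈ ev m ∧ ∃ s ∈ ev m, s ∈ ev f)
  have hs := fun x y => @SimpleGraph.Adj.symm V C.G x y
  have ex : ∀ f, ∃ Q, f ∈ N → C.Val Q ∧ C.bet Q = 1 ∧ (good f → C.rho Q = 1) ∧ tv Q ⊆ xv f := by
    intro f
    by_cases hf : f ∈ N
    swap
    · exact ⟨(f.1, f.2, f.1), fun h => absurd h hf⟩
    by_cases g : good f
    · obtain ⟨m, hm, s, s1, s2, z, z1, z2⟩ := g
      obtain ⟨o, o1, o2, o3⟩ := ev_other s1 hs (hM.1 m hm).1 C.hc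
      obtain ⟨p, p1, p2, p3⟩ := ev_other s2 hs (hN.1 f hf).1 C.hc
      have zo : z = o := ((o3 z).1 z1).resolve_left (fun e => z2 (mem_VV.2 ⟨f, hf, e ▸ s2⟩))
      subst zo
      obtain ⟨a1, -, a3, a4, -⟩ := ch_RB (C := C) (Q := (z, s, p)) ⟨o1.symm, p1, fun e => by
        have e' : C.R (C.col z s) = C.R (C.col s p) := e
        rw [C.hc z s, o2, p2] at e'
        exact cN f hf (cast e' (cM m hm))⟩
      refine ⟨_, fun _ => ⟨a1, a4, fun _ => a3, fun w hw => ?_⟩⟩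
      rcases mem_tv.1 hw with rfl | rfl | rfl
      · exact mem_union_right _ (mem_filter.2 ⟨(hM.1 m hm).2 z1, z2, m, hm, z1, s, s1, s2⟩)
      · exact mem_union_left _ s2
      · exact mem_union_left _ ((p3 _).2 (Or.inr rfl))
    · refine ⟨(f.1, f.2, f.1), fun _ => ⟨val_sg (hN.1 f hf).1, ?_, fun h => absurd h g, ?_⟩⟩
      · rw [bet_sg, if_neg (cN f hf)]
      · intro w hw
        exact mem_union_left _ (mem_ev.2 (mem_sg.1 hw))
  choose Q hQ using ex
  have pX : PD xv N := by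
    refine PD_iff.2 fun f hf f' hf' z hz hz' => ?_
    rcases mem_union.1 hz with hz | hz <;> rcases mem_union.1 hz' with hz' | hz'
    · exact hN.2.eq_of_mem hf hf' hz hz'
    · exact absurd (mem_VV.2 ⟨f, hf, hz⟩) (mem_filter.1 hz').2.1
    · exact absurd (mem_VV.2 ⟨f', hf', hz'⟩) (mem_filter.1 hz).2.1
    · obtain ⟨-, z1, m, hm, z2, s, s1, s2⟩ := mem_filter.1 hz
      obtain ⟨-, -, m', hm', z2', s', s1', s2'⟩ := mem_filter.1 hz'
      have := hM.2.eq_of_mem hm hm' z2 z2'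
      subst this
      obtain ⟨o, -, -, o3⟩ := ev_other z2 hs (hM.1 m hm).1 C.hc
      have e1 := ((o3 s).1 s1).resolve_left (fun e => z1 (mem_VV.2 ⟨f, hf, e ▸ s2⟩))
      have e2 := ((o3 s').1 s1').resolve_left (fun e => z1 (mem_VV.2 ⟨f', hf', e ▸ s2'⟩))
      exact hN.2.eq_of_mem hf hf' s2 (by rw [e1, ← e2]; exact s2')
  set M0 := M.filter (fun m => ∀ z ∈ ev m, z ∉ W) with hM0
  let sg : V × V → V × V × V := fun m => (m.1, m.2, m.1)
  have sgs : ∀ m ∈ M0, tv (sg m) ⊆ ev m := fun m _ z hz => mem_ev.2 (mem_sg.1 hz)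
  have pM0 : PD ev M0 := hM.2.mono (filter_subset _ _)
  have i1 := pX.injOn Q (fun f hf => (hQ f hf).2.2.2) (fun f _ => tv_nonempty _)
  have i2 := pM0.injOn sg sgs (fun f _ => tv_nonempty _)
  have hd : ∀ s ∈ N.image Q, ∀ t ∈ M0.image sg, Disjoint (tv s) (tv t) := by
    intro s hs t ht
    obtain ⟨f, hf, rfl⟩ := mem_image.1 hs
    obtain ⟨m, hm, rfl⟩ := mem_image.1 ht
    refine Finset.disjoint_left.2 fun z hz hz' => ?_
    have zm := sgs m hm hz'
    obtain ⟨m1, m2⟩ := mem_filter.1 hm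
    rcases mem_union.1 ((hQ f hf).2.2.2 hz) with h | h
    · exact m2 z zm (mem_VV.2 ⟨f, hf, h⟩)
    · obtain ⟨-, -, m', hm', z2, s, s1, s2⟩ := mem_filter.1 h
      exact m2 s (hM.2.eq_of_mem hm' m1 z2 zm ▸ s1) (mem_VV.2 ⟨f, hf, s2⟩)
  have hd' := disjoint_of_vs (fun s _ => tv_nonempty s) hd
  refine ⟨N.image Q ∪ M0.image sg, ⟨fun s hs => ?_, (pX.image Q (fun f hf => (hQ f hf).2.2.2)).union
    (pM0.image sg sgs) hd⟩, ?_, ?_⟩
  · rcases mem_union.1 hs with hs | hs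
    · obtain ⟨f, hf, rfl⟩ := mem_image.1 hs
      exact ⟨(hQ f hf).1, (hQ f hf).2.2.2.trans (union_subset (hN.1 f hf).2 (filter_subset _ _))⟩
    · obtain ⟨m, hm, rfl⟩ := mem_image.1 hs
      exact ⟨val_sg (hM.1 m (mem_filter.1 hm).1).1, (sgs m hm).trans (hM.1 m (mem_filter.1 hm).1).2⟩
  · rw [sum_union hd', sum_image i1, sum_congr rfl (fun f hf => (hQ f hf).2.1)]
    have := sum_nonneg (s := M0.image sg) (fun s _ => C.bet_nonneg s)
    simpa using this
  · rw [sum_union hd', sum_image i1, sum_image i2]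
    have a1 : ∑ m ∈ M0, C.rho (sg m) = M0.card := by
      rw [sum_congr rfl (fun m hm => (rho_sg _ _).trans (if_pos (cM m (mem_filter.1 hm).1)))]
      rw [sum_const, nsmul_eq_mul, mul_one]
    have a2 : ((N.filter good).card : ℤ) ≤ ∑ f ∈ N, C.rho (Q f) := by
      rw [card_filter]; push_cast
      refine sum_le_sum fun f hf => ?_
      split_ifs with g
      · rw [(hQ f hf).2.2.1 g]
      · exact rho_nonneg _
    have cV : ∀ N' : Finset (V × V), (VV ev N').card ≤ 2 * N'.card := fun N' => by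
      refine card_VV_le.trans ?_
      have := sum_le_card_nsmul N' (fun p => (ev p).card) 2 (fun p _ => card_ev_le p)
      simpa [mul_comm] using this
    have a3 : 2 * M.card ≤ 2 * M0.card + (((VV ev M).filter (· ∈ W)).card
        + ((VV ev M).filter (· ∈ VV ev (N.filter good))).card) := by
      rw [hM.2.card_filter, hM.2.card_filter, hM0, card_filter, mul_sum, ← sum_add_distrib,
        ← sum_add_distrib, mul_comm]
      refine card_nsmul_le_sum M _ 2 fun m hm => ?_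
      split_ifs with h0
      · omega
      · push Not at h0
        obtain ⟨s, s1, s2⟩ := h0
        obtain ⟨o, o1, -, o3⟩ := ev_other s1 hs (hM.1 m hm).1 C.hc
        by_cases ho : o ∈ W
        · have : 1 < ((ev m).filter (· ∈ W)).card := one_lt_card.2 ⟨s, mem_filter.2 ⟨s1, s2⟩, o,
            mem_filter.2 ⟨(o3 o).2 (Or.inr rfl), ho⟩, o1.ne⟩
          omega
        · obtain ⟨f, hf, s3⟩ := mem_VV.1 s2
          have b1 : 0 < ((ev m).filter (· ∈ W)).card := card_pos.2 ⟨s, mem_filter.2 ⟨s1, s2⟩⟩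
          have b2 : 0 < ((ev m).filter (· ∈ VV ev (N.filter good))).card :=
            card_pos.2 ⟨s, mem_filter.2 ⟨s1, mem_VV.2 ⟨f, mem_filter.2
              ⟨hf, m, hm, s, s1, s3, o, (o3 o).2 (Or.inr rfl), ho⟩, s3⟩⟩⟩
          omega
    have a4 : ((VV ev M).filter (· ∈ W)).card ≤ 2 * N.card :=
      (card_le_card fun _ h => (mem_filter.1 h).2).trans (cV N)
    have a5 : ((VV ev M).filter (· ∈ VV ev (N.filter good))).card ≤ 2 * (N.filter good).card :=
      (card_le_card fun _ h => (mem_filter.1 h).2).trans (cV _)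
    omega

end Ctx

end Pool.Agent.Lib.MP_22c8d1_co
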