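import Mathlib

set_option autoImplicit false
open Finset
open scoped Classical

namespace Pool.Agent.Lib.MP_22c8d1_co

variable {σ : Type*}

/-- `r` is a subset sum modulo `τ` -/
def Cov (d : σ → ℤ) (τ : ℤ) (I : Finset σ) (r : ℤ) : Prop := ∃ J ⊆ I, τ ∣ ∑ i ∈ J, d i - r

lemma Cov.congr {d : σ → ℤ} {τ : ℤ} {I : Finset σ} {r r' : ℤ} (h : Cov d τ I r)
    (hr : τ ∣ r - r') : Cov d τ I r' := by
  obtain ⟨J, h1, h2⟩ := h
  exact ⟨J, h1, by have := dvd_add h2 hr; simpa using this⟩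

/-- the stabiliser of the set of subset sums -/
def stab (d : σ → ℤ) (τ : ℕ) (hτ : 1 ≤ τ) (I : Finset σ) : AddSubgroup ℤ where
  carrier := {h | ∀ r, Cov d τ I r → Cov d τ I (r + h)}
  zero_mem' := fun r hr => by simpa using hr
  add_mem' := fun {a b} ha hb r hr => by rw [← add_assoc]; exact hb _ (ha r hr)
  neg_mem' := fun {a} ha r hr => by
    have key : ∀ n : ℕ, Cov d τ I (r + n * a) := by
      intro n
      induction n with
      | zero => simpa using hr
      | succ n ih => have := ha _ ih; push_cast; rwa [add_mul, one_mul, ← add_assoc]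
    refine (key (τ - 1)).congr ⟨a, ?_⟩
    rw [Nat.cast_sub hτ]; ring

theorem kneser_lite (d : σ → ℤ) (τ : ℕ) : 1 ≤ τ → ∀ T : Finset σ,
    (∀ y : ℕ, y ∣ τ → 2 ≤ y → y ≤ (T.filter (fun i => ¬ (y : ℤ) ∣ d i)).card + 1) →
    ∃ I ⊆ T, I.card + 1 ≤ τ ∧ ∀ r, Cov d τ I r := by
  induction τ using Nat.strong_induction_on with
  | _ τ ih =>
  intro hτ T hT
  let Sg : Finset σ → Finset ℕ := fun I => (range τ).filter (fun r => Cov d τ I r)
  have hmod : ∀ I r, Cov d τ I r ↔ (r % τ).toNat ∈ Sg I := by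
    intro I r
    have h0 : 0 ≤ r % τ := Int.emod_nonneg _ (by omega)
    have h1 : r % τ < τ := Int.emod_lt_of_pos _ (by omega)
    simp only [Sg, mem_filter, mem_range]
    rw [Int.toNat_of_nonneg h0]
    constructor
    · exact fun h => ⟨by omega, h.congr (Int.dvd_self_sub_emod)⟩
    · exact fun h => h.2.congr (dvd_sub_comm.1 Int.dvd_self_sub_emod)
  have c0 : ∀ I, Cov d τ I 0 := fun I => ⟨∅, empty_subset _, by simp⟩
  obtain ⟨I, hI, hmax⟩ := exists_max_image (T.powerset.filter (fun I => I.card + 1 ≤ (Sg I).card))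
    card ⟨∅, mem_filter.2 ⟨empty_mem_powerset _, card_pos.2 ⟨_, (hmod _ _).1 (c0 ∅)⟩⟩⟩
  obtain ⟨hI1, hI2⟩ := mem_filter.1 hI
  have hIT := mem_powerset.1 hI1
  have hle : (Sg I).card ≤ τ := (card_filter_le _ _).trans (card_range τ).le
  refine ⟨I, hIT, by omega, fun r0 => ?_⟩
  by_contra hr0
  obtain ⟨a, ha⟩ := Int.subgroup_cyclic (stab d τ hτ I)
  have hmem : ∀ h : ℤ, h ∈ stab d τ hτ I ↔ (a.natAbs : ℤ) ∣ h := by
    intro h
    rw [ha, AddSubgroup.mem_closure_singleton, Int.natAbs_dvd]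
    constructor
    · rintro ⟨n, rfl⟩; exact ⟨n, by simp [mul_comm]⟩
    · rintro ⟨n, rfl⟩; exact ⟨n, by simp [mul_comm]⟩
  set y := a.natAbs with hy
  have y1 : y ∣ τ := by
    have : (τ : ℤ) ∈ stab d τ hτ I := fun r hr => hr.congr ⟨-1, by ring⟩
    exact_mod_cast (hmem _).1 this
  have y0 : y ≠ 0 := fun e => by rw [e] at y1; have := Nat.eq_zero_of_zero_dvd y1; omega
  have y2 : y ≠ 1 := fun e => by
    have : r0 ∈ stab d τ hτ I := (hmem _).2 (by rw [e]; simp)
    exact hr0 (by simpa using this 0 (c0 I))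
  have out : ∀ i ∈ T, ¬ (y : ℤ) ∣ d i → i ∈ I := by
    intro i hi hd
    by_contra hiI
    have : ¬ ∀ r, Cov d τ I r → Cov d τ I (r + d i) := fun h => hd ((hmem _).1 h)
    push Not at this
    obtain ⟨r, ⟨J, j1, j2⟩, r2⟩ := this
    have hs : Sg I ⊂ Sg (insert i I) := by
      refine ⟨fun x hx => mem_filter.2 ⟨(mem_filter.1 hx).1, ?_⟩, fun h => r2 ?_⟩
      · obtain ⟨J', a1, a2⟩ := (mem_filter.1 hx).2
        exact ⟨J', a1.trans (subset_insert _ _), a2⟩
      · refine (hmod _ _).2 (h ((hmod _ _).1 ⟨insert i J, insert_subset_insert _ j1, ?_⟩))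
        rw [sum_insert (fun h' => hiI (j1 h'))]
        have e : d i + ∑ x ∈ J, d x - (r + d i) = ∑ x ∈ J, d x - r := by ring
        rwa [e]
    have h1 := card_lt_card hs
    have h2 := hmax (insert i I) (mem_filter.2 ⟨mem_powerset.2 (insert_subset hi hIT), by
      rw [card_insert_of_notMem hiI]; omega⟩)
    rw [card_insert_of_notMem hiI] at h2
    omega
  have sub : ∀ y' : ℕ, y' ∣ y → T.filter (fun i => ¬ (y' : ℤ) ∣ d i)
      ⊆ I.filter (fun i => ¬ (y' : ℤ) ∣ d i) := fun y' h i hi =>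
    mem_filter.2 ⟨out i (mem_filter.1 hi).1
      (fun h' => (mem_filter.1 hi).2 ((Int.natCast_dvd_natCast.2 h).trans h')), (mem_filter.1 hi).2⟩
  rcases (Nat.le_of_dvd (by omega) y1).eq_or_lt with e | e
  · have h1 := hT y y1 (by omega)
    have h2 := (card_le_card (sub y dvd_rfl)).trans (card_filter_le _ _)
    have h3 : Sg I = range τ := eq_of_subset_of_card_le (filter_subset _ _) (by
      rw [card_range]; omega)
    refine hr0 ((hmod _ _).2 ?_)
    have h1 : r0 % τ < τ := Int.emod_lt_of_pos _ (by omega)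
    rw [h3, mem_range]; omega
  · obtain ⟨I', i1, -, i3⟩ := ih y e (by omega) I (fun y' h1 h2 =>
      (hT y' (h1.trans y1) h2).trans (Nat.add_le_add_right (card_le_card (sub y' h1)) 1))
    obtain ⟨J, j1, j2⟩ := i3 r0
    have := (hmem _).2 (dvd_sub_comm.1 j2) (∑ i ∈ J, d i) ⟨J, j1.trans i1, by simp⟩
    exact hr0 (by simpa using this)

end Pool.Agent.Lib.MP_22c8d1_co
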