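import Pool.Agent.Lib.MP_22c8d1_co.Moves

set_option autoImplicit false
open Finset
open scoped Classical

namespace Pool.Agent.Lib.MP_22c8d1_co

variable {V α : Type*}

lemma low2 {G : SimpleGraph V} {U L1 L2 : Finset V} {k l κ e : ℤ} (hD : Dense G U k l)
    (h1 : L1 ⊆ U) (h2 : L2 ⊆ U) (hd : Disjoint L1 L2) (hκ1 : l - 1 ≤ κ) (hκ2 : κ ≤ k + l - 2)
    (he : 0 ≤ e) (c1 : (U.card : ℤ) - 2 * (k + l) + 3 + κ - e ≤ L1.card) (c2 : 2 * e ≤ L2.card)
    (d1 : ∀ x ∈ L1, (deg G U x : ℤ) ≤ κ) (d2 : ∀ x ∈ L2, (deg G U x : ℤ) ≤ k + l - 3 - e) :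
    False := by
  obtain ⟨a1, a2, a3⟩ := hD
  set n : ℤ := (U.card : ℤ) with hn
  have hB := two_B (i := κ - l + 1) (by omega) (by omega) a2 a3
  set h : ℤ := n - 2 * (k + l) + 3 + κ with hh
  have h0 : 1 ≤ h := by omega
  obtain ⟨e', he1, he2, he3, he4⟩ : ∃ e' : ℤ, 0 ≤ e' ∧ e' ≤ e ∧ e' ≤ h ∧ h - e' ≤ L1.card := by
    by_cases hc : e ≤ h
    · exact ⟨e, he, le_rfl, hc, c1⟩
    · exact ⟨h, by omega, by omega, le_rfl, by omega⟩
  obtain ⟨M1, m1, m1c⟩ := exists_subset_card_eq (s := L1) (n := (h - e').toNat) (by omega)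
  obtain ⟨M2, m2, m2c⟩ := exists_subset_card_eq (s := L2) (n := (2 * e').toNat) (by omega)
  have hdM : Disjoint M1 M2 := disjoint_of_subset_left m1 (disjoint_of_subset_right m2 hd)
  have hl := low_set (G := G) (L := M1 ∪ M2) (union_subset (m1.trans h1) (m2.trans h2))
  rw [sum_union hdM, card_union_of_disjoint hdM] at hl
  have s1 : (h - e') * (n - 1 - κ) ≤ ∑ x ∈ M1, (md G U x : ℤ) := by
    have := card_nsmul_le_sum M1 (fun x => (md G U x : ℤ)) (n - 1 - κ) (fun x hx => by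
      have := deg_add_md (G := G) (h1 (m1 hx)); have := d1 x (m1 hx); omega)
    rw [nsmul_eq_mul, m1c, Int.toNat_of_nonneg (by omega)] at this
    exact this
  have s2 : (2 * e') * (n - (k + l) + 2 + e') ≤ ∑ x ∈ M2, (md G U x : ℤ) := by
    have := card_nsmul_le_sum M2 (fun x => (md G U x : ℤ)) (n - (k + l) + 2 + e') (fun x hx => by
      have := deg_add_md (G := G) (h2 (m2 hx)); have := d2 x (m2 hx); omega)
    rw [nsmul_eq_mul, m2c, Int.toNat_of_nonneg (by omega)] at this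
    exact this
  have c3 : ((M1.card + M2.card : ℕ) : ℤ) = h + e' := by push_cast; omega
  rw [c3] at hl
  have e1 : n - 2 * k - l + 2 + (κ - l + 1) = h := by omega
  rw [e1] at hB
  have e2 : n = h + 2 * (k + l) - 3 - κ := by omega
  rw [e2] at hB s1 s2
  nlinarith [mul_nonneg he1 he1]

lemma deg_add_le {G : SimpleGraph V} {U X : Finset V} {v : V} (hX : X ⊆ U)
    (h : ∀ y ∈ X, ¬ G.Adj v y) : deg G U v + X.card ≤ U.card := by
  unfold deg
  rw [← card_union_of_disjoint (Finset.disjoint_left.2 fun y hy hy' => h y hy' (mem_filter.1 hy).2)]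
  exact card_le_card (union_subset (filter_subset _ _) hX)

namespace Ctx
variable {C : Ctx V α}

variable (C) in
noncomputable def SwS (F : Finset (V × V × V)) (u : V) : Finset V := (VV tv F).filter (C.Sw F u)

variable (C) in
noncomputable def Ex (F : Finset (V × V × V)) (u : V) : Finset (V × V × V) :=
  F.filter (fun P => (((tv P).filter (C.Sw F u)).card : ℤ) + ch P <
    ((tv P).filter (C.G.Adj u)).card)

variable (C) in
noncomputable def NS (F : Finset (V × V × V)) (u : V) : Finset V :=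
  (VV tv (C.Ex F u)).filter (fun y => ¬ C.Sw F u y)

lemma Opt.ex_spec {F : Finset (V × V × V)} (h : C.Opt F) {u : V} (hu : u ∈ C.Free F)
    {P : V × V × V} (hP : P ∈ C.Ex F u) :
    P ∈ F ∧ ch P = 1 ∧ ((tv P).filter (C.Sw F u)).card = 1 ∧ (tv P).card = 3 ∧ C.XC P u ∧
      ∀ z ∈ tv P, C.G.Adj u z := by
  obtain ⟨hPF, hlt⟩ := mem_filter.1 hP
  have hc := (h.1.1.1 P hPF).1.card
  have hle := card_filter_le (tv P) (C.G.Adj u)
  rcases h.slot_bound hPF hu with h1 | ⟨h1, h2, h3⟩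
  · omega
  · refine ⟨hPF, h1, by omega, by omega, h3, ?_⟩
    have : (tv P).filter (C.G.Adj u) = tv P := eq_of_subset_of_card_le (filter_subset _ _) (by omega)
    intro z hz
    rw [← this] at hz
    exact (mem_filter.1 hz).2

lemma Opt.deg_le {F : Finset (V × V × V)} (h : C.Opt F) {u v : V} (hu : u ∈ C.Free F)
    (hv : v ∈ C.Free F) (huv : u ≠ v) :
    (deg C.G C.U u : ℤ) ≤ (C.SwS F u).card + ∑ s ∈ F, ch s + (C.Ex F u).card - (C.Ex F v).card := by
  have e1 : C.U.filter (C.G.Adj u) = (VV tv F).filter (C.G.Adj u) := by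
    ext z; simp only [mem_filter]
    constructor
    · rintro ⟨hz, ha⟩
      refine ⟨?_, ha⟩
      by_contra hc
      exact h.free_nonadj hu (mem_sdiff.2 ⟨hz, hc⟩) ha
    · rintro ⟨hz, ha⟩; exact ⟨h.1.1.VV_sub hz, ha⟩
  have e2 : ∀ w, ((C.Ex F w).card : ℤ) = ∑ P ∈ F, if P ∈ C.Ex F w then 1 else 0 := by
    intro w
    have hs : C.Ex F w ⊆ F := filter_subset _ _
    rw [sum_ite_mem, inter_eq_right.2 hs]; simp
  unfold deg SwS
  rw [e1, h.1.1.2.card_filter, h.1.1.2.card_filter, e2, e2]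
  push_cast
  rw [← sum_add_distrib, ← sum_add_distrib, ← sum_sub_distrib]
  refine sum_le_sum fun P hP => ?_
  by_cases c1 : P ∈ C.Ex F v
  · obtain ⟨-, b1, -, -, b4, -⟩ := h.ex_spec hv c1
    have : ((tv P).filter (C.G.Adj u)).card = 0 := by
      rw [card_eq_zero, filter_eq_empty_iff]
      exact fun z hz => b4 F h hP hv u hu huv z hz
    rw [this, b1, if_pos c1]
    split_ifs <;> omega
  · rw [if_neg c1]
    by_cases c2 : P ∈ C.Ex F u
    · obtain ⟨-, b1, b2, b3, -, -⟩ := h.ex_spec hu c2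
      have hle := card_filter_le (tv P) (C.G.Adj u)
      rw [if_pos c2]; omega
    · rw [if_neg c2]
      have := mt (fun x => mem_filter.2 ⟨hP, x⟩) c2
      omega

lemma Opt.ns_card {F : Finset (V × V × V)} (h : C.Opt F) {u : V} (hu : u ∈ C.Free F) :
    2 * (C.Ex F u).card ≤ (C.NS F u).card := by
  unfold NS
  rw [(h.1.1.2.mono (filter_subset _ _) : PD tv (C.Ex F u)).card_filter, mul_comm]
  refine card_nsmul_le_sum (C.Ex F u) _ 2 fun P hP => ?_
  obtain ⟨-, -, b2, b3, -, -⟩ := h.ex_spec hu hP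
  have := card_filter_add_card_filter_not (s := tv P) (C.Sw F u)
  omega

lemma core_K {k l : ℤ} (hD : Dense C.G C.U k l) (hmin : ∀ x ∈ C.U, l - 1 ≤ deg C.G C.U x)
    {F : Finset (V × V × V)} (h : C.Opt F) {u v : V} (hu : u ∈ C.Free F) (hv : v ∈ C.Free F)
    (huv : u ≠ v) (hle : deg C.G C.U u ≤ deg C.G C.U v)
    (hw : (F.card : ℤ) + ∑ s ∈ F, ch s ≤ k + l - 2)
    (hmax : ∀ F', C.Opt F' → ∀ x ∈ C.Free F', ∀ y ∈ C.Free F', x ≠ y →
      deg C.G C.U x + deg C.G C.U y ≤ deg C.G C.U u + deg C.G C.U v) : False := by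
  have hn := h.1.1.card_U
  have fU : C.Free F ⊆ C.U := sdiff_subset
  have sU : ∀ w, C.SwS F w ⊆ C.U := fun w => (filter_subset _ _).trans h.1.1.VV_sub
  have nU : C.NS F u ⊆ C.U := by
    intro y hy
    obtain ⟨P, hP, hy⟩ := mem_VV.1 (mem_filter.1 hy).1
    exact (h.1.1.1 P (mem_filter.1 hP).1).2 hy
  have dFS : ∀ w, Disjoint (C.Free F) (C.SwS F w) := fun w =>
    Finset.disjoint_left.2 fun y hy hy' => (mem_filter.1 hy').2.1 hy
  have dFN : Disjoint (C.Free F) (C.NS F u) := Finset.disjoint_left.2 fun y hy hy' => by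
    obtain ⟨P, hP, hy'⟩ := mem_VV.1 (mem_filter.1 hy').1
    exact (mem_Free.1 hy).2 P (mem_filter.1 hP).1 hy'
  have dSN : Disjoint (C.SwS F u) (C.NS F u) :=
    Finset.disjoint_left.2 fun y hy hy' => (mem_filter.1 hy').2 (mem_filter.1 hy).2
  have la : ∀ y ∈ C.Free F, y ≠ v → deg C.G C.U y ≤ deg C.G C.U u := fun y hy hyv => by
    have := hmax F h y hy v hv hyv; omega
  have lb : ∀ y ∈ C.SwS F u, deg C.G C.U y ≤ deg C.G C.U u ∧ ¬ C.G.Adj v y := fun y hy => by
    obtain ⟨y1, F', hF', y2, y3, -⟩ := (mem_filter.1 hy).2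
    have := hmax F' hF' y y2 v (y3 v hv huv.symm) (fun e => y1 (e ▸ hv))
    exact ⟨by omega, hF'.free_nonadj (y3 v hv huv.symm) y2⟩
  have lc : ∀ y ∈ C.SwS F v, deg C.G C.U y ≤ deg C.G C.U v := fun y hy => by
    obtain ⟨y1, F', hF', y2, y3, -⟩ := (mem_filter.1 hy).2
    have := hmax F' hF' y y2 u (y3 u hu huv) (fun e => y1 (e ▸ hu))
    omega
  have ld : ∀ y ∈ C.NS F u, ∀ x, ((x ∈ C.Free F ∧ x ≠ u) ∨ x ∈ C.SwS F v) →
      x ≠ y ∧ ¬ C.G.Adj x y := by
    intro y hy x hx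
    obtain ⟨P, hP, hyP⟩ := mem_VV.1 (mem_filter.1 hy).1
    obtain ⟨b0, -, -, -, b4, b5⟩ := h.ex_spec hu hP
    rcases hx with ⟨x1, x2⟩ | hx
    · exact ⟨fun e => (mem_Free.1 x1).2 P b0 (e ▸ hyP), b4 F h b0 hu x x1 x2 y hyP⟩
    · obtain ⟨x1, F', hF', x2, x3, x4⟩ := (mem_filter.1 hx).2
      have xP : x ∉ tv P := fun hx' => hF'.free_nonadj (x3 u hu huv) x2 (b5 x hx')
      exact ⟨fun e => xP (e ▸ hyP),
        b4 F' hF' (x4 P b0 xP) (x3 u hu huv) x x2 (fun e => x1 (e ▸ hu)) y hyP⟩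
  have du := h.deg_le hu hv huv
  have dv := h.deg_le hv hu huv.symm
  have nc := h.ns_card hu
  have D1 := deg_add_le (G := C.G) (v := v) (X := (C.Free F ∪ C.SwS F u) ∪ C.NS F u)
    (union_subset (union_subset fU (sU u)) nU) (fun y hy => by
      rcases mem_union.1 hy with hy | hy
      · rcases mem_union.1 hy with hy | hy
        · exact h.free_nonadj hv hy
        · exact (lb y hy).2
      · exact (ld y hy v (Or.inl ⟨hv, huv.symm⟩)).2)
  rw [card_union_of_disjoint (disjoint_union_left.2 ⟨dFN, dSN⟩),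
    card_union_of_disjoint (dFS u)] at D1
  have ce : ((C.Free F).erase v).card + 1 = (C.Free F).card := card_erase_add_one hv
  have ce' : ((C.Free F).erase u).card + 1 = (C.Free F).card := card_erase_add_one hu
  have dE : ∀ w z, Disjoint ((C.Free F).erase z) (C.SwS F w) := fun w z =>
    disjoint_of_subset_left (erase_subset _ _) (dFS w)
  have L1U : (C.Free F).erase v ∪ C.SwS F u ⊆ C.U :=
    union_subset ((erase_subset _ _).trans fU) (sU u)
  have L1d : ∀ x ∈ (C.Free F).erase v ∪ C.SwS F u, (deg C.G C.U x : ℤ) ≤ deg C.G C.U u := by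
    intro x hx
    rcases mem_union.1 hx with hx | hx
    · exact_mod_cast la x (mem_erase.1 hx).2 (mem_erase.1 hx).1
    · exact_mod_cast (lb x hx).1
  have L1c := card_union_of_disjoint (dE u v)
  have mu := hmin u (fU hu)
  by_cases c1 : (C.Ex F u).card ≤ (C.Ex F v).card
  · exact low2 (L2 := ∅) (e := 0) hD L1U (empty_subset _) (disjoint_empty_right _) mu (by omega)
      le_rfl (by omega) (by simp) L1d (by simp)
  by_cases c2 : (deg C.G C.U v : ℤ) ≤ k + l - 2
  · have L2c := card_union_of_disjoint (dFS v)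
    refine low2 (L1 := C.Free F ∪ C.SwS F v) (L2 := ∅) (e := 0) hD (union_subset fU (sU v))
      (empty_subset _) (disjoint_empty_right _) (by omega) c2 le_rfl (by omega) (by simp)
      (fun x hx => ?_) (by simp)
    rcases mem_union.1 hx with hx | hx
    · by_cases e : x = v
      · rw [e]
      · have := la x hx e; omega
    · exact_mod_cast lc x hx
  refine low2 (L2 := C.NS F u) (e := (C.Ex F u).card - (C.Ex F v).card) hD L1U nU
    (disjoint_union_left.2 ⟨disjoint_of_subset_left (erase_subset _ _) dFN, dSN⟩) mu (by omega)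
    (by omega) (by omega) (by omega) L1d (fun y hy => ?_)
  have yX : y ∉ (C.Free F).erase u ∪ C.SwS F v := fun hy' => by
    refine (ld y hy y ?_).1 rfl
    rcases mem_union.1 hy' with h' | h'
    · exact Or.inl ⟨(mem_erase.1 h').2, (mem_erase.1 h').1⟩
    · exact Or.inr h'
  have D2 := deg_add_le (G := C.G) (v := y) (X := insert y ((C.Free F).erase u ∪ C.SwS F v))
    (insert_subset (nU hy) (union_subset ((erase_subset _ _).trans fU) (sU v))) (fun x hx => by
      rcases mem_insert.1 hx with rfl | hx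
      · exact C.G.irrefl
      · refine fun a => (ld y hy x ?_).2 a.symm
        rcases mem_union.1 hx with h' | h'
        · exact Or.inl ⟨(mem_erase.1 h').2, (mem_erase.1 h').1⟩
        · exact Or.inr h')
  rw [card_insert_of_notMem yX, card_union_of_disjoint (dE v u)] at D2
  omega

theorem lemmaK {k l : ℤ} (hD : Dense C.G C.U k l) (hmin : ∀ x ∈ C.U, l - 1 ≤ deg C.G C.U x)
    {F0 : Finset (V × V × V)} (h0 : C.Feas F0) :
    ∃ F, C.Opt F ∧ (k + l - 1 ≤ (F.card : ℤ) + ∑ s ∈ F, ch s ∨ (C.Free F).card ≤ 1) := by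
  by_contra hc
  push Not at hc
  obtain ⟨F1, hF1⟩ := exists_opt h0
  obtain ⟨u1, hu1, v1, hv1, huv1⟩ := one_lt_card.1 (hc F1 hF1).2
  obtain ⟨⟨u, v⟩, hp, hmax⟩ := exists_max_image ((C.U ×ˢ C.U).filter
    (fun p => p.1 ≠ p.2 ∧ ∃ F, C.Opt F ∧ p.1 ∈ C.Free F ∧ p.2 ∈ C.Free F))
    (fun p => deg C.G C.U p.1 + deg C.G C.U p.2)
    ⟨(u1, v1), mem_filter.2 ⟨mem_product.2 ⟨(mem_Free.1 hu1).1, (mem_Free.1 hv1).1⟩,
      huv1, F1, hF1, hu1, hv1⟩⟩
  obtain ⟨-, huv, F, hF, hu, hv⟩ := mem_filter.1 hp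
  have hm : ∀ F', C.Opt F' → ∀ x ∈ C.Free F', ∀ y ∈ C.Free F', x ≠ y →
      deg C.G C.U x + deg C.G C.U y ≤ deg C.G C.U u + deg C.G C.U v := fun F' hF' x hx y hy hxy =>
    hmax (x, y) (mem_filter.2 ⟨mem_product.2 ⟨(mem_Free.1 hx).1, (mem_Free.1 hy).1⟩,
      hxy, F', hF', hx, hy⟩)
  have hw := (hc F hF).1
  rcases le_total (deg C.G C.U u) (deg C.G C.U v) with h | h
  · exact core_K hD hmin hF hu hv huv h (by omega) hm
  · exact core_K hD hmin hF hv hu huv.symm h (by omega) (fun F' hF' x hx y hy hxy => by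
      have := hm F' hF' x hx y hy hxy; rw [add_comm (deg C.G C.U (u, v).2)]; exact this)

end Ctx

end Pool.Agent.Lib.MP_22c8d1_co
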