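import Pool.Agent.Lib.MP_22c8d1_co.LemmaK

set_option autoImplicit false
open Finset
open scoped Classical

namespace Pool.Agent.Lib.MP_22c8d1_co

variable {V α : Type*}

lemma PD.sum_VV {σ : Type*} {vs : σ → Finset V} {F : Finset σ} (h : PD vs F) (f : V → ℕ) :
    ∑ x ∈ VV vs F, f x = ∑ s ∈ F, ∑ x ∈ vs s, f x :=
  Finset.sum_biUnion (fun s hs t ht hne => h s hs t ht hne)

lemma numL {t r y j k l m : ℤ} (ht : 0 ≤ t) (hr : 0 ≤ r) (hy : 0 ≤ y) (hj : 1 ≤ j)
    (h1 : j ≤ 3 * t + 2 * r + 3 - 2 * k - l) (h2 : 2 * t + r ≤ k + l - 2) (h3 : l ≤ k)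
    (h4 : t + r - y ≤ k - 1) (hm : 4 * r * y + 2 * t * min (2 * y) r ≤ m) :
    j * (4 * k - 3 + j) ≤ m := by
  have a1 : j ≤ t + r + 1 - k := by omega
  rcases le_total (2 * y) r with c | c
  · rw [min_eq_left c] at hm
    have a2 : j ≤ y := by omega
    have a3 : k - 1 + j ≤ r + t := by omega
    have a4 : j * (k - 1 + j) ≤ y * (r + t) := mul_le_mul a2 a3 (by omega) hy
    nlinarith
  · by_cases c' : 2 * y = r
    · rw [min_eq_left c'.le] at hm
      have a2 : j ≤ y := by omega
      have a3 : k - 1 + j ≤ r + t := by omega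
      have a4 : j * (k - 1 + j) ≤ y * (r + t) := mul_le_mul a2 a3 (by omega) hy
      nlinarith
    rw [min_eq_right c] at hm
    have a2 : 2 * j ≤ r := by omega
    have a3 : r * (r + 1) ≤ r * (2 * y) := mul_le_mul_of_nonneg_left (by omega) hr
    have a4 : j * (4 * k - 3 + j) ≤ j * (4 * t + 4 * r + 2) :=
      mul_le_mul_of_nonneg_left (by omega) (by omega)
    have a5 : 2 * j * (2 * t + 2 * r + 1) ≤ r * (2 * t + 2 * r + 1) :=
      mul_le_mul_of_nonneg_right a2 (by omega)
    nlinarith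

lemma ch_cases (s : V × V × V) : ch s = 0 ∨ ch s = 1 := by unfold ch; split_ifs <;> simp

lemma sum_ch (F : Finset (V × V × V)) :
    ∑ s ∈ F, ch s = (F.filter (fun s => ¬ ch s = 0)).card := by
  rw [card_filter]; push_cast
  refine sum_congr rfl fun s _ => ?_
  rcases ch_cases s with h | h <;> simp [h]

/-- number of missing pairs between two slots -/
noncomputable def mp (G : SimpleGraph V) (P e : V × V × V) : ℕ := ∑ x ∈ tv P, md G (tv e) x

namespace Ctx
variable {C : Ctx V α}

theorem lemmaL {k l : ℤ} (hD : Dense C.G C.U k l) (hlk : l ≤ k) {F : Finset (V × V × V)}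
    (hF : C.Pk F) (hφ : (C.Free F).card ≤ 1) (hw : (F.card : ℤ) + ∑ s ∈ F, ch s ≤ k + l - 2)
    {β : Type*} (cls : V × V × V → β)
    (H1 : ∀ e ∈ F, ∀ e' ∈ F, ch e = 0 → ch e' = 0 → cls e ≠ cls e' →
      ∀ x ∈ tv e, ∀ y ∈ tv e', ¬ C.G.Adj x y)
    (H2 : ∀ P ∈ F, ¬ ch P = 0 → ∀ e ∈ F, ∀ e' ∈ F, ch e = 0 → ch e' = 0 → cls e ≠ cls e' →
      2 ≤ mp C.G P e + mp C.G P e')
    (H3 : ∀ e ∈ F, ∑ s ∈ F, ch s + (F.filter (fun s => ch s = 0 ∧ cls s = cls e)).card ≤ k - 1)
    (H4 : ∑ s ∈ F, ch s ≤ k - 1) : False := by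
  set S := F.filter (fun s => ch s = 0) with hS
  set T := F.filter (fun s => ¬ ch s = 0) with hT
  have hST : S.card + T.card = F.card := card_filter_add_card_filter_not _
  have ht : ∑ s ∈ F, ch s = T.card := sum_ch F
  have pS : PD tv S := hF.2.mono (filter_subset _ _)
  have pT : PD tv T := hF.2.mono (filter_subset _ _)
  obtain ⟨y, hy1, hy2⟩ : ∃ y : ℕ, (∀ e ∈ S, y ≤ (S.filter (fun s => ¬ cls s = cls e)).card) ∧
      (T.card : ℤ) + S.card - y ≤ k - 1 := by
    rcases S.eq_empty_or_nonempty with h | h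
    · exact ⟨0, fun _ _ => Nat.zero_le _, by rw [h]; simp; omega⟩
    · obtain ⟨e, he, hmin⟩ := exists_min_image S
        (fun e => (S.filter (fun s => ¬ cls s = cls e)).card) h
      refine ⟨_, hmin, ?_⟩
      have := card_filter_add_card_filter_not (s := S) (fun s => cls s = cls e)
      have h3 := H3 e (mem_filter.1 he).1
      rw [← filter_filter] at h3
      rw [← hS] at h3
      omega
  have cS : ∀ e ∈ S, (tv e).card = 2 := fun e he => by
    have := (hF.1 e (mem_filter.1 he).1).1.card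
    have := (mem_filter.1 he).2
    omega
  have mdS : ∀ x, md C.G (VV tv S) x = ∑ e ∈ S, md C.G (tv e) x := fun x => pS.card_filter _
  have m1 : 4 * S.card * y ≤ miss2 C.G (VV tv S) := by
    unfold miss2
    rw [pS.sum_VV]
    have : ∀ e ∈ S, 4 * y ≤ ∑ x ∈ tv e, md C.G (VV tv S) x := by
      intro e he
      have : ∀ x ∈ tv e, 2 * y ≤ md C.G (VV tv S) x := by
        intro x hx
        rw [mdS]
        refine le_trans ?_ (sum_le_sum_of_subset (filter_subset (fun s => ¬ cls s = cls e) S))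
        have := card_nsmul_le_sum (S.filter (fun s => ¬ cls s = cls e))
          (fun e' => md C.G (tv e') x) 2 (fun e' he' => by
            obtain ⟨h1, h2⟩ := mem_filter.1 he'
            rw [← cS e' h1]
            refine card_le_card fun z hz => mem_filter.2 ⟨hz, fun e0 => ?_, ?_⟩
            · exact h2 (by rw [pS.eq_of_mem h1 he hz (e0 ▸ hx)])
            · exact H1 e (mem_filter.1 he).1 e' (mem_filter.1 h1).1 (mem_filter.1 he).2
                (mem_filter.1 h1).2 (fun e0 => h2 e0.symm) x hx z hz)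
        have := hy1 e he
        simp only [smul_eq_mul] at *
        omega
      have h2 := card_nsmul_le_sum _ _ _ this
      rw [cS e he, smul_eq_mul] at h2
      exact le_trans (by omega) h2
    have h2 := card_nsmul_le_sum _ _ _ this
    rw [smul_eq_mul] at h2
    nlinarith
  have m2 : T.card * min (2 * y) S.card ≤ ∑ x ∈ VV tv T, md C.G (VV tv S) x := by
    rw [pT.sum_VV]
    refine card_nsmul_le_sum T _ _ fun P hP => ?_
    have : ∑ x ∈ tv P, md C.G (VV tv S) x = ∑ e ∈ S, mp C.G P e := by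
      simp only [mdS]; exact sum_comm
    rw [this]
    by_cases c : ∃ e ∈ S, mp C.G P e = 0
    · obtain ⟨e, he, h0⟩ := c
      refine (min_le_left _ _).trans
        (le_trans ?_ (sum_le_sum_of_subset (filter_subset (fun s => ¬ cls s = cls e) S)))
      have := card_nsmul_le_sum (S.filter (fun s => ¬ cls s = cls e)) (mp C.G P) 2
        (fun e' he' => by
          obtain ⟨h1, h2⟩ := mem_filter.1 he'
          have := H2 P (mem_filter.1 hP).1 (mem_filter.1 hP).2 e (mem_filter.1 he).1 e'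
            (mem_filter.1 h1).1 (mem_filter.1 he).2 (mem_filter.1 h1).2 (fun e0 => h2 e0.symm)
          omega)
      refine le_trans ?_ this
      have := hy1 e he
      simp only [smul_eq_mul]
      omega
    · push Not at c
      refine (min_le_right _ _).trans ?_
      have := card_nsmul_le_sum S (mp C.G P) 1 (fun e he => Nat.one_le_iff_ne_zero.2 (c e he))
      simpa using this
  have hsd : VV tv F \ VV tv T = VV tv S := by
    ext x; simp only [mem_sdiff, mem_VV]
    constructor
    · rintro ⟨⟨s, hs, hx⟩, h2⟩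
      refine ⟨s, mem_filter.2 ⟨hs, ?_⟩, hx⟩
      by_contra h0
      exact h2 ⟨s, mem_filter.2 ⟨hs, h0⟩, hx⟩
    · rintro ⟨s, hs, hx⟩
      refine ⟨⟨s, (mem_filter.1 hs).1, hx⟩, fun ⟨s', hs', hx'⟩ => ?_⟩
      have := hF.2.eq_of_mem (mem_filter.1 hs).1 (mem_filter.1 hs').1 hx hx'
      exact (mem_filter.1 hs').2 (this ▸ (mem_filter.1 hs).2)
  have hTF : VV tv T ⊆ VV tv F := biUnion_subset_biUnion_of_subset_left _ (filter_subset _ _)
  have m3 := miss2_split (G := C.G) hTF
  have m4 : ∑ x ∈ VV tv T, md C.G (VV tv F) x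
      = miss2 C.G (VV tv T) + ∑ x ∈ VV tv T, md C.G (VV tv S) x := by
    unfold miss2; rw [← sum_add_distrib, ← hsd]; exact sum_congr rfl fun x _ => md_split hTF x
  rw [hsd, m4] at m3
  have m5 := miss2_mono (G := C.G) hF.VV_sub
  have hn := hF.card_U
  obtain ⟨a1, a2, -⟩ := hD
  have m6 : 4 * (S.card : ℤ) * y + 2 * T.card * min (2 * (y : ℤ)) S.card ≤ miss2 C.G C.U := by
    have : 4 * S.card * y + 2 * (T.card * min (2 * y) S.card) ≤ miss2 C.G C.U := by omega
    have h2 : ((4 * S.card * y + 2 * (T.card * min (2 * y) S.card) : ℕ) : ℤ) ≤ miss2 C.G C.U := by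
      exact_mod_cast this
    push_cast at h2
    linarith
  have := numL (j := C.U.card - 2 * k - l + 2) (k := k) (l := l) (by omega) (by omega) (by omega)
    (by omega) (by omega) (by omega) hlk hy2 m6
  omega

end Ctx

end Pool.Agent.Lib.MP_22c8d1_co
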