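import Pool.Agent.Lib.MP_22c8d1_co.Basic

set_option autoImplicit false
open Finset
open scoped Classical

namespace Pool.Agent.Lib.MP_22c8d1_co

variable {V β : Type*}

/-- vertex set of a triple -/
noncomputable def tv (s : V × V × V) : Finset V := {s.1, s.2.1, s.2.2}

lemma mem_tv {a b c z : V} : z ∈ tv (a, b, c) ↔ z = a ∨ z = b ∨ z = c := by simp [tv]

/-- bichromatic cherry with centre the middle vertex -/
def Ch (A : V → V → Prop) (col : V → V → β) (s : V × V × V) : Prop :=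
  A s.1 s.2.1 ∧ A s.2.1 s.2.2 ∧ col s.1 s.2.1 ≠ col s.2.1 s.2.2

lemma card_filter_tv {a b c : V} (hab : a ≠ b) (hbc : b ≠ c) (hac : a ≠ c) (p : V → Prop)
    [DecidablePred p] : ((tv (a, b, c)).filter p).card =
      (if p a then 1 else 0) + (if p b then 1 else 0) + (if p c then 1 else 0) := by
  rw [card_filter]
  unfold tv
  rw [sum_insert (by simp [hab, hac]), sum_insert (by simp [hbc]), sum_singleton]
  simp only [add_assoc]

/-- `y` can be exchanged for `u` -/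
def LSw (A : V → V → Prop) (col : V → V → β) (P : V × V × V) (u y : V) : Prop :=
  ∃ Q, Ch A col Q ∧ ∀ z ∈ tv Q, z = u ∨ (z ∈ tv P ∧ z ≠ y)

/-- a cherry and a disjoint edge inside `W` -/
def ChS (A : V → V → Prop) (col : V → V → β) (W : V → Prop) : Prop :=
  ∃ Q x y, Ch A col Q ∧ A x y ∧ x ∉ tv Q ∧ y ∉ tv Q ∧ (∀ z ∈ tv Q, W z) ∧ W x ∧ W y

section
variable {A : V → V → Prop} {col : V → V → β}
  (hA : ∀ x y, A x y → A y x) (hc : ∀ x y, col x y = col y x)
include hA hc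

lemma lsw_a {a b c u : V} (hab : a ≠ b) (hac : a ≠ c) (hbc : A b c)
    (h : (A u b ∧ col u b ≠ col b c) ∨ (A u c ∧ col u c ≠ col b c) ∨
      (A u b ∧ A u c ∧ col u b ≠ col u c)) : LSw A col (a, b, c) u a := by
  rcases h with h | h | h
  · refine ⟨(u, b, c), ⟨h.1, hbc, h.2⟩, fun z hz => ?_⟩
    rcases mem_tv.1 hz with rfl | rfl | rfl <;> simp [mem_tv, hab.symm, hac.symm]
  · refine ⟨(u, c, b), ⟨h.1, hA _ _ hbc, by rw [hc c b]; exact h.2⟩, fun z hz => ?_⟩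
    rcases mem_tv.1 hz with rfl | rfl | rfl <;> simp [mem_tv, hab.symm, hac.symm]
  · refine ⟨(b, u, c), ⟨hA _ _ h.1, h.2.1, by rw [hc b u]; exact h.2.2⟩, fun z hz => ?_⟩
    rcases mem_tv.1 hz with rfl | rfl | rfl <;> simp [mem_tv, hab.symm, hac.symm]

lemma lsw_c {a b c u : V} (hbc : b ≠ c) (hac : a ≠ c) (hab : A a b)
    (h : (A u b ∧ col u b ≠ col a b) ∨ (A u a ∧ col u a ≠ col a b) ∨
      (A u b ∧ A u a ∧ col u b ≠ col u a)) : LSw A col (a, b, c) u c := by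
  obtain ⟨Q, hQ, hz⟩ := lsw_a hA hc (a := c) (b := b) (c := a) (u := u) hbc.symm hac.symm
    (hA _ _ hab) (by rw [hc b a]; exact h)
  refine ⟨Q, hQ, fun z h => ?_⟩
  have := hz z h
  simp only [mem_tv] at this ⊢
  tauto

lemma lsw_b {a b c u : V} (hab : a ≠ b) (hbc : b ≠ c)
    (h : A u a ∧ A u c ∧ col u a ≠ col u c) : LSw A col (a, b, c) u b := by
  refine ⟨(a, u, c), ⟨hA _ _ h.1, h.2.1, by rw [hc a u]; exact h.2.2⟩, fun z hz => ?_⟩
  rcases mem_tv.1 hz with rfl | rfl | rfl <;> simp [mem_tv, hab, hbc.symm]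

/-- the exceptional configuration absorbs any further neighbour -/
lemma exc_absorb {a b c u v z : V} (hab : a ≠ b) (hbc : b ≠ c) (hac : a ≠ c)
    (hua : u ≠ a) (hub : u ≠ b) (huc : u ≠ c) (hva : v ≠ a) (hvb : v ≠ b) (hvc : v ≠ c)
    (huv : u ≠ v) (h1 : A a b) (h2 : A b c) (h3 : col a b ≠ col b c)
    (ha : A u a) (hb : A u b) (hcc : A u c) (ea : col u a = col a b) (eb : col u b = col a b)
    (ec : col u c = col a b) (hz : z = a ∨ z = b ∨ z = c) (hv : A v z) :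
    ChS A col (fun w => w = u ∨ w = v ∨ w = a ∨ w = b ∨ w = c) := by
  rcases hz with rfl | rfl | rfl
  · refine ⟨(u, b, c), v, z, ⟨hb, h2, by rw [eb]; exact h3⟩, hv, ?_, ?_, ?_, by simp, by simp⟩
    · simp [mem_tv, huv.symm, hvb, hvc]
    · simp [mem_tv, hua.symm, hab, hac]
    · intro w hw; rcases mem_tv.1 hw with rfl | rfl | rfl <;> simp
  · by_cases e : col v z = col a z
    · refine ⟨(v, z, c), u, a, ⟨hv, h2, by rw [e]; exact h3⟩, ha, ?_, ?_, ?_, by simp, by simp⟩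
      · simp [mem_tv, huv, hub, huc]
      · simp [mem_tv, hva.symm, hab, hac]
      · intro w hw; rcases mem_tv.1 hw with rfl | rfl | rfl <;> simp
    · refine ⟨(v, z, a), u, c, ⟨hv, hA _ _ h1, by rw [hc z a]; exact e⟩, hcc, ?_, ?_, ?_,
        by simp, by simp⟩
      · simp [mem_tv, huv, hub, hua]
      · simp [mem_tv, hvc.symm, hbc.symm, hac.symm]
      · intro w hw; rcases mem_tv.1 hw with rfl | rfl | rfl <;> simp
  · by_cases e : col v z = col a b
    · refine ⟨(v, z, b), u, a, ⟨hv, hA _ _ h2, by rw [e, hc z b]; exact h3⟩, ha, ?_, ?_, ?_,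
        by simp, by simp⟩
      · simp [mem_tv, huv, hub, huc]
      · simp [mem_tv, hva.symm, hab, hac]
      · intro w hw; rcases mem_tv.1 hw with rfl | rfl | rfl <;> simp
    · refine ⟨(v, z, u), a, b, ⟨hv, hA _ _ hcc, by rw [hc z u, ec]; exact e⟩, h1, ?_, ?_, ?_,
        by simp, by simp⟩
      · simp [mem_tv, hva.symm, hac, hua.symm]
      · simp [mem_tv, hvb.symm, hbc, hub.symm]
      · intro w hw; rcases mem_tv.1 hw with rfl | rfl | rfl <;> simp

omit hA in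
lemma Ch.ne (hi : ∀ x, ¬ A x x) {a b c : V} (h : Ch A col (a, b, c)) :
    a ≠ b ∧ b ≠ c ∧ a ≠ c := by
  obtain ⟨h1, h2, h3⟩ := h
  refine ⟨fun e => hi b (e ▸ h1), fun e => hi c (e ▸ h2), fun e => h3 ?_⟩
  subst e; exact hc _ _

lemma swap_count (hi : ∀ x, ¬ A x x) {P : V × V × V} {u : V} (hP : Ch A col P)
    (hu : u ∉ tv P) :
    ((tv P).filter (A u)).card ≤ ((tv P).filter (LSw A col P u)).card + 1 ∨
    (1 ≤ ((tv P).filter (LSw A col P u)).card ∧ ∀ v, v ∉ tv P → v ≠ u → ∀ z ∈ tv P, A v z →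
      ChS A col (fun w => w = u ∨ w = v ∨ w ∈ tv P)) := by
  obtain ⟨a, b, c⟩ := P
  obtain ⟨hab, hbc, hac⟩ := hP.ne hc hi
  obtain ⟨h1, h2, h3⟩ := hP
  simp only at h1 h2 h3
  have la := lsw_a hA hc (u := u) hab hac h2
  have lb := lsw_b hA hc (u := u) hab hbc
  have lc := lsw_c hA hc (u := u) hbc hac h1
  simp only [mem_tv, not_or] at hu
  rw [card_filter_tv hab hbc hac, card_filter_tv hab hbc hac]
  by_cases e1 : A u a ∧ A u b ∧ A u c ∧ col u a = col a b ∧ col u b = col a b ∧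
      col u c = col a b
  · right
    obtain ⟨ha, hb, hcc, ea, eb, ec⟩ := e1
    refine ⟨?_, fun v hv hvu z hz hvz => ?_⟩
    · rw [if_pos (la (Or.inl ⟨hb, by rw [eb]; exact h3⟩))]; omega
    · simp only [mem_tv, not_or] at hv
      have := exc_absorb hA hc hab hbc hac hu.1 hu.2.1 hu.2.2 hv.1 hv.2.1 hv.2.2 hvu.symm h1 h2 h3
        ha hb hcc ea eb ec (mem_tv.1 hz) hvz
      simpa only [mem_tv] using this
  by_cases e2 : A u a ∧ A u b ∧ A u c ∧ col u a = col b c ∧ col u b = col b c ∧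
      col u c = col b c
  · right
    obtain ⟨ha, hb, hcc, ea, eb, ec⟩ := e2
    refine ⟨?_, fun v hv hvu z hz hvz => ?_⟩
    · rw [if_pos (lc (Or.inl ⟨hb, by rw [eb]; exact h3.symm⟩))]; omega
    · simp only [mem_tv, not_or] at hv
      have := exc_absorb hA hc hbc.symm hab.symm hac.symm hu.2.2 hu.2.1 hu.1 hv.2.2 hv.2.1 hv.1
        hvu.symm (hA _ _ h2) (hA _ _ h1) (by rw [hc c b, hc b a]; exact h3.symm)
        hcc hb ha (by rw [ec, hc]) (by rw [eb, hc]) (by rw [ea, hc])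
        (by rcases mem_tv.1 hz with h | h | h <;> simp [h]) hvz
      obtain ⟨Q, x, y, q1, q2, q3, q4, q5, q6, q7⟩ := this
      refine ⟨Q, x, y, q1, q2, q3, q4, fun w hw => ?_, ?_, ?_⟩
      · rcases q5 w hw with h | h | h | h | h <;> simp [h, mem_tv]
      · rcases q6 with h | h | h | h | h <;> simp [h, mem_tv]
      · rcases q7 with h | h | h | h | h <;> simp [h, mem_tv]
  left
  by_cases sa : LSw A col (a, b, c) u a <;> by_cases sb : LSw A col (a, b, c) u b <;>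
    by_cases sc : LSw A col (a, b, c) u c <;> by_cases ha : A u a <;> by_cases hb : A u b <;>
    by_cases hcc : A u c <;> simp only [sa, sb, sc, ha, hb, hcc, if_true, if_false] <;>
    first | omega | (exfalso; grind)

end

/-- the cherry has an edge of colour `ε` -/
def Has (col : V → V → β) (ε : β) (Q : V × V × V) : Prop :=
  col Q.1 Q.2.1 = ε ∨ col Q.2.1 Q.2.2 = ε

/-- two disjoint cherries inside `W` -/
def TC (A : V → V → Prop) (col : V → V → β) (W : V → Prop) (ε ε' : β) : Prop :=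
  ∃ Q1 Q2, Ch A col Q1 ∧ Ch A col Q2 ∧ Disjoint (tv Q1) (tv Q2) ∧ (∀ z ∈ tv Q1, W z) ∧
    (∀ z ∈ tv Q2, W z) ∧ (Has col ε Q1 ∨ Has col ε Q2) ∧ (Has col ε' Q1 ∨ Has col ε' Q2)

lemma TC.symm {A : V → V → Prop} {col : V → V → β} {W : V → Prop} {ε ε' : β}
    (h : TC A col W ε ε') : TC A col W ε' ε := by
  obtain ⟨Q1, Q2, h1, h2, h3, h4, h5, h6, h7⟩ := h
  exact ⟨Q1, Q2, h1, h2, h3, h4, h5, h7, h6⟩

/-- `p` forms a cherry with the edge `xy` -/
def Good (A : V → V → Prop) (col : V → V → β) (x y p : V) : Prop :=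
  (A p x ∧ col p x ≠ col x y) ∨ (A p y ∧ col p y ≠ col x y)

section
variable {A : V → V → Prop} {col : V → V → β}
  (hA : ∀ x y, A x y → A y x) (hc : ∀ x y, col x y = col y x)
include hA hc

lemma good_ch {x y p : V} (hxy : A x y) (h : Good A col x y p) :
    ∃ Q, Ch A col Q ∧ (∀ w ∈ tv Q, w = p ∨ w = x ∨ w = y) ∧ Has col (col x y) Q ∧
      (Has col (col p x) Q ∨ Has col (col p y) Q) := by
  rcases h with h | h
  · exact ⟨(p, x, y), ⟨h.1, hxy, h.2⟩, fun w hw => mem_tv.1 hw, Or.inr rfl, Or.inl (Or.inl rfl)⟩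
  · refine ⟨(p, y, x), ⟨h.1, hA _ _ hxy, by rw [hc y x]; exact h.2⟩, fun w hw => ?_,
      Or.inr (hc _ _), Or.inr (Or.inl rfl)⟩
    rcases mem_tv.1 hw with h | h | h <;> simp [h]

lemma ab_ch {a b y : V} {ε : β} (hab : A a b) (hε : col a b ≠ ε)
    (h : (A a y ∧ col a y = ε) ∨ (A b y ∧ col b y = ε)) :
    ∃ Q, Ch A col Q ∧ (∀ w ∈ tv Q, w = y ∨ w = a ∨ w = b) ∧ Has col ε Q := by
  rcases h with h | h
  · exact ⟨(y, a, b), ⟨hA _ _ h.1, hab, by rw [hc y a, h.2]; exact hε.symm⟩,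
      fun w hw => mem_tv.1 hw, Or.inl (by rw [← h.2]; exact hc _ _)⟩
  · refine ⟨(y, b, a), ⟨hA _ _ h.1, hA _ _ hab, by rw [hc y b, h.2, hc b a]; exact hε.symm⟩,
      fun w hw => ?_, Or.inl (by rw [← h.2]; exact hc _ _)⟩
    rcases mem_tv.1 hw with h | h | h <;> simp [h]

lemma mid_ch {x x' p : V} (h1 : A p x) (h2 : A p x') (hε : col p x ≠ col p x') :
    ∃ Q, Ch A col Q ∧ (∀ w ∈ tv Q, w = x ∨ w = p ∨ w = x') ∧ Has col (col p x) Q ∧
      Has col (col p x') Q :=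
  ⟨(x, p, x'), ⟨hA _ _ h1, h2, by rw [hc x p]; exact hε⟩, fun _ hw => mem_tv.1 hw,
    Or.inl (hc _ _), Or.inr rfl⟩

omit hA hc in
lemma disj_of {Q1 Q2 : V × V × V} {a b c a' b' c' : V}
    (h1 : ∀ w ∈ tv Q1, w = a ∨ w = b ∨ w = c) (h2 : ∀ w ∈ tv Q2, w = a' ∨ w = b' ∨ w = c')
    (h : (a ≠ a' ∧ a ≠ b' ∧ a ≠ c') ∧ (b ≠ a' ∧ b ≠ b' ∧ b ≠ c') ∧ (c ≠ a' ∧ c ≠ b' ∧ c ≠ c')) :
    Disjoint (tv Q1) (tv Q2) := by
  refine Finset.disjoint_left.2 fun w hw1 hw2 => ?_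
  have := h1 w hw1
  have := h2 w hw2
  grind

omit hA hc in
lemma sub_of {Q : V × V × V} {a b c : V} {W : V → Prop}
    (h1 : ∀ w ∈ tv Q, w = a ∨ w = b ∨ w = c) (ha : W a) (hb : W b) (hcc : W c) :
    ∀ w ∈ tv Q, W w := by
  intro w hw
  rcases h1 w hw with rfl | rfl | rfl <;> assumption

variable {Pp Ee : V → Prop} (hPE : ∀ p z, Pp p → Ee z → p ≠ z)
  (H : ∀ p q z w, Pp p → Pp q → Ee z → Ee w → (p ≠ q ∨ z ≠ w) → A p z ∨ A q w)
include hPE H

lemma caseA {a b c x y x' y' : V} (pa : Pp a) (pb : Pp b) (pc : Pp c) (ex : Ee x) (ey : Ee y)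
    (ex' : Ee x') (ey' : Ee y') (hab : a ≠ b) (hac : a ≠ c) (hbc : b ≠ c) (hxy : x ≠ y)
    (hxy' : x' ≠ y') (n1 : x ≠ x') (n2 : x ≠ y') (n3 : y ≠ x') (n4 : y ≠ y')
    (A1 : A a b) (A3 : A x' y') (c1 : col x y ≠ col x' y') (c2 : col a b ≠ col x y)
    (ga : ¬ Good A col x y a) (gb : ¬ Good A col x y b) (gc : ¬ Good A col x y c) :
    TC A col (fun w => Pp w ∨ Ee w) (col x y) (col x' y') := by
  unfold Good at ga gb gc
  have kx : (A a x ∧ col a x = col x y) ∨ (A b x ∧ col b x = col x y) := by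
    have := H a b x x pa pb ex ex (Or.inl hab); grind
  have ky : (A a y ∧ col a y = col x y) ∨ (A b y ∧ col b y = col x y) := by
    have := H a b y y pa pb ey ey (Or.inl hab); grind
  have d1 := hPE a; have d2 := hPE b; have d3 := hPE c
  by_cases g : Good A col x' y' c
  · obtain ⟨Q1, q1, q2, q3, -⟩ := good_ch hA hc A3 g
    obtain ⟨Q2, r1, r2, r3⟩ := ab_ch hA hc A1 c2 kx
    exact ⟨Q1, Q2, q1, r1, disj_of q2 r2 (by grind), sub_of q2 (Or.inl pc) (Or.inr ex') (Or.inr ey'),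
      sub_of r2 (Or.inr ex) (Or.inl pa) (Or.inl pb), Or.inr r3, Or.inl q3⟩
  · have key : ∀ z z0 z', Ee z → Ee z0 → Ee z' → z ≠ z0 → z' ≠ z0 → A c z → A c z' →
        col c z = col x y → col c z' = col x' y' →
        ((A a z0 ∧ col a z0 = col x y) ∨ (A b z0 ∧ col b z0 = col x y)) →
        TC A col (fun w => Pp w ∨ Ee w) (col x y) (col x' y') := by
      intro z z0 z' e1 e2 e3 m1 m2 a1 a2 k1 k2 k3
      obtain ⟨Q1, q1, q2, q3, q4⟩ := mid_ch hA hc a1 a2 (by rw [k1, k2]; exact c1)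
      obtain ⟨Q2, r1, r2, r3⟩ := ab_ch hA hc A1 c2 k3
      exact ⟨Q1, Q2, q1, r1, disj_of q2 r2 (by grind),
        sub_of q2 (Or.inr e1) (Or.inl pc) (Or.inr e3),
        sub_of r2 (Or.inr e2) (Or.inl pa) (Or.inl pb), Or.inr r3, Or.inl (k2 ▸ q4)⟩
    unfold Good at g
    have t1 := H c c x y pc pc ex ey (Or.inr hxy)
    have t2 := H c c x' y' pc pc ex' ey' (Or.inr hxy')
    rcases t1 with t1 | t1 <;> rcases t2 with t2 | t2
    · exact key x y x' ex ey ex' hxy n3.symm t1 t2 (by grind) (by grind) ky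
    · exact key x y y' ex ey ey' hxy n4.symm t1 t2 (by grind) (by grind) ky
    · exact key y x x' ey ex ex' hxy.symm n1.symm t1 t2 (by grind) (by grind) kx
    · exact key y x y' ey ex ey' hxy.symm n2.symm t1 t2 (by grind) (by grind) kx

omit H in
lemma caseSDR {p q x y x' y' : V} (pp : Pp p) (pq : Pp q) (ex : Ee x) (ey : Ee y)
    (ex' : Ee x') (ey' : Ee y') (hpq : p ≠ q)
    (n1 : x ≠ x') (n2 : x ≠ y') (n3 : y ≠ x') (n4 : y ≠ y') (A2 : A x y)
    (A3 : A x' y') (g1 : Good A col x y p) (g2 : Good A col x' y' q) :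
    TC A col (fun w => Pp w ∨ Ee w) (col x y) (col x' y') := by
  have d1 := hPE p; have d2 := hPE q
  obtain ⟨Q1, q1, q2, q3, -⟩ := good_ch hA hc A2 g1
  obtain ⟨Q2, r1, r2, r3, -⟩ := good_ch hA hc A3 g2
  exact ⟨Q1, Q2, q1, r1, disj_of q2 r2 (by grind), sub_of q2 (Or.inl pp) (Or.inr ex) (Or.inr ey),
      sub_of r2 (Or.inl pq) (Or.inr ex') (Or.inr ey'), Or.inl q3, Or.inr r3⟩

lemma case00 {p q x y x' y' : V} (pp : Pp p) (pq : Pp q) (ex : Ee x) (ey : Ee y)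
    (ex' : Ee x') (ey' : Ee y') (hpq : p ≠ q) (hxy : x ≠ y) (hxy' : x' ≠ y')
    (n1 : x ≠ x') (n2 : x ≠ y') (n3 : y ≠ x') (n4 : y ≠ y') (c1 : col x y ≠ col x' y')
    (g1 : ¬ Good A col x y p) (g2 : ¬ Good A col x' y' p)
    (g3 : ¬ Good A col x y q) (g4 : ¬ Good A col x' y' q) :
    TC A col (fun w => Pp w ∨ Ee w) (col x y) (col x' y') := by
  have d1 := hPE p; have d2 := hPE q
  have key : ∀ z w z' w', Ee z → Ee w → Ee z' → Ee w' → z ≠ w → z ≠ w' → z' ≠ w → z' ≠ w' →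
      A p z → A p z' → A q w → A q w' → col p z = col x y → col p z' = col x' y' →
      col q w = col x y → col q w' = col x' y' →
      TC A col (fun w => Pp w ∨ Ee w) (col x y) (col x' y') := by
    intro z w z' w' e1 e2 e3 e4 m1 m2 m3 m4 a1 a2 a3 a4 k1 k2 k3 k4
    obtain ⟨Q1, q1, q2, q3, q4⟩ := mid_ch hA hc a1 a2 (by rw [k1, k2]; exact c1)
    obtain ⟨Q2, r1, r2, r3, r4⟩ := mid_ch hA hc a3 a4 (by rw [k3, k4]; exact c1)
    exact ⟨Q1, Q2, q1, r1, disj_of q2 r2 (by grind),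
      sub_of q2 (Or.inr e1) (Or.inl pp) (Or.inr e3),
      sub_of r2 (Or.inr e2) (Or.inl pq) (Or.inr e4), Or.inl (k1 ▸ q3), Or.inl (k2 ▸ q4)⟩
  unfold Good at g1 g2 g3 g4
  have pair : ∀ s t, Ee s → Ee t → s ≠ t → (A p s ∧ A q t) ∨ (A p t ∧ A q s) := by
    intro s t es et hst
    have := H p p s t pp pp es et (Or.inr hst)
    have := H q q s t pq pq es et (Or.inr hst)
    have := H p q s s pp pq es es (Or.inl hpq)
    have := H p q t t pp pq et et (Or.inl hpq)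
    have := H p q s t pp pq es et (Or.inl hpq)
    have := H p q t s pp pq et es (Or.inl hpq)
    grind
  rcases pair x y ex ey hxy with t1 | t1 <;> rcases pair x' y' ex' ey' hxy' with t2 | t2
  · exact key x y x' y' ex ey ex' ey' hxy n2 n3.symm hxy' t1.1 t2.1 t1.2 t2.2
      (by grind) (by grind) (by grind) (by grind)
  · exact key x y y' x' ex ey ey' ex' hxy n1 n4.symm hxy'.symm t1.1 t2.1 t1.2 t2.2
      (by grind) (by grind) (by grind) (by grind)
  · exact key y x x' y' ey ex ex' ey' hxy.symm n4 n1.symm hxy' t1.1 t2.1 t1.2 t2.2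
      (by grind) (by grind) (by grind) (by grind)
  · exact key y x y' x' ey ex ey' ex' hxy.symm n3 n2.symm hxy'.symm t1.1 t2.1 t1.2 t2.2
      (by grind) (by grind) (by grind) (by grind)

lemma caseA' {a b c x y x' y' : V} (pa : Pp a) (pb : Pp b) (pc : Pp c) (ex : Ee x) (ey : Ee y)
    (ex' : Ee x') (ey' : Ee y') (hab : a ≠ b) (hac : a ≠ c) (hbc : b ≠ c) (hxy : x ≠ y)
    (hxy' : x' ≠ y') (n1 : x ≠ x') (n2 : x ≠ y') (n3 : y ≠ x') (n4 : y ≠ y')
    (hP : Ch A col (a, b, c)) (A3 : A x' y') (c1 : col x y ≠ col x' y')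
    (ga : ¬ Good A col x y a) (gb : ¬ Good A col x y b) (gc : ¬ Good A col x y c) :
    TC A col (fun w => Pp w ∨ Ee w) (col x y) (col x' y') := by
  obtain ⟨h1, h2, h3⟩ := hP
  simp only at h1 h2 h3
  by_cases c2 : col a b = col x y
  · exact caseA hA hc hPE H pb pc pa ex ey ex' ey' hbc hab.symm hac.symm hxy hxy' n1 n2 n3 n4
      h2 A3 c1 (by rw [← c2]; exact h3.symm) gb gc ga
  · exact caseA hA hc hPE H pa pb pc ex ey ex' ey' hab hac hbc hxy hxy' n1 n2 n3 n4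
      h1 A3 c1 c2 ga gb gc

lemma two_cherries {a b c x y x' y' : V} (pa : Pp a) (pb : Pp b) (pc : Pp c) (ex : Ee x)
    (ey : Ee y) (ex' : Ee x') (ey' : Ee y') (hab : a ≠ b) (hac : a ≠ c) (hbc : b ≠ c)
    (hxy : x ≠ y) (hxy' : x' ≠ y') (n1 : x ≠ x') (n2 : x ≠ y') (n3 : y ≠ x') (n4 : y ≠ y')
    (hP : Ch A col (a, b, c)) (A2 : A x y) (A3 : A x' y') (c1 : col x y ≠ col x' y') :
    TC A col (fun w => Pp w ∨ Ee w) (col x y) (col x' y') := by
  have S := fun p q pp pq hpq => caseSDR hA hc hPE (p := p) (q := q) pp pq ex ey ex' ey' hpq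
    n1 n2 n3 n4 A2 A3
  have Z := fun p q pp pq hpq => case00 hA hc hPE H (p := p) (q := q) pp pq ex ey ex' ey' hpq
    hxy hxy' n1 n2 n3 n4 c1
  have E1 := caseA' hA hc hPE H pa pb pc ex ey ex' ey' hab hac hbc hxy hxy' n1 n2 n3 n4 hP A3 c1
  have E2 := fun g1 g2 g3 => (caseA' hA hc hPE H pa pb pc ex' ey' ex ey hab hac hbc hxy' hxy
    n1.symm n3.symm n2.symm n4.symm hP A2 c1.symm g1 g2 g3).symm
  have S1 := S a b pa pb hab
  have S2 := S b a pb pa hab.symm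
  have S3 := S a c pa pc hac
  have S4 := S c a pc pa hac.symm
  have S5 := S b c pb pc hbc
  have S6 := S c b pc pb hbc.symm
  have Z1 := Z a b pa pb hab
  have Z2 := Z a c pa pc hac
  have Z3 := Z b c pb pc hbc
  clear S Z
  generalize TC A col (fun w => Pp w ∨ Ee w) (col x y) (col x' y') = T at *
  generalize Good A col x y a = ga at *
  generalize Good A col x y b = gb at *
  generalize Good A col x y c = gc at *
  generalize Good A col x' y' a = ha at *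
  generalize Good A col x' y' b = hb at *
  generalize Good A col x' y' c = hcc at *
  by_cases ga <;> by_cases gb <;> by_cases gc <;> by_cases ha <;> by_cases hb <;>
    by_cases hcc <;> simp_all only [not_true_eq_false, not_false_eq_true, forall_const]

end

end Pool.Agent.Lib.MP_22c8d1_co
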