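import Pool.Agent.Lib.MP_22c8d1_co.ThmD
import Pool.Agent.Lib.MP_22c8d1_co.Kneser

set_option autoImplicit false
open Finset
open scoped Classical

namespace Pool.Agent.Lib.MP_22c8d1_co

variable {V : Type*}

lemma IsM.union {A : V → V → Prop} {U X : Finset V} {M N : Finset (V × V)} (hM : IsM A U M)
    (hX : ∀ e ∈ M, ev e ⊆ X) (hN : IsM A (U \ X) N) : IsM A U (M ∪ N) ∧ Disjoint M N := by
  have hd : ∀ s ∈ M, ∀ t ∈ N, Disjoint (ev s) (ev t) := fun s hs t ht =>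
    Finset.disjoint_left.2 fun z hz hz' => (mem_sdiff.1 ((hN.1 t ht).2 hz')).2 (hX s hs hz)
  refine ⟨⟨fun e he => ?_, hM.2.union hN.2 hd⟩, disjoint_of_vs (fun s _ => ev_nonempty s) hd⟩
  rcases mem_union.1 he with he | he
  · exact hM.1 e he
  · exact ⟨(hN.1 e he).1, (hN.1 e he).2.trans sdiff_subset⟩

lemma IsM.insert {A : V → V → Prop} {U : Finset V} {N : Finset (V × V)} (hN : IsM A U N)
    {f : V × V} (hf : A f.1 f.2) (hU : ev f ⊆ U) (hd : ∀ e ∈ N, ∀ z ∈ ev f, z ∉ ev e) :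
    IsM A U (insert f N) ∧ f ∉ N := by
  refine ⟨⟨fun e he => ?_, ?_⟩, fun h => hd f h f.1 (by simp [ev]) (by simp [ev])⟩
  · rcases mem_insert.1 he with rfl | he
    · exact ⟨hf, hU⟩
    · exact hN.1 e he
  · rw [insert_eq]
    exact (PD_single _ _).union hN.2 (fun a ha t ht => by
      rw [mem_singleton.1 ha]; exact Finset.disjoint_left.2 fun z hz => hd t ht z hz)

lemma IsS.rest {A : V → V → Prop} {U : Finset V} {S I : Finset ((V × V) × (V × V))}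
    (h : IsS A U S) (hI : I ⊆ S) : IsS A (U \ VV qv I) (S \ I) := by
  refine ⟨fun s hs => ?_, h.2.mono sdiff_subset⟩
  obtain ⟨s1, s2⟩ := mem_sdiff.1 hs
  refine ⟨(h.1 s s1).1, (h.1 s s1).2.1, fun z hz => mem_sdiff.2 ⟨(h.1 s s1).2.2 hz, fun hz' => ?_⟩⟩
  obtain ⟨t, ht, hz'⟩ := mem_VV.1 hz'
  exact s2 (h.2.eq_of_mem s1 (hI ht) hz hz' ▸ ht)

lemma IsS.sub {A : V → V → Prop} {U : Finset V} {S I : Finset ((V × V) × (V × V))}
    (h : IsS A U S) (hI : I ⊆ S) : IsS A U I := ⟨fun s hs => h.1 s (hI hs), h.2.mono hI⟩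

lemma card_VV_ev (M : Finset (V × V)) : (VV ev M).card ≤ 2 * M.card := by
  refine card_VV_le.trans ?_
  have := sum_le_card_nsmul M (fun p => (ev p).card) 2 (fun p _ => card_ev_le p)
  simpa [mul_comm] using this

lemma cover_of_small {A : V → V → Prop} {U : Finset V} {b : ℤ}
    (h : ∀ M, IsM A U M → (M.card : ℤ) ≤ b) :
    ∃ Y : Finset V, (Y.card : ℤ) ≤ 2 * b ∧ ∀ x ∈ U, ∀ y ∈ U, x ∉ Y → y ∉ Y → ¬ A x y := by
  obtain ⟨m, ⟨M, m1, m2⟩, hmax⟩ := Int.exists_greatest_of_bdd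
    (P := fun z => ∃ M, IsM A U M ∧ (M.card : ℤ) = z) ⟨b, fun z ⟨M, p, r⟩ => r ▸ h M p⟩
    ⟨0, ∅, ⟨by simp, by simp [PD]⟩, by simp⟩
  refine ⟨VV ev M, by have := card_VV_ev M; have := h M m1; omega, fun x hx y hy x1 y1 a => ?_⟩
  obtain ⟨i1, i2⟩ := m1.insert (f := (x, y)) a (insert_subset hx (singleton_subset_iff.2 hy))
    (fun e he z hz hz' => by
      rcases mem_ev.1 hz with rfl | rfl
      · exact x1 (mem_VV.2 ⟨e, he, hz'⟩)
      · exact y1 (mem_VV.2 ⟨e, he, hz'⟩))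
  have := hmax _ ⟨_, i1, rfl⟩
  rw [card_insert_of_notMem i2] at this
  omega

lemma augment {A : V → V → Prop} {U : Finset V} {M0 M1 : Finset (V × V)} (h0 : IsM A U M0)
    (h1 : IsM A U M1) (hc : M0.card ≤ M1.card) :
    ∃ M, IsM A U M ∧ M.card = M1.card ∧ VV ev M0 ⊆ VV ev M := by
  obtain ⟨m, ⟨M, m1, m2, m3⟩, hmax⟩ := Int.exists_greatest_of_bdd
    (P := fun z => ∃ M, IsM A U M ∧ M.card = M1.card ∧ ((M ∩ M0).card : ℤ) = z)
    ⟨M0.card, fun z ⟨M, _, _, r⟩ => r ▸ by exact_mod_cast card_le_card inter_subset_right⟩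
    ⟨_, M1, h1, rfl, rfl⟩
  refine ⟨M, m1, m2, fun v hv => ?_⟩
  by_contra hvM
  obtain ⟨e, he, hve⟩ := mem_VV.1 hv
  have heM : e ∉ M := fun h => hvM (mem_VV.2 ⟨e, h, hve⟩)
  have key : ∀ e' ∈ M, e' ∉ M0 → (∀ t ∈ M.erase e', ∀ z ∈ ev e, z ∉ ev t) → False := by
    intro e' he' he0 hd
    obtain ⟨i1, i2⟩ := (m1.sub (erase_subset e' _)).insert (h0.1 e he).1 (h0.1 e he).2 hd
    have c1 := card_erase_add_one he'
    have := hmax _ ⟨_, i1, by rw [card_insert_of_notMem i2]; omega, rfl⟩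
    rw [insert_inter_of_mem he, card_insert_of_notMem (fun h => i2 (mem_inter.1 h).1),
      erase_inter, erase_eq_of_notMem (fun h => he0 (mem_inter.1 h).2)] at this
    omega
  by_cases hw : ∃ e' ∈ M, ∃ w ∈ ev e, w ∈ ev e'
  · obtain ⟨e', he', w, w1, w2⟩ := hw
    refine key e' he' (fun h => heM (h0.2.eq_of_mem h he w2 w1 ▸ he')) fun t ht z hz hzt => ?_
    have zv : z ≠ v := fun h => hvM (mem_VV.2 ⟨t, (mem_erase.1 ht).2, h ▸ hzt⟩)
    have wv : w ≠ v := fun h => hvM (mem_VV.2 ⟨e', he', h ▸ w2⟩)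
    have zw : z = w := by
      have a := mem_ev.1 hz; have b := mem_ev.1 w1; have c := mem_ev.1 hve
      grind
    exact (mem_erase.1 ht).1 (m1.2.eq_of_mem (mem_erase.1 ht).2 he' hzt (zw ▸ w2))
  · push Not at hw
    obtain ⟨e', he', he0⟩ : ∃ e' ∈ M, e' ∉ M0 := by
      by_contra hh
      push Not at hh
      have : M = M0 := eq_of_subset_of_card_le hh (by omega)
      exact heM (this ▸ he)
    exact key e' he' he0 fun t ht z hz => hw t (mem_erase.1 ht).2 z hz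

/-- protecting two matchings at small cost outside the free part -/
lemma protect {A : V → V → Prop} {U : Finset V} {P Q M : Finset (V × V)}
    (hP : IsM A U P) (hQ : IsM A U Q) (hM : IsM A U M) (h1 : Q.card + 1 ≤ M.card)
    (h2 : 2 * P.card ≤ M.card + 1) :
    ∃ (X : Finset V) (F : Finset (V × V)), X ⊆ U ∧ IsM A X P ∧ IsM A X F ∧ M.card ≤ F.card ∧
      (X \ VV ev Q).card + Q.card ≤ 2 * M.card := by
  set Q1 := Q.filter (fun e => ∀ z ∈ ev e, z ∉ VV ev P) with hQ1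
  obtain ⟨u1, u2⟩ := hP.union (X := VV ev P) (N := Q1) (fun e he z hz => mem_VV.2 ⟨e, he, hz⟩)
    (hQ.mono (filter_subset _ _) fun e he z hz =>
      mem_sdiff.2 ⟨(hQ.1 e (mem_filter.1 he).1).2 hz, (mem_filter.1 he).2 z hz⟩)
  have vs : ∀ F, IsM A U F → VV ev F ⊆ U ∧ IsM A (VV ev F) F := fun F hF =>
    ⟨fun z hz => by obtain ⟨e, he, hz⟩ := mem_VV.1 hz; exact (hF.1 e he).2 hz,
      hF.mono Subset.rfl fun e he z hz => mem_VV.2 ⟨e, he, hz⟩⟩
  rcases le_total (P ∪ Q1).card M.card with c | c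
  · obtain ⟨F, f1, f2, f3⟩ := augment u1 hM c
    refine ⟨VV ev F, F, (vs F f1).1, hP.mono Subset.rfl fun e he z hz =>
      f3 (mem_VV.2 ⟨e, mem_union_left _ he, hz⟩), (vs F f1).2, f2.ge, ?_⟩
    have a1 := hQ.2.card_hit (VV ev F)
    rw [filter_true_of_mem (fun e he => by
      by_cases hh : ∀ z ∈ ev e, z ∉ VV ev P
      · exact ⟨e.1, by simp [ev], f3 (mem_VV.2
          ⟨e, mem_union_right _ (mem_filter.2 ⟨he, hh⟩), by simp [ev]⟩)⟩
      · push Not at hh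
        obtain ⟨z, z1, z2⟩ := hh
        obtain ⟨t, ht, z3⟩ := mem_VV.1 z2
        exact ⟨z, z1, f3 (mem_VV.2 ⟨t, mem_union_left _ ht, z3⟩)⟩), filter_mem_eq_inter] at a1
    have a2 := card_sdiff_add_card_inter (VV ev F) (VV ev Q)
    have a3 := card_VV_ev F
    rw [inter_comm] at a1
    omega
  · refine ⟨VV ev (P ∪ Q1), P ∪ Q1, (vs _ u1).1, hP.mono Subset.rfl fun e he z hz =>
      mem_VV.2 ⟨e, mem_union_left _ he, hz⟩, (vs _ u1).2, c, ?_⟩
    have a1 : VV ev (P ∪ Q1) \ VV ev Q ⊆ VV ev P := by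
      intro z hz
      obtain ⟨z1, z2⟩ := mem_sdiff.1 hz
      obtain ⟨t, ht, z3⟩ := mem_VV.1 z1
      rcases mem_union.1 ht with ht | ht
      · exact mem_VV.2 ⟨t, ht, z3⟩
      · exact absurd (mem_VV.2 ⟨t, (mem_filter.1 ht).1, z3⟩) z2
    have a2 := card_le_card a1
    have a3 := card_VV_ev P
    omega

end Pool.Agent.Lib.MP_22c8d1_co
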