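import Pool.Agent.Lib.MP_22c8d1_co.Pack

set_option autoImplicit false
open Finset
open scoped Classical

namespace Pool.Agent.Lib.MP_22c8d1_co

variable {V α : Type*}

namespace Ctx
variable (C : Ctx V α)

/-- merged red/blue colouring -/
def mc (x y : V) : Prop := C.R (C.col x y)

/-- blue adjacency -/
def bA (x y : V) : Prop := C.G.Adj x y ∧ ¬ C.R (C.col x y)

lemma mc_symm (x y : V) : C.mc x y = C.mc y x := by unfold mc; rw [C.hc]

lemma bA_symm (x y : V) (h : C.bA x y) : C.bA y x := ⟨h.1.symm, by rw [C.hc]; exact h.2⟩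

variable {C}

lemma ch_gen {Q : V × V × V} (h : Ch C.G.Adj C.col Q) :
    C.Val Q ∧ Q.1 ≠ Q.2.2 ∧ C.rho Q = 1 ∧ C.bet Q = 1 ∧ -1 ≤ C.psi Q ∧
      ∀ ε, C.R ε → Has C.col ε Q → C.psi Q = 3 := by
  have hne : Q.1 ≠ Q.2.2 := fun e => h.2.2 (by rw [← e]; exact C.hc _ _)
  refine ⟨⟨h.1, h.2.1, fun _ => h.2.2⟩, hne, by simp [rho, hne], by simp [bet, hne], ?_, ?_⟩
  · unfold psi; rw [if_neg hne]; split_ifs <;> norm_num
  · intro ε hε hh
    unfold psi; rw [if_neg hne, if_pos]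
    rcases hh with hh | hh
    · left; rwa [hh]
    · right; rwa [hh]

lemma ch_RB {Q : V × V × V} (h : Ch C.G.Adj C.mc Q) :
    C.Val Q ∧ Q.1 ≠ Q.2.2 ∧ C.rho Q = 1 ∧ C.bet Q = 1 ∧ C.psi Q = 3 := by
  have h' : Ch C.G.Adj C.col Q := ⟨h.1, h.2.1, fun e => h.2.2 (by unfold mc; rw [e])⟩
  obtain ⟨a1, a2, a3, a4, -, a6⟩ := ch_gen h'
  refine ⟨a1, a2, a3, a4, ?_⟩
  by_cases r : C.R (C.col Q.1 Q.2.1)
  · exact a6 _ r (Or.inl rfl)
  · refine a6 _ ?_ (Or.inr rfl)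
    by_contra r'
    exact h.2.2 (propext ⟨fun x => absurd x r, fun x => absurd x r'⟩)

lemma ch_BB {Q : V × V × V} (h : Ch C.bA C.col Q) :
    C.Val Q ∧ Q.1 ≠ Q.2.2 ∧ C.rho Q = 1 ∧ C.bet Q = 1 ∧ C.psi Q = -1 := by
  have h' : Ch C.G.Adj C.col Q := ⟨h.1.1, h.2.1.1, h.2.2⟩
  obtain ⟨a1, a2, a3, a4, -, -⟩ := ch_gen h'
  refine ⟨a1, a2, a3, a4, ?_⟩
  unfold psi; rw [if_neg a2, if_neg]
  rintro (r | r)
  · exact h.1.2 r
  · exact h.2.1.2 r

lemma Val.cases {Q : V × V × V} (h : C.Val Q) (hne : Q.1 ≠ Q.2.2) :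
    Ch C.G.Adj C.mc Q ∨ Ch C.bA C.col Q := by
  by_cases r : C.R (C.col Q.1 Q.2.1) <;> by_cases r' : C.R (C.col Q.2.1 Q.2.2)
  · exact absurd (C.hR _ _ r r') (h.2.2 hne)
  · exact Or.inl ⟨h.1, h.2.1, fun e => r' (cast e r)⟩
  · exact Or.inl ⟨h.1, h.2.1, fun e => r (cast e.symm r')⟩
  · exact Or.inr ⟨⟨h.1, r⟩, ⟨h.2.1, r'⟩, h.2.2 hne⟩

lemma val_sg {x y : V} (h : C.G.Adj x y) : C.Val (x, y, x) := ⟨h, h.symm, fun e => absurd rfl e⟩

lemma rho_sg (x y : V) : C.rho (x, y, x) = if C.R (C.col x y) then 1 else 0 := by simp [rho]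
lemma bet_sg (x y : V) : C.bet (x, y, x) = if C.R (C.col x y) then 0 else 1 := by simp [bet]
lemma psi_sg (x y : V) : C.psi (x, y, x) = 1 := by simp [psi]
lemma rho_nonneg (s : V × V × V) : 0 ≤ C.rho s := by unfold rho; split_ifs <;> norm_num
lemma bet_nonneg (s : V × V × V) : 0 ≤ C.bet s := by unfold bet; split_ifs <;> norm_num
lemma rho_le (s : V × V × V) : C.rho s ≤ 1 := by unfold rho; split_ifs <;> norm_num
lemma bet_le (s : V × V × V) : C.bet s ≤ 1 := by unfold bet; split_ifs <;> norm_num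
lemma rho_add_bet (s : V × V × V) : C.rho s + C.bet s = 1 + ch s := by
  unfold rho bet ch; split_ifs <;> norm_num

lemma Opt.free_nonadj {F : Finset (V × V × V)} (h : C.Opt F) {u v : V} (hu : u ∈ C.Free F)
    (hv : v ∈ C.Free F) : ¬ C.G.Adj u v := by
  intro huv
  have := (h.move' (A := ∅) (B := {(u, v, u)}) (empty_subset _)
    (fun s hs => by rw [mem_singleton.1 hs]; exact val_sg huv) (PD_single _ _)
    (fun s hs z hz => by
      rw [mem_singleton.1 hs] at hz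
      rcases mem_tv.1 hz with rfl | rfl | rfl <;> simp [hu, hv])
    (by simp [rho_nonneg]) (by simp [bet_nonneg])).1
  simp [psi_sg] at this

lemma Opt.move11 {F : Finset (V × V × V)} (h : C.Opt F) {P Q : V × V × V} (hP : P ∈ F)
    (hQ : C.Val Q) (hz : ∀ z ∈ tv Q, z ∈ C.Free F ∨ z ∈ tv P) (hr : C.rho P ≤ C.rho Q)
    (hb : C.bet P ≤ C.bet Q) :
    C.psi Q ≤ C.psi P ∧ (C.psi Q = C.psi P → C.Opt ((F \ {P}) ∪ {Q})) := by
  have := h.move' (A := {P}) (B := {Q}) (singleton_subset_iff.2 hP)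
    (fun s hs => by rw [mem_singleton.1 hs]; exact hQ) (PD_single _ _)
    (fun s hs z h' => by
      rw [mem_singleton.1 hs] at h'
      simpa using hz z h') (by simpa using hr) (by simpa using hb)
  simpa using this

lemma Opt.move12 {F : Finset (V × V × V)} (h : C.Opt F) {P Q : V × V × V} {x y : V} (hP : P ∈ F)
    (hQ : C.Val Q) (hxy : C.G.Adj x y) (hx : x ∉ tv Q) (hy : y ∉ tv Q)
    (hz : ∀ z ∈ tv Q, z ∈ C.Free F ∨ z ∈ tv P) (hx' : x ∈ C.Free F ∨ x ∈ tv P)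
    (hy' : y ∈ C.Free F ∨ y ∈ tv P) (hr : C.rho P ≤ C.rho Q)
    (hb : C.bet P ≤ C.bet Q) : C.psi Q + 1 ≤ C.psi P := by
  have hd : Disjoint (tv Q) (tv (x, y, x)) := by
    refine Finset.disjoint_right.2 fun z h' => ?_
    rcases mem_tv.1 h' with rfl | rfl | rfl <;> assumption
  have hne := ne_of_disj hd
  have := (h.move' (A := {P}) (B := {Q, (x, y, x)}) (singleton_subset_iff.2 hP)
    (fun s hs => by
      rcases mem_insert.1 hs with rfl | hs
      · exact hQ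
      · rw [mem_singleton.1 hs]; exact val_sg hxy) (PD_pair hd)
    (fun s hs z h' => by
      rcases mem_insert.1 hs with rfl | hs
      · simpa using hz z h'
      · rw [mem_singleton.1 hs] at h'
        rcases mem_tv.1 h' with rfl | rfl | rfl <;> simpa)
    (by rw [sum_pair hne, sum_singleton]; have := C.rho_nonneg (x, y, x); linarith)
    (by rw [sum_pair hne, sum_singleton]; have := C.bet_nonneg (x, y, x); linarith)).1
  rw [sum_pair hne, sum_singleton, psi_sg] at this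
  exact this

variable (C) in
/-- `y` is a covered vertex that can be freed by using the free vertex `u` -/
def Sw (F : Finset (V × V × V)) (u y : V) : Prop :=
  y ∉ C.Free F ∧ ∃ F', C.Opt F' ∧ y ∈ C.Free F' ∧ (∀ v ∈ C.Free F, v ≠ u → v ∈ C.Free F') ∧
    ∀ P ∈ F, y ∉ tv P → P ∈ F'

lemma Opt.sw {F : Finset (V × V × V)} (h : C.Opt F) {P Q : V × V × V} (hP : P ∈ F) {u y : V}
    (hu : u ∈ C.Free F) (hy : y ∈ tv P) (hQ : C.Val Q)
    (hz : ∀ z ∈ tv Q, z = u ∨ (z ∈ tv P ∧ z ≠ y)) (hr : C.rho P ≤ C.rho Q)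
    (hb : C.bet P ≤ C.bet Q) (hp : C.psi Q = C.psi P) : C.Sw F u y := by
  have hO := (h.move11 hP hQ (fun z h' => by
    rcases hz z h' with rfl | h''
    · exact Or.inl hu
    · exact Or.inr h''.1) hr hb).2 hp
  have hyF : y ∉ C.Free F := fun h' => (mem_Free.1 h').2 P hP hy
  refine ⟨hyF, _, hO, mem_Free.2 ⟨(h.1.1.1 P hP).2 hy, fun s hs hys => ?_⟩, fun v hv hvu => ?_,
    fun P' hP' hy' => ?_⟩
  · rcases mem_union.1 hs with hs | hs
    · have := h.1.1.2.eq_of_mem (mem_sdiff.1 hs).1 hP hys hy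
      exact (mem_sdiff.1 hs).2 (by simp [this])
    · rw [mem_singleton.1 hs] at hys
      rcases hz y hys with rfl | h''
      · exact hyF hu
      · exact h''.2 rfl
  · refine mem_Free.2 ⟨(mem_Free.1 hv).1, fun s hs hvs => ?_⟩
    rcases mem_union.1 hs with hs | hs
    · exact (mem_Free.1 hv).2 s (mem_sdiff.1 hs).1 hvs
    · rw [mem_singleton.1 hs] at hvs
      rcases hz v hvs with h'' | h''
      · exact hvu h''
      · exact (mem_Free.1 hv).2 P hP h''.1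
  · refine mem_union.2 (Or.inl (mem_sdiff.2 ⟨hP', fun e => hy' ?_⟩))
    rw [mem_singleton.1 e]; exact hy

lemma Opt.sw_single {F : Finset (V × V × V)} (h : C.Opt F) {P : V × V × V} (hP : P ∈ F)
    {u x y : V} (hu : u ∈ C.Free F) (hxy : C.G.Adj x y) (htv : ∀ z, z ∈ tv P ↔ z = x ∨ z = y)
    (hr : C.rho P = C.rho (x, y, x)) (hb : C.bet P = C.bet (x, y, x)) (hp : C.psi P = 1)
    (hux : C.G.Adj u x) : C.Sw F u y := by
  by_cases e : C.mc u x = C.mc x y
  · have e' : C.R (C.col u x) ↔ C.R (C.col x y) := iff_of_eq e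
    refine h.sw hP hu ((htv y).2 (Or.inr rfl)) (val_sg hux) (fun z hz => ?_) ?_ ?_ ?_
    · rcases mem_tv.1 hz with rfl | rfl | rfl
      · exact Or.inl rfl
      · exact Or.inr ⟨(htv _).2 (Or.inl rfl), hxy.ne⟩
      · exact Or.inl rfl
    · rw [hr, rho_sg, rho_sg]; simp only [e']; exact le_rfl
    · rw [hb, bet_sg, bet_sg]; simp only [e']; exact le_rfl
    · rw [hp, psi_sg]
  · exfalso
    obtain ⟨a1, -, a3, a4, a5⟩ := ch_RB (C := C) (Q := (u, x, y)) ⟨hux, hxy, e⟩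
    have := (h.move11 hP a1 (fun z hz => by
      rcases mem_tv.1 hz with rfl | rfl | rfl
      · exact Or.inl hu
      · exact Or.inr ((htv _).2 (Or.inl rfl))
      · exact Or.inr ((htv _).2 (Or.inr rfl))) (a3 ▸ rho_le _) (a4 ▸ bet_le _)).1
    omega

lemma Opt.blue {F : Finset (V × V × V)} (h : C.Opt F) {P : V × V × V} (hP : P ∈ F)
    (hB : Ch C.bA C.col P) {u z : V} (hu : u ∈ C.Free F) (hz : z ∈ tv P) (huz : C.G.Adj u z) :
    C.bA u z := by
  refine ⟨huz, fun r => ?_⟩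
  obtain ⟨-, -, b3, b4, b5⟩ := ch_BB hB
  have key : ∀ y, y ∈ tv P → C.bA z y → False := by
    intro y hy hzy
    obtain ⟨a1, -, a3, a4, a5⟩ := ch_RB (C := C) (Q := (u, z, y))
      ⟨huz, hzy.1, fun e => hzy.2 (cast e r)⟩
    have := (h.move11 hP a1 (fun w hw => by
      rcases mem_tv.1 hw with rfl | rfl | rfl
      · exact Or.inl hu
      · exact Or.inr hz
      · exact Or.inr hy) (by omega) (by omega)).1
    omega
  obtain ⟨a, b, c⟩ := P
  rcases mem_tv.1 hz with rfl | rfl | rfl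
  · exact key b (by simp [mem_tv]) hB.1
  · exact key c (by simp [mem_tv]) hB.2.1
  · exact key b (by simp [mem_tv]) (C.bA_symm _ _ hB.2.1)

variable (C) in
/-- the cherry `P` together with `u` absorbs every further neighbour -/
def XC (P : V × V × V) (u : V) : Prop :=
  ∀ F', C.Opt F' → P ∈ F' → u ∈ C.Free F' → ∀ v ∈ C.Free F', v ≠ u → ∀ z ∈ tv P, ¬ C.G.Adj v z

lemma Opt.cherry_bound {F : Finset (V × V × V)} (h : C.Opt F) {P : V × V × V} (hP : P ∈ F)
    {u : V} (hu : u ∈ C.Free F) {β : Type*} {A : V → V → Prop} {cl : V → V → β}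
    (hA : ∀ x y, A x y → A y x) (hcl : ∀ x y, cl x y = cl y x) (hAG : ∀ x y, A x y → C.G.Adj x y)
    (hPA : Ch A cl P) (p : ℤ)
    (hst : ∀ Q, Ch A cl Q → C.Val Q ∧ Q.1 ≠ Q.2.2 ∧ C.rho Q = 1 ∧ C.bet Q = 1 ∧ C.psi Q = p)
    (hGA : ∀ F', C.Opt F' → P ∈ F' → ∀ v ∈ C.Free F', ∀ z ∈ tv P, C.G.Adj v z → A v z) :
    ((tv P).filter (C.G.Adj u)).card ≤ ((tv P).filter (C.Sw F u)).card + 1 ∨
      (1 ≤ ((tv P).filter (C.Sw F u)).card ∧ C.XC P u) := by
  obtain ⟨-, -, b3, b4, b5⟩ := hst P hPA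
  have h1 : ((tv P).filter (C.G.Adj u)).card ≤ ((tv P).filter (A u)).card :=
    card_le_card fun z hz => mem_filter.2 ⟨(mem_filter.1 hz).1,
      hGA F h hP u hu z (mem_filter.1 hz).1 (mem_filter.1 hz).2⟩
  have h2 : ((tv P).filter (LSw A cl P u)).card ≤ ((tv P).filter (C.Sw F u)).card := by
    refine card_le_card fun y hy => mem_filter.2 ⟨(mem_filter.1 hy).1, ?_⟩
    obtain ⟨Q, q1, q2⟩ := (mem_filter.1 hy).2
    obtain ⟨a1, -, a3, a4, a5⟩ := hst Q q1
    exact h.sw hP hu (mem_filter.1 hy).1 a1 q2 (by omega) (by omega) (by omega)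
  rcases swap_count hA hcl (fun x hx => C.G.irrefl (hAG x x hx)) hPA
    ((mem_Free.1 hu).2 P hP) with h3 | ⟨h3, h4⟩
  · left; omega
  · refine Or.inr ⟨by omega, fun F' hF' hP' hu' v hv hvu z hz hvz => ?_⟩
    obtain ⟨Q, x, y, q1, q2, q3, q4, q5, q6, q7⟩ :=
      h4 v ((mem_Free.1 hv).2 P hP') hvu z hz (hGA F' hF' hP' v hv z hz hvz)
    obtain ⟨a1, -, a3, a4, a5⟩ := hst Q q1
    have k : ∀ w, (w = u ∨ w = v ∨ w ∈ tv P) → w ∈ C.Free F' ∨ w ∈ tv P := by
      rintro w (rfl | rfl | hw)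
      · exact Or.inl hu'
      · exact Or.inl hv
      · exact Or.inr hw
    have := hF'.move12 hP' a1 (hAG _ _ q2) q3 q4 (fun w hw => k w (q5 w hw)) (k x q6) (k y q7)
      (by omega) (by omega)
    omega

lemma Opt.slot_bound {F : Finset (V × V × V)} (h : C.Opt F) {P : V × V × V} (hP : P ∈ F)
    {u : V} (hu : u ∈ C.Free F) :
    (((tv P).filter (C.G.Adj u)).card : ℤ) ≤ ((tv P).filter (C.Sw F u)).card + ch P ∨
      (ch P = 1 ∧ 1 ≤ ((tv P).filter (C.Sw F u)).card ∧ C.XC P u) := by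
  have hV := (h.1.1.1 P hP).1
  by_cases e : P.1 = P.2.2
  · left
    obtain ⟨a, b, c⟩ := P
    simp only at e
    subst e
    have hab : C.G.Adj a b := hV.1
    have ht : tv (a, b, a) = {a, b} := by ext z; simp [tv]; tauto
    have s1 : C.G.Adj u a → C.Sw F u b := h.sw_single hP hu hab (by simp [ht]) rfl rfl (psi_sg _ _)
    have s2 : C.G.Adj u b → C.Sw F u a := h.sw_single hP hu hab.symm (by simp [ht]; tauto)
      (by rw [rho_sg, rho_sg, C.hc]) (by rw [bet_sg, bet_sg, C.hc]) (psi_sg _ _)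
    rw [ht, card_filter, card_filter, sum_pair hab.ne, sum_pair hab.ne]
    simp only [ch, if_true]
    by_cases h1 : C.G.Adj u a <;> by_cases h2 : C.G.Adj u b <;> simp [h1, h2, s1, s2] <;>
      positivity
  · have hch : ch P = 1 := by simp [ch, e]
    rw [hch]
    rcases hV.cases e with hh | hh
    · rcases h.cherry_bound hP hu (fun _ _ => SimpleGraph.Adj.symm) C.mc_symm (fun _ _ x => x) hh 3
        (fun Q => ch_RB) (fun _ _ _ _ _ _ _ x => x) with h1 | h1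
      · left; exact_mod_cast h1
      · exact Or.inr ⟨rfl, h1⟩
    · rcases h.cherry_bound hP hu C.bA_symm C.hc (fun _ _ x => x.1) hh (-1)
        (fun Q => ch_BB) (fun F' hF' hP' v hv z hz x => hF'.blue hP' hh hv hz x) with h1 | h1
      · left; exact_mod_cast h1
      · exact Or.inr ⟨rfl, h1⟩

end Ctx

end Pool.Agent.Lib.MP_22c8d1_co
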