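import Pool.Agent.Lib.MP_22c8d1_co.Value

set_option autoImplicit false
open Finset
open scoped Classical

namespace Pool.Agent.Lib.MP_22c8d1_co

variable {V : Type*}

/-- `F` is a matching of `G` with `s` edges -/
def MtM (G : SimpleGraph V) (s : ℕ) (F : Finset (Sym2 V)) : Prop :=
  (↑F : Set (Sym2 V)) ⊆ G.edgeSet ∧ F.card = s ∧ ∀ e ∈ F, ∀ f ∈ F, e ≠ f → ∀ v ∈ e, v ∉ f

/-- two-colourable with no `t`-matching in the first and no `k`-matching in the second colour -/
def TwoM (G : SimpleGraph V) (t k : ℕ) : Prop :=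
  ∃ c : Sym2 V → Bool, (∀ F, MtM G t F → ¬ ∀ e ∈ F, c e = false) ∧
    (∀ F, MtM G k F → ¬ ∀ e ∈ F, c e = true)

/-- colourable by residues modulo `k` with no zero-sum matching of size `t` -/
def ZM (G : SimpleGraph V) (t k : ℕ) : Prop :=
  ∃ c : Sym2 V → ZMod k, ∀ F, MtM G t F → ∑ e ∈ F, c e ≠ 0

lemma ZM.not_dense {G : SimpleGraph V} {t k : ℕ} (hk : 1 ≤ k) (ht : 1 ≤ t) (hd : k ∣ t)
    (h : ZM G t k) (U : Finset V) : ¬ Dense G U t k := by
  intro hD
  obtain ⟨c, hc⟩ := h
  have : NeZero k := ⟨by omega⟩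
  obtain ⟨M, m1, m2, m3⟩ := thmZ k hk (fun x y => ((c s(x, y)).val : ℤ))
    (fun x y => by rw [Sym2.eq_swap]) U t (by exact_mod_cast Nat.le_of_dvd ht hd)
    (by exact_mod_cast hd) hD
  have mem : ∀ (e : V × V) (v : V), v ∈ s(e.1, e.2) ↔ v ∈ ev e := fun e v => by
    rw [Sym2.mem_iff, mem_ev]
  have inj : Set.InjOn (fun e : V × V => s(e.1, e.2)) M := fun a ha b hb e =>
    m1.2.eq_of_mem ha hb (x := a.1) (by simp [ev]) ((mem b _).1 (by
      have e' : s(a.1, a.2) = s(b.1, b.2) := e
      rw [← e']; simp))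
  refine hc (M.image (fun e => s(e.1, e.2))) ⟨fun x hx => ?_,
    by rw [card_image_of_injOn inj]; omega, fun x hx y hy hne v h1 h2 => ?_⟩ ?_
  · obtain ⟨e, he, rfl⟩ := mem_image.1 hx
    exact (m1.1 e he).1
  · obtain ⟨e, he, rfl⟩ := mem_image.1 hx
    obtain ⟨f, hf, rfl⟩ := mem_image.1 hy
    exact hne (by rw [m1.2.eq_of_mem he hf ((mem _ _).1 h1) ((mem _ _).1 h2)])
  · rw [sum_image inj]
    have := (ZMod.intCast_zmod_eq_zero_iff_dvd _ k).2 m3
    push_cast at this
    simpa using this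

variable [Fintype V]

lemma gx_okM {A B C : Finset V} {t k : ℕ} (h1 : 2 * A.card + C.card < 2 * t) (h2 : B.card < k) :
    TwoM (GX A B C) t k := by
  have pd : ∀ {s : ℕ} {F : Finset (Sym2 V)}, MtM (GX A B C) s F →
      PD (fun e : Sym2 V => univ.filter (· ∈ e)) F := fun hF e he f hf hne =>
    Finset.disjoint_left.2 fun v h h' =>
      hF.2.2 e he f hf hne v (mem_filter.1 h).2 (mem_filter.1 h').2
  refine ⟨fun e => decide (∃ v ∈ e, v ∈ B), fun F hF hb => ?_, fun F hF hb => ?_⟩
  · have a1 : ∀ X : Finset V, ∑ e ∈ F, ((univ.filter (· ∈ e)).filter (· ∈ X)).card ≤ X.card :=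
      fun X => by
        rw [← (pd hF).card_filter]
        exact card_le_card fun _ h => (mem_filter.1 h).2
    have a2 : F.card * 2 ≤ ∑ e ∈ F, (2 * ((univ.filter (· ∈ e)).filter (· ∈ A)).card +
        ((univ.filter (· ∈ e)).filter (· ∈ C)).card) := by
      refine card_nsmul_le_sum F _ 2 fun e he => ?_
      have nb := of_decide_eq_false (hb e he)
      have ad := hF.1 he
      induction e using Sym2.ind with
      | _ x y =>
      obtain ⟨hxy, h⟩ : (GX A B C).Adj x y := ad
      rcases h with h | h | h | h | h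
      · have : 0 < ((univ.filter (· ∈ s(x, y))).filter (· ∈ A)).card :=
          card_pos.2 ⟨x, by simp [h]⟩
        omega
      · have : 0 < ((univ.filter (· ∈ s(x, y))).filter (· ∈ A)).card :=
          card_pos.2 ⟨y, by simp [h]⟩
        omega
      · exact absurd ⟨x, by simp, h⟩ nb
      · exact absurd ⟨y, by simp, h⟩ nb
      · have : 1 < ((univ.filter (· ∈ s(x, y))).filter (· ∈ C)).card :=
          one_lt_card.2 ⟨x, by simp [h.1], y, by simp [h.2], hxy⟩
        omega
    rw [sum_add_distrib, ← mul_sum] at a2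
    have := a1 A
    have := a1 C
    have := hF.2.1
    omega
  · have := (pd hF).card_hit' B
    rw [filter_true_of_mem (fun e he => by
      obtain ⟨v, v1, v2⟩ := of_decide_eq_true (hb e he)
      exact ⟨v, by simpa using v1, v2⟩)] at this
    have := hF.2.1
    omega

/-- the extremal value -/
def valM (n t k : ℕ) : ℕ :=
  if n + 2 ≤ 2 * t + k then n.choose 2 else
    max ((t + k - 2).choose 2 + (t + k - 2) * (n - (t + k - 2)))
      ((2 * t - 1).choose 2 + (k - 1).choose 2 + (k - 1) * (n - (k - 1)))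

lemma valM_a {n t k : ℕ} (hk : 1 ≤ k) (ht : 1 ≤ t) (h : ¬ n + 2 ≤ 2 * t + k) :
    2 * (((t + k - 2).choose 2 + (t + k - 2) * (n - (t + k - 2)) : ℕ) : ℤ) + n +
      ((n : ℤ) - 2 * t - k + 2 + t - 1) * (n - 2 * t - k + 2 + t) = n * n := by
  have := two_choose (t + k - 2)
  have e1 : ((t + k - 2 : ℕ) : ℤ) = t + k - 2 := by omega
  have e2 : ((n - (t + k - 2) : ℕ) : ℤ) = n - (t + k - 2) := by omega
  rw [e1] at this
  rw [Nat.cast_add, Nat.cast_mul, e1, e2]
  linarith

lemma valM_b {n t k : ℕ} (hk : 1 ≤ k) (ht : 1 ≤ t) (h : ¬ n + 2 ≤ 2 * t + k) :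
    2 * (((2 * t - 1).choose 2 + (k - 1).choose 2 + (k - 1) * (n - (k - 1)) : ℕ) : ℤ) + n +
      ((n : ℤ) - 2 * t - k + 2) * (4 * t - 3 + (n - 2 * t - k + 2)) = n * n := by
  have a1 := two_choose (2 * t - 1)
  have a2 := two_choose (k - 1)
  have e1 : ((2 * t - 1 : ℕ) : ℤ) = 2 * t - 1 := by omega
  have e3 : ((k - 1 : ℕ) : ℤ) = k - 1 := by omega
  have e2 : ((n - (k - 1) : ℕ) : ℤ) = n - (k - 1) := by omega
  rw [e1] at a1
  rw [e3] at a2
  rw [Nat.cast_add, Nat.cast_add, Nat.cast_mul, e3, e2]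
  linarith

theorem zm_le_val {G : SimpleGraph V} {t k : ℕ} (hk : 1 ≤ k) (ht : 1 ≤ t) (hd : k ∣ t)
    (h : ZM G t k) : G.edgeSet.ncard ≤ valM (Fintype.card V) t k := by
  have hD := h.not_dense hk ht hd univ
  have e : 2 * (G.edgeSet.ncard : ℤ) + miss2 G univ + Fintype.card V
      = Fintype.card V * Fintype.card V := by exact_mod_cast edge_count G
  unfold valM
  split_ifs with h1
  · have := two_choose (Fintype.card V)
    have h0 : (0 : ℤ) ≤ miss2 G univ := Int.natCast_nonneg _
    have : (G.edgeSet.ncard : ℤ) ≤ (Fintype.card V).choose 2 := by linarith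
    exact_mod_cast this
  · unfold Dense DN at hD
    rw [card_univ] at hD
    have a := valM_a hk ht h1
    have b := valM_b hk ht h1
    by_contra hc
    rw [not_le, max_lt_iff] at hc
    exact hD ⟨by omega, by omega, by omega⟩

theorem valM_attained {t k : ℕ} (hk : 1 ≤ k) (ht : 1 ≤ t) :
    ∃ G : SimpleGraph V, TwoM G t k ∧ valM (Fintype.card V) t k ≤ G.edgeSet.ncard := by
  have e : ∀ G : SimpleGraph V, 2 * (G.edgeSet.ncard : ℤ) + miss2 G univ + Fintype.card V
      = Fintype.card V * Fintype.card V := fun G => by exact_mod_cast edge_count G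
  have cs : ∀ X : Finset V, (univ \ X).card + X.card = Fintype.card V := fun X =>
    card_sdiff_add_card_eq_card (subset_univ X)
  have cu : (univ : Finset V).card = Fintype.card V := rfl
  unfold valM
  split_ifs with h1
  · obtain ⟨B, -, hB⟩ := exists_subset_card_eq (s := (univ : Finset V))
      (n := min (k - 1) (univ : Finset V).card) (min_le_right _ _)
    have := cs B
    refine ⟨GX ∅ B (univ \ B), gx_okM (by simp only [card_empty]; omega) (by omega), ?_⟩
    have h2 := gx_miss ∅ B (univ \ B)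
    rw [empty_union, Finset.sdiff_self] at h2
    simp only [card_empty, Nat.cast_zero, mul_zero, zero_mul, add_zero] at h2
    have h3 := two_choose (Fintype.card V)
    have h4 := e (GX ∅ B (univ \ B))
    have : ((Fintype.card V).choose 2 : ℤ) ≤ (GX ∅ B (univ \ B)).edgeSet.ncard := by linarith
    exact_mod_cast this
  obtain ⟨B, -, hB⟩ := exists_subset_card_eq (s := (univ : Finset V)) (n := k - 1) (by omega)
  have cB := cs B
  have a := valM_a hk ht h1
  have b := valM_b hk ht h1
  rcases le_total ((2 * t - 1).choose 2 + (k - 1).choose 2 + (k - 1) * (Fintype.card V - (k - 1)))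
    ((t + k - 2).choose 2 + (t + k - 2) * (Fintype.card V - (t + k - 2))) with h | h
  · rw [max_eq_left h]
    obtain ⟨A, a1, hA⟩ := exists_subset_card_eq (s := univ \ B) (n := t - 1) (by omega)
    refine ⟨GX A B ∅, gx_okM (by simp only [card_empty]; omega) (by omega), ?_⟩
    have h4 := gx_miss A B ∅
    have h5 := cs (A ∪ B)
    rw [card_union_of_disjoint (Finset.disjoint_left.2 fun x hx => (mem_sdiff.1 (a1 hx)).2)] at h5
    rw [sdiff_empty, card_empty] at h4
    have h6 : ((univ \ (A ∪ B)).card : ℤ) = Fintype.card V - 2 * t - k + 2 + t := by omega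
    rw [h6, Nat.cast_zero, zero_mul, zero_add, mul_comm] at h4
    have := e (GX A B ∅)
    omega
  · rw [max_eq_right h]
    obtain ⟨C, c1, hC⟩ := exists_subset_card_eq (s := univ \ B) (n := 2 * t - 1) (by omega)
    refine ⟨GX ∅ B C, gx_okM (by simp only [card_empty]; omega) (by omega), ?_⟩
    have h4 := gx_miss ∅ B C
    rw [empty_union] at h4
    have h5 := card_sdiff_add_card_eq_card c1
    have h6 : (((univ \ B) \ C).card : ℤ) = Fintype.card V - 2 * t - k + 2 := by omega
    have h7 : ((univ \ B).card : ℤ) = Fintype.card V - k + 1 := by omega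
    have h8 : (C.card : ℤ) = 2 * t - 1 := by omega
    rw [h6, h7, h8] at h4
    have h9 : (miss2 (GX ∅ B C) univ : ℤ) ≤ ((Fintype.card V : ℤ) - 2 * t - k + 2) *
        (4 * t - 3 + (Fintype.card V - 2 * t - k + 2)) := h4.trans (le_of_eq (by ring))
    have := e (GX ∅ B C)
    omega

end Pool.Agent.Lib.MP_22c8d1_co
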