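import Pool.Agent.Lib.MP_22c8d1_co.Local

set_option autoImplicit false
open Finset
open scoped Classical

namespace Pool.Agent.Lib.MP_22c8d1_co

/-- data of a packing problem -/
structure Ctx (V α : Type*) where
  G : SimpleGraph V
  col : V → V → α
  R : α → Prop
  U : Finset V
  r1 : ℤ
  b1 : ℤ
  hc : ∀ x y, col x y = col y x
  hR : ∀ a b, R a → R b → a = b

variable {V α : Type*}

noncomputable def ch (s : V × V × V) : ℤ := if s.1 = s.2.2 then 0 else 1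

lemma tv_nonempty (s : V × V × V) : (tv s).Nonempty := ⟨s.1, by simp [tv]⟩

namespace Ctx
variable (C : Ctx V α)

def Val (s : V × V × V) : Prop :=
  C.G.Adj s.1 s.2.1 ∧ C.G.Adj s.2.1 s.2.2 ∧ (s.1 ≠ s.2.2 → C.col s.1 s.2.1 ≠ C.col s.2.1 s.2.2)

def Pk (F : Finset (V × V × V)) : Prop := (∀ s ∈ F, C.Val s ∧ tv s ⊆ C.U) ∧ PD tv F

noncomputable def rho (s : V × V × V) : ℤ :=
  if s.1 = s.2.2 then (if C.R (C.col s.1 s.2.1) then 1 else 0) else 1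

noncomputable def bet (s : V × V × V) : ℤ :=
  if s.1 = s.2.2 then (if C.R (C.col s.1 s.2.1) then 0 else 1) else 1

noncomputable def psi (s : V × V × V) : ℤ :=
  if s.1 = s.2.2 then 1 else
    if C.R (C.col s.1 s.2.1) ∨ C.R (C.col s.2.1 s.2.2) then 3 else -1

def Feas (F : Finset (V × V × V)) : Prop :=
  C.Pk F ∧ C.r1 ≤ ∑ s ∈ F, C.rho s ∧ C.b1 ≤ ∑ s ∈ F, C.bet s

def Opt (F : Finset (V × V × V)) : Prop :=
  C.Feas F ∧ ∀ F', C.Feas F' → ∑ s ∈ F', C.psi s ≤ ∑ s ∈ F, C.psi s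

noncomputable def Free (F : Finset (V × V × V)) : Finset V := C.U \ VV tv F

variable {C}

lemma Val.card {s : V × V × V} (h : C.Val s) : ((tv s).card : ℤ) = 2 + ch s := by
  obtain ⟨a, b, c⟩ := s
  have hab : a ≠ b := h.1.ne
  have hbc : b ≠ c := h.2.1.ne
  by_cases e : a = c
  · subst e
    have : tv (a, b, a) = {a, b} := by ext z; simp [tv]; tauto
    rw [this, card_pair hab]; simp [ch]
  · have := card_filter_tv hab hbc e (fun _ => True)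
    simp only [filter_true, if_true] at this
    rw [this]; simp [ch, e]

lemma mem_Free {F : Finset (V × V × V)} {x : V} :
    x ∈ C.Free F ↔ x ∈ C.U ∧ ∀ s ∈ F, x ∉ tv s := by
  simp [Free, mem_VV]

lemma Pk.VV_sub {F : Finset (V × V × V)} (h : C.Pk F) : VV tv F ⊆ C.U := by
  intro x hx
  obtain ⟨s, hs, hx⟩ := mem_VV.1 hx
  exact (h.1 s hs).2 hx

lemma Pk.card_U {F : Finset (V × V × V)} (h : C.Pk F) :
    (C.U.card : ℤ) = (C.Free F).card + 2 * F.card + ∑ s ∈ F, ch s := by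
  have h1 : (C.Free F).card + (VV tv F).card = C.U.card := card_sdiff_add_card_eq_card h.VV_sub
  have h2 : ((VV tv F).card : ℤ) = ∑ s ∈ F, (2 + ch s) := by
    rw [h.2.card_VV]; push_cast
    exact sum_congr rfl fun s hs => (h.1 s hs).1.card
  rw [sum_add_distrib, sum_const, nsmul_eq_mul] at h2
  omega

lemma exists_opt {F0 : Finset (V × V × V)} (h : C.Feas F0) : ∃ F, C.Opt F := by
  have key : ∀ F, C.Feas F → F ∈ ((C.U ×ˢ C.U ×ˢ C.U).powerset.filter C.Feas) := by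
    intro F hF
    refine mem_filter.2 ⟨mem_powerset.2 fun s hs => ?_, hF⟩
    have := (hF.1.1 s hs).2
    simp only [mem_product]
    exact ⟨this (by simp [tv]), this (by simp [tv]), this (by simp [tv])⟩
  obtain ⟨F, hF, hmax⟩ := exists_max_image _ (fun F => ∑ s ∈ F, C.psi s) ⟨F0, key F0 h⟩
  exact ⟨F, (mem_filter.1 hF).2, fun F' hF' => hmax F' (key F' hF')⟩

lemma Pk.replace {F A B : Finset (V × V × V)} (h : C.Pk F) (hA : A ⊆ F)
    (hB : ∀ s ∈ B, C.Val s) (hB2 : PD tv B)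
    (hB3 : ∀ s ∈ B, ∀ z ∈ tv s, z ∈ C.Free F ∨ ∃ t ∈ A, z ∈ tv t) :
    C.Pk ((F \ A) ∪ B) ∧ ∀ f : V × V × V → ℤ,
      ∑ s ∈ (F \ A) ∪ B, f s = ∑ s ∈ F, f s - ∑ s ∈ A, f s + ∑ s ∈ B, f s := by
  have hd : ∀ s ∈ F \ A, ∀ t ∈ B, Disjoint (tv s) (tv t) := by
    intro s hs t ht
    refine Finset.disjoint_left.2 fun z hzs hzt => ?_
    rcases hB3 t ht z hzt with h1 | ⟨r, hr, hz⟩
    · exact (mem_Free.1 h1).2 s (mem_sdiff.1 hs).1 hzs
    · have := h.2.eq_of_mem (mem_sdiff.1 hs).1 (hA hr) hzs hz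
      exact (mem_sdiff.1 hs).2 (this ▸ hr)
  refine ⟨⟨fun s hs => ?_, (h.2.mono sdiff_subset).union hB2 hd⟩, fun f => ?_⟩
  · rcases mem_union.1 hs with hs | hs
    · exact h.1 s (mem_sdiff.1 hs).1
    · refine ⟨hB s hs, fun z hz => ?_⟩
      rcases hB3 s hs z hz with h1 | ⟨r, hr, hz⟩
      · exact (mem_Free.1 h1).1
      · exact (h.1 r (hA hr)).2 hz
  · rw [sum_union (disjoint_of_vs (fun s _ => tv_nonempty s) hd), ← sum_sdiff hA]; ring

lemma Opt.move {F A B : Finset (V × V × V)} (h : C.Opt F) (hA : A ⊆ F)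
    (hB : ∀ s ∈ B, C.Val s) (hB2 : PD tv B)
    (hB3 : ∀ s ∈ B, ∀ z ∈ tv s, z ∈ C.Free F ∨ ∃ t ∈ A, z ∈ tv t)
    (hr : C.r1 ≤ ∑ s ∈ F, C.rho s - ∑ s ∈ A, C.rho s + ∑ s ∈ B, C.rho s)
    (hb : C.b1 ≤ ∑ s ∈ F, C.bet s - ∑ s ∈ A, C.bet s + ∑ s ∈ B, C.bet s) :
    ∑ s ∈ B, C.psi s ≤ ∑ s ∈ A, C.psi s ∧
      (∑ s ∈ B, C.psi s = ∑ s ∈ A, C.psi s → C.Opt ((F \ A) ∪ B)) := by
  obtain ⟨h1, h2⟩ := h.1.1.replace hA hB hB2 hB3
  have hf : C.Feas ((F \ A) ∪ B) := ⟨h1, by rw [h2]; exact hr, by rw [h2]; exact hb⟩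
  have := h.2 _ hf
  rw [h2] at this
  refine ⟨by linarith, fun e => ⟨hf, fun F' hF' => ?_⟩⟩
  rw [h2]; have := h.2 F' hF'; linarith

lemma Opt.move' {F A B : Finset (V × V × V)} (h : C.Opt F) (hA : A ⊆ F)
    (hB : ∀ s ∈ B, C.Val s) (hB2 : PD tv B)
    (hB3 : ∀ s ∈ B, ∀ z ∈ tv s, z ∈ C.Free F ∨ ∃ t ∈ A, z ∈ tv t)
    (hr : ∑ s ∈ A, C.rho s ≤ ∑ s ∈ B, C.rho s) (hb : ∑ s ∈ A, C.bet s ≤ ∑ s ∈ B, C.bet s) :
    ∑ s ∈ B, C.psi s ≤ ∑ s ∈ A, C.psi s ∧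
      (∑ s ∈ B, C.psi s = ∑ s ∈ A, C.psi s → C.Opt ((F \ A) ∪ B)) :=
  h.move hA hB hB2 hB3 (by have := h.1.2.1; linarith) (by have := h.1.2.2; linarith)

end Ctx

lemma PD_single {σ : Type*} (vs : σ → Finset V) (s : σ) : PD vs {s} := by
  intro a ha b hb hne
  rw [mem_singleton] at ha hb
  exact absurd (ha.trans hb.symm) hne

lemma PD_pair {σ : Type*} [DecidableEq σ] {vs : σ → Finset V} {s t : σ} (h : Disjoint (vs s) (vs t)) :
    PD vs {s, t} := by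
  intro a ha b hb hne
  simp only [mem_insert, mem_singleton] at ha hb
  rcases ha with rfl | rfl <;> rcases hb with rfl | rfl
  · exact absurd rfl hne
  · exact h
  · exact h.symm
  · exact absurd rfl hne

lemma ne_of_disj {s t : V × V × V} (h : Disjoint (tv s) (tv t)) : s ≠ t := by
  rintro rfl
  obtain ⟨x, hx⟩ := tv_nonempty s
  exact Finset.disjoint_left.1 h hx hx

end Pool.Agent.Lib.MP_22c8d1_co
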