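import Pool.Agent.Lib.MP_22c8d1_co.Tight

set_option autoImplicit false
open Finset
open scoped Classical

namespace Pool.Agent.Lib.MP_22c8d1_co

variable {V α : Type*}

noncomputable def ev (e : V × V) : Finset V := {e.1, e.2}

noncomputable def qv (s : (V × V) × (V × V)) : Finset V := ev s.1 ∪ ev s.2

lemma mem_ev {e : V × V} {z : V} : z ∈ ev e ↔ z = e.1 ∨ z = e.2 := by simp [ev]

lemma ev_nonempty (e : V × V) : (ev e).Nonempty := ⟨e.1, by simp [ev]⟩

lemma card_ev_le (e : V × V) : (ev e).card ≤ 2 := card_le_two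

/-- a matching inside `U` -/
def IsM (A : V → V → Prop) (U : Finset V) (M : Finset (V × V)) : Prop :=
  (∀ e ∈ M, A e.1 e.2 ∧ ev e ⊆ U) ∧ PD ev M

/-- a family of disjoint slots, each with two edges -/
def IsS (A : V → V → Prop) (U : Finset V) (S : Finset ((V × V) × (V × V))) : Prop :=
  (∀ s ∈ S, A s.1.1 s.1.2 ∧ A s.2.1 s.2.2 ∧ qv s ⊆ U) ∧ PD qv S

def Sys (A : V → V → Prop) (col : V → V → α) (U : Finset V) (k l : ℤ) : Prop :=
  ∃ S, IsS A U S ∧ (S.card : ℤ) = k ∧
    l - 1 ≤ (S.filter (fun s => col s.1.1 s.1.2 ≠ col s.2.1 s.2.2)).card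

lemma pairing {τ : Type*} (f : τ → α) (m : ℕ) : ∀ E : Finset τ, 2 * m ≤ E.card →
    (∀ δ, m ≤ (E.filter (fun e => f e ≠ δ)).card) →
    ∃ P : Finset (τ × τ), P.card = m ∧ (∀ p ∈ P, p.1 ∈ E ∧ p.2 ∈ E ∧ f p.1 ≠ f p.2) ∧ PD ev P := by
  induction m with
  | zero => intro E _ _; exact ⟨∅, rfl, by simp, by simp [PD]⟩
  | succ m ih =>
    intro E h1 h2
    obtain ⟨a, ha, amax⟩ := exists_max_image E (fun e => (E.filter (fun x => f x = f e)).card)
      (card_pos.1 (by omega))
    obtain ⟨b, hb, bmax⟩ := exists_max_image (E.filter (fun x => f x ≠ f a))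
      (fun e => (E.filter (fun x => f x = f e)).card) (card_pos.1 (by have := h2 (f a); omega))
    obtain ⟨hbE, hba⟩ := mem_filter.1 hb
    have hab : b ≠ a := fun e => hba (by rw [e])
    have hb' : b ∈ E.erase a := mem_erase.2 ⟨hab, hbE⟩
    have c1 := card_erase_add_one ha
    have c2 := card_erase_add_one hb'
    obtain ⟨P, p1, p2, p3⟩ := ih ((E.erase a).erase b) (by omega) (fun δ => by
      have k := h2 δ
      rw [filter_erase, filter_erase]
      have e1 := pred_card_le_card_erase (s := E.filter (fun e => f e ≠ δ)) (a := a)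
      have e2 := pred_card_le_card_erase (s := (E.filter (fun e => f e ≠ δ)).erase a) (a := b)
      by_cases d1 : f a = δ
      · have : (E.filter (fun e => f e ≠ δ)).erase a = E.filter (fun e => f e ≠ δ) :=
          erase_eq_of_notMem (fun h => (mem_filter.1 h).2 d1)
        rw [this] at e2 ⊢
        omega
      by_cases d2 : f b = δ
      · have : ((E.filter (fun e => f e ≠ δ)).erase a).erase b
            = (E.filter (fun e => f e ≠ δ)).erase a :=
          erase_eq_of_notMem (fun h => (mem_filter.1 (mem_erase.1 h).2).2 d2)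
        rw [this]
        omega
      have s1 := card_filter_add_card_filter_not (s := E) (fun x => f x = δ)
      have s2 : (E.filter (fun x => f x = f a)).card + (E.filter (fun x => f x = f b)).card
          ≤ (E.filter (fun e => f e ≠ δ)).card := by
        rw [← card_union_of_disjoint (Finset.disjoint_left.2 fun x hx hx' =>
          hba ((mem_filter.1 hx').2.symm.trans (mem_filter.1 hx).2))]
        refine card_le_card fun x hx => ?_
        rcases mem_union.1 hx with hx | hx
        · exact mem_filter.2 ⟨(mem_filter.1 hx).1, by rw [(mem_filter.1 hx).2]; exact d1⟩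
        · exact mem_filter.2 ⟨(mem_filter.1 hx).1, by rw [(mem_filter.1 hx).2]; exact d2⟩
      have s3 := amax b hbE
      have s4 : (E.filter (fun x => f x = δ)).card ≤ (E.filter (fun x => f x = f b)).card := by
        rcases (E.filter (fun x => f x = δ)).eq_empty_or_nonempty with h | ⟨c, hc⟩
        · rw [h]; exact Nat.zero_le _
        · obtain ⟨hc1, rfl⟩ := mem_filter.1 hc
          exact bmax c (mem_filter.2 ⟨hc1, fun e => d1 e.symm⟩)
      have s5 : (E.filter (fun x => ¬ f x = δ)).card = (E.filter (fun e => f e ≠ δ)).card := rfl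
      omega)
    have hn : (a, b) ∉ P := fun h => (mem_erase.1 (mem_erase.1 (p2 _ h).1).2).1 rfl
    refine ⟨insert (a, b) P, by rw [card_insert_of_notMem hn, p1], fun p hp => ?_, ?_⟩
    · rcases mem_insert.1 hp with rfl | hp
      · exact ⟨ha, hbE, hba.symm⟩
      · obtain ⟨q1, q2, q3⟩ := p2 p hp
        exact ⟨(mem_erase.1 (mem_erase.1 q1).2).2, (mem_erase.1 (mem_erase.1 q2).2).2, q3⟩
    · rw [insert_eq]
      refine (PD_single _ _).union p3 fun s hs t ht => ?_
      rw [mem_singleton.1 hs]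
      obtain ⟨q1, q2, -⟩ := p2 t ht
      simp only [mem_erase] at q1 q2
      refine Finset.disjoint_left.2 fun z hz hz' => ?_
      rcases mem_ev.1 hz with rfl | rfl <;> rcases mem_ev.1 hz' with h | h
      · exact q1.2.1 h.symm
      · exact q2.2.1 h.symm
      · exact q1.1 h.symm
      · exact q2.1 h.symm

lemma PD_diag {τ : Type*} [DecidableEq (τ × τ)] (E : Finset τ) :
    PD ev (E.image (fun e => (e, e))) := by
  intro a ha b hb hne
  obtain ⟨s, -, rfl⟩ := mem_image.1 ha
  obtain ⟨t, -, rfl⟩ := mem_image.1 hb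
  refine Finset.disjoint_left.2 fun z hz hz' => hne ?_
  simp only [mem_ev, or_self] at hz hz'
  rw [← hz, ← hz']

namespace Ctx
variable {C : Ctx V α}

lemma Pk.groups {F : Finset (V × V × V)} (h : C.Pk F) {Γ : Finset ((V × V × V) × (V × V × V))}
    (h1 : ∀ p ∈ Γ, p.1 ∈ F ∧ p.2 ∈ F) (h2 : PD ev Γ) (k l : ℤ) (hk : (Γ.card : ℤ) = k)
    (hl : l - 1 ≤ (Γ.filter (fun p => C.col p.1.1 p.1.2.1 ≠ C.col p.2.2.1 p.2.2.2)).card) :
    Sys C.G.Adj C.col C.U k l := by
  let g : (V × V × V) × (V × V × V) → (V × V) × (V × V) :=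
    fun p => ((p.1.1, p.1.2.1), (p.2.2.1, p.2.2.2))
  have hsub : ∀ p ∈ Γ, qv (g p) ⊆ tv p.1 ∪ tv p.2 := by
    intro p _ z hz
    simp only [qv, g, mem_union, mem_ev] at hz
    rcases hz with (rfl | rfl) | (rfl | rfl) <;> simp [tv]
  have pd : PD (fun p : (V × V × V) × (V × V × V) => tv p.1 ∪ tv p.2) Γ := by
    refine PD_iff.2 fun s hs t ht x hx hx' => ?_
    obtain ⟨s1, s2⟩ := h1 s hs
    obtain ⟨t1, t2⟩ := h1 t ht
    rcases mem_union.1 hx with hx | hx <;> rcases mem_union.1 hx' with hx' | hx'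
    · exact h2.eq_of_mem hs ht (x := s.1) (by simp [ev]) (by simp [ev, h.2.eq_of_mem s1 t1 hx hx'])
    · exact h2.eq_of_mem hs ht (x := s.1) (by simp [ev]) (by simp [ev, h.2.eq_of_mem s1 t2 hx hx'])
    · exact h2.eq_of_mem hs ht (x := s.2) (by simp [ev]) (by simp [ev, h.2.eq_of_mem s2 t1 hx hx'])
    · exact h2.eq_of_mem hs ht (x := s.2) (by simp [ev]) (by simp [ev, h.2.eq_of_mem s2 t2 hx hx'])
  have inj : Set.InjOn g Γ := pd.injOn g hsub (fun p _ => ⟨p.1.1, by simp [qv, ev, g]⟩)
  refine ⟨Γ.image g, ⟨fun s hs => ?_, pd.image g hsub⟩, by rw [card_image_of_injOn inj, hk], ?_⟩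
  · obtain ⟨p, hp, rfl⟩ := mem_image.1 hs
    obtain ⟨s1, s2⟩ := h1 p hp
    exact ⟨(h.1 _ s1).1.1, (h.1 _ s2).1.2.1,
      (hsub p hp).trans (union_subset (h.1 _ s1).2 (h.1 _ s2).2)⟩
  · rw [filter_image, card_image_of_injOn (inj.mono (by intro x hx; exact (mem_filter.1 hx).1))]
    exact hl

theorem Pk.sys {F : Finset (V × V × V)} (h : C.Pk F) {k l : ℤ} (hlk : l ≤ k)
    (ht : ∑ s ∈ F, ch s ≤ l - 1) (hw : k + l - 1 ≤ (F.card : ℤ) + ∑ s ∈ F, ch s)
    (hδ : ∀ δ, l - 1 ≤ ∑ s ∈ F, ch s +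
      (F.filter (fun s => ch s = 0 ∧ C.col s.1 s.2.1 ≠ δ)).card) :
    Sys C.G.Adj C.col C.U k l := by
  set S := F.filter (fun s => ch s = 0) with hS
  set T := F.filter (fun s => ¬ ch s = 0) with hT
  have hST : S.card + T.card = F.card := card_filter_add_card_filter_not _
  have ht' : ∑ s ∈ F, ch s = T.card := sum_ch F
  obtain ⟨P, p1, p2, p3⟩ := pairing (fun s : V × V × V => C.col s.1 s.2.1) (l - 1 - T.card).toNat S
    (by omega) (fun δ => by
      have := hδ δ
      rw [← filter_filter, ← hS] at this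
      omega)
  have cP : (VV ev P).card ≤ 2 * P.card := by
    refine card_VV_le.trans ?_
    have := sum_le_card_nsmul P (fun p => (ev p).card) 2 (fun p _ => card_ev_le p)
    simpa [mul_comm] using this
  have cS : S.card ≤ (S \ VV ev P).card + (VV ev P).card := card_le_card_sdiff_add_card
  obtain ⟨E, e1, e2⟩ := exists_subset_card_eq (s := S \ VV ev P) (n := (k - l + 1).toNat)
    (by omega)
  have dTE : Disjoint T E := Finset.disjoint_left.2 fun x hx hx' =>
    (mem_filter.1 hx).2 (mem_filter.1 (mem_sdiff.1 (e1 hx')).1).2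
  have hd : ∀ s ∈ P, ∀ t ∈ (T ∪ E).image (fun e => (e, e)), Disjoint (ev s) (ev t) := by
    intro s hs t ht
    obtain ⟨x, hx, rfl⟩ := mem_image.1 ht
    refine Finset.disjoint_left.2 fun z hz hz' => ?_
    simp only [mem_ev, or_self] at hz'
    subst hz'
    rcases mem_union.1 hx with hx | hx
    · refine (mem_filter.1 hx).2 ?_
      rcases mem_ev.1 hz with e | e
      · rw [e]; exact (mem_filter.1 (p2 s hs).1).2
      · rw [e]; exact (mem_filter.1 (p2 s hs).2.1).2
    · exact (mem_sdiff.1 (e1 hx)).2 (mem_VV.2 ⟨s, hs, hz⟩)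
  have hd' := disjoint_of_vs (fun s _ => ev_nonempty s) hd
  have inj : Function.Injective (fun e : V × V × V => (e, e)) := fun a b e => (Prod.ext_iff.1 e).1
  refine h.groups (Γ := P ∪ (T ∪ E).image (fun e => (e, e))) (fun p hp => ?_)
    (p3.union (PD_diag _) hd) k l ?_ ?_
  · rcases mem_union.1 hp with hp | hp
    · exact ⟨(mem_filter.1 (p2 p hp).1).1, (mem_filter.1 (p2 p hp).2.1).1⟩
    · obtain ⟨x, hx, rfl⟩ := mem_image.1 hp
      have : x ∈ F := by
        rcases mem_union.1 hx with hx | hx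
        · exact (mem_filter.1 hx).1
        · exact (mem_filter.1 (mem_sdiff.1 (e1 hx)).1).1
      exact ⟨this, this⟩
  · rw [card_union_of_disjoint hd', card_image_of_injective _ inj, card_union_of_disjoint dTE]
    omega
  · have : P ∪ T.image (fun e => (e, e)) ⊆ (P ∪ (T ∪ E).image (fun e => (e, e))).filter
        (fun p => C.col p.1.1 p.1.2.1 ≠ C.col p.2.2.1 p.2.2.2) := by
      intro p hp
      rcases mem_union.1 hp with hp | hp
      · refine mem_filter.2 ⟨mem_union_left _ hp, ?_⟩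
        obtain ⟨q1, q2, q3⟩ := p2 p hp
        obtain ⟨x, y, e⟩ := ch_zero (mem_filter.1 q2).2
        rw [e] at q3 ⊢
        rw [C.hc y x]; exact q3
      · obtain ⟨x, hx, rfl⟩ := mem_image.1 hp
        exact mem_filter.2 ⟨mem_union_right _ (mem_image_of_mem _ (mem_union_left _ hx)),
          (h.1 x (mem_filter.1 hx).1).1.2.2 (ch_ne (mem_filter.1 hx).2)⟩
    have c := card_le_card this
    rw [card_union_of_disjoint (disjoint_of_subset_right (image_subset_image subset_union_left) hd'),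
      card_image_of_injective _ inj] at c
    omega

end Ctx

end Pool.Agent.Lib.MP_22c8d1_co
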