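import Pool.Agent.Lib.MP_22c8d1_co.Init

set_option autoImplicit false
open Finset
open scoped Classical

namespace Pool.Agent.Lib.MP_22c8d1_co

variable {V α : Type*}

namespace Ctx
variable {C : Ctx V α}

lemma sum_rho (F : Finset (V × V × V)) : ∑ s ∈ F, C.rho s =
    ∑ s ∈ F, ch s + (F.filter (fun s => ch s = 0 ∧ C.R (C.col s.1 s.2.1))).card := by
  rw [card_filter]; push_cast; rw [← sum_add_distrib]
  refine sum_congr rfl fun s _ => ?_
  unfold rho ch
  by_cases h : s.1 = s.2.2 <;> simp [h]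

lemma sum_bet (F : Finset (V × V × V)) : ∑ s ∈ F, C.bet s =
    ∑ s ∈ F, ch s + (F.filter (fun s => ch s = 0 ∧ ¬ C.R (C.col s.1 s.2.1))).card := by
  rw [card_filter]; push_cast; rw [← sum_add_distrib]
  refine sum_congr rfl fun s _ => ?_
  unfold bet ch
  by_cases h : s.1 = s.2.2 <;> simp [h]

lemma sum_w (F : Finset (V × V × V)) :
    ∑ s ∈ F, C.rho s + ∑ s ∈ F, C.bet s = F.card + ∑ s ∈ F, ch s := by
  rw [← sum_add_distrib, sum_congr rfl (fun s _ => C.rho_add_bet s), sum_add_distrib]; simp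

lemma Opt.drop {F : Finset (V × V × V)} (h : C.Opt F) (hb : C.b1 ≤ 0)
    (hr : C.r1 + 1 ≤ ∑ s ∈ F, C.rho s) {P : V × V × V} (hP : P ∈ F) : 0 ≤ C.psi P := by
  have := (h.move (A := {P}) (B := ∅) (singleton_subset_iff.2 hP) (by simp) (by simp [PD]) (by simp)
    (by have := C.rho_le P; simp only [sum_singleton, sum_empty]; omega)
    (by have := single_le_sum (fun s _ => C.bet_nonneg s) hP
        simp only [sum_singleton, sum_empty]; omega)).1
  simpa using this

lemma Pk.red {F : Finset (V × V × V)} (h : C.Pk F) (hp : ∀ P ∈ F, 0 ≤ C.psi P) :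
    ∃ M, IsM C.G.Adj C.U M ∧ (M.card : ℤ) = ∑ s ∈ F, C.rho s ∧ ∀ e ∈ M, C.R (C.col e.1 e.2) := by
  let g : V × V × V → V × V := fun s =>
    if C.R (C.col s.1 s.2.1) then (s.1, s.2.1) else (s.2.1, s.2.2)
  set F' := F.filter (fun s => C.rho s = 1) with hF'
  have pd : PD tv F' := h.2.mono (filter_subset _ _)
  have hs : ∀ s ∈ F', ev (g s) ⊆ tv s := by
    intro s _ z hz
    simp only [g] at hz
    split_ifs at hz <;> rcases mem_ev.1 hz with rfl | rfl <;> simp [tv]
  have inj := pd.injOn g hs (fun _ _ => ev_nonempty _)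
  refine ⟨F'.image g, ⟨fun e he => ?_, pd.image g hs⟩, ?_, fun e he => ?_⟩
  · obtain ⟨s, hs', rfl⟩ := mem_image.1 he
    have := h.1 s (mem_filter.1 hs').1
    refine ⟨?_, (hs s hs').trans this.2⟩
    simp only [g]
    split_ifs
    · exact this.1.1
    · exact this.1.2.1
  · rw [card_image_of_injOn inj, hF', card_filter]; push_cast
    refine sum_congr rfl fun s _ => ?_
    have := C.rho_nonneg s; have := C.rho_le s
    split_ifs <;> omega
  · obtain ⟨s, hs', rfl⟩ := mem_image.1 he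
    have h1 := (mem_filter.1 hs').2
    have h2 := hp s (mem_filter.1 hs').1
    simp only [g]
    unfold rho at h1
    unfold psi at h2
    split_ifs with r
    · exact r
    · by_contra r'
      by_cases e : s.1 = s.2.2 <;> simp [e, r] at h1 h2
      · simp [← e, r] at h1
      · simp [r'] at h2

lemma cls_mc {F T : Finset (V × V × V)} (e : V × V × V) {m : ℤ} (h1 : ∑ s ∈ F, C.rho s ≤ m)
    (h2 : ∑ s ∈ F, C.bet s ≤ m)
    (h : ∀ s ∈ T, s ∈ F ∧ ch s = 0 ∧ C.mc s.1 s.2.1 = C.mc e.1 e.2.1) :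
    ∑ s ∈ F, ch s + T.card ≤ m := by
  have sr := C.sum_rho F
  have sb := C.sum_bet F
  by_cases r : C.mc e.1 e.2.1
  · have := card_le_card (s := T) (t := F.filter (fun s => ch s = 0 ∧ C.R (C.col s.1 s.2.1)))
      (fun s hs => mem_filter.2 ⟨(h s hs).1, (h s hs).2.1, cast (h s hs).2.2.symm r⟩)
    omega
  · have := card_le_card (s := T) (t := F.filter (fun s => ch s = 0 ∧ ¬ C.R (C.col s.1 s.2.1)))
      (fun s hs => mem_filter.2 ⟨(h s hs).1, (h s hs).2.1, fun x => r (cast (h s hs).2.2 x)⟩)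
    omega

end Ctx

/-- the context with red colour `γ` -/
def cx (G : SimpleGraph V) (col : V → V → α) (hc : ∀ x y, col x y = col y x) (U : Finset V)
    (γ : Option α) (r b : ℤ) : Ctx V α :=
  ⟨G, col, fun a => γ = some a, U, r, b, hc, fun a b h1 h2 => by
    rw [h1] at h2; exact Option.some.inj h2⟩

section
variable {G : SimpleGraph V} {col : V → V → α} (hc : ∀ x y, col x y = col y x) {U : Finset V}
  {k l : ℤ} (hl : 1 ≤ l) (hlk : l ≤ k) (hD : Dense G U k l) (hmin : ∀ x ∈ U, l - 1 ≤ deg G U x)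
include hc hl hlk hD hmin

lemma caseE {F0 : Finset (V × V × V)} (h0 : (cx G col hc U none 0 0).Pk F0)
    (ht : l - 1 ≤ ∑ s ∈ F0, ch s) : Sys G.Adj col U k l := by
  set C := cx G col hc U none (l - 1) 0 with hC
  have hr : ∀ F : Finset (V × V × V), ∑ s ∈ F, C.rho s = ∑ s ∈ F, ch s := fun F => by
    rw [Ctx.sum_rho]; simp [hC, cx]
  obtain ⟨F, hF, h⟩ := Ctx.lemmaK (C := C) hD hmin (F0 := F0)
    ⟨h0, by rw [hr]; exact ht, sum_nonneg fun s _ => C.bet_nonneg s⟩
  have t1 : l - 1 ≤ ∑ s ∈ F, ch s := hr F ▸ hF.1.2.1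
  have t2 : ∑ s ∈ F, ch s ≤ l - 1 := by
    by_contra hh
    have : 0 < (F.filter (fun s => ¬ ch s = 0)).card := by have := sum_ch F; omega
    obtain ⟨P, hP⟩ := card_pos.1 this
    have h1 := hF.drop le_rfl (by rw [hr]; show l - 1 + 1 ≤ _; omega) (mem_filter.1 hP).1
    simp [Ctx.psi, ch_ne (mem_filter.1 hP).2, hC, cx] at h1
  have hn : (U.card : ℤ) = _ := hF.1.1.card_U
  have := hD.1
  refine hF.1.1.sys hlk t2 (by omega) (fun δ => by omega)

lemma thmC_core (hm : ∀ γ M, IsM G.Adj U M → (∀ e ∈ M, col e.1 e.2 = γ) → (M.card : ℤ) < k) :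
    Sys G.Adj col U k l := by
  by_cases hE : ∃ F, (cx G col hc U none 0 0).Pk F ∧ l - 1 ≤ ∑ s ∈ F, ch s
  · obtain ⟨F, h1, h2⟩ := hE
    exact caseE hc hl hlk hD hmin h1 h2
  push Not at hE
  by_cases h1 : ∃ γ F, (cx G col hc U none 0 0).Pk F ∧
      k - 1 ≤ ∑ s ∈ F, (cx G col hc U (some γ) 0 0).rho s
  · obtain ⟨γ, F0, p0, r0⟩ := h1
    set C := cx G col hc U (some γ) (k - 1) 0 with hC
    obtain ⟨F, hF, h⟩ := Ctx.lemmaK (C := C) hD hmin (F0 := F0)
      ⟨p0, r0, sum_nonneg fun s _ => C.bet_nonneg s⟩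
    have t1 : k - 1 ≤ ∑ s ∈ F, C.rho s := hF.1.2.1
    have t2 : ∑ s ∈ F, C.rho s ≤ k - 1 := by
      by_contra hh
      obtain ⟨M, m1, m2, m3⟩ := hF.1.1.red fun P hP =>
        hF.drop le_rfl (by show k - 1 + 1 ≤ _; omega) hP
      have := hm γ M m1 (fun e he => (Option.some.inj (m3 e he)).symm)
      omega
    have t3 := hE F hF.1.1
    have sr := C.sum_rho F
    have sb := C.sum_bet F
    have sw := C.sum_w F
    by_cases hw : k + l - 1 ≤ (F.card : ℤ) + ∑ s ∈ F, ch s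
    · refine hF.1.1.sys hlk t3.le hw fun δ => ?_
      by_cases e : γ = δ
      · have := card_le_card (s := F.filter (fun s => ch s = 0 ∧ ¬ C.R (C.col s.1 s.2.1)))
          (t := F.filter (fun s => ch s = 0 ∧ C.col s.1 s.2.1 ≠ δ)) (monotone_filter_right _
            fun s _ hs => ⟨hs.1, fun e' => hs.2 (congrArg some (e.trans e'.symm))⟩)
        omega
      · have := card_le_card (s := F.filter (fun s => ch s = 0 ∧ C.R (C.col s.1 s.2.1)))
          (t := F.filter (fun s => ch s = 0 ∧ C.col s.1 s.2.1 ≠ δ)) (monotone_filter_right _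
            fun s _ hs => ⟨hs.1, fun e' => e ((Option.some.inj hs.2).trans e')⟩)
        omega
    · exfalso
      refine Ctx.tight (C := C) hD hlk hF (by omega) (by omega) (fun s => C.mc s.1 s.2.1)
        (fun _ _ _ _ h => Or.inl h) (fun e _ => ?_) (by omega)
      exact Ctx.cls_mc e (by omega) (by omega) (fun s hs => (@mem_filter _ _ (_) _ _).1 hs)
  push Not at h1
  obtain ⟨x0, -⟩ : U.Nonempty := card_pos.1 (by have := hD.1; omega)
  obtain ⟨ρ, ⟨γ, F0, p0, r0⟩, hmax⟩ := Int.exists_greatest_of_bdd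
    (P := fun z => ∃ γ F, (cx G col hc U none 0 0).Pk F ∧
      ∑ s ∈ F, (cx G col hc U (some γ) 0 0).rho s = z)
    ⟨k, fun z ⟨γ, F, p, r⟩ => by have := h1 γ F p; omega⟩
    ⟨0, col x0 x0, ∅, ⟨by simp, by simp [PD]⟩, by simp⟩
  have ρk := h1 γ F0 p0
  set C := cx G col hc U (some γ) ρ 0 with hC
  obtain ⟨F, hF, h⟩ := Ctx.lemmaK (C := C) hD hmin (F0 := F0)
    ⟨p0, r0.ge, sum_nonneg fun s _ => C.bet_nonneg s⟩
  have t1 : ρ ≤ ∑ s ∈ F, C.rho s := hF.1.2.1
  have t3 := hE F hF.1.1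
  by_cases hw : k + l - 1 ≤ (F.card : ℤ) + ∑ s ∈ F, ch s
  · refine hF.1.1.sys hlk t3.le hw fun δ => ?_
    have a1 := hmax _ ⟨δ, F, hF.1.1, rfl⟩
    have sb := (cx G col hc U (some δ) 0 0).sum_bet F
    have sw := (cx G col hc U (some δ) 0 0).sum_w F
    have := card_le_card (s := F.filter (fun s => ch s = 0 ∧ ¬ (cx G col hc U (some δ) 0 0).R
      ((cx G col hc U (some δ) 0 0).col s.1 s.2.1)))
      (t := F.filter (fun s => ch s = 0 ∧ C.col s.1 s.2.1 ≠ δ)) (monotone_filter_right _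
        fun s _ hs => ⟨hs.1, fun e' => hs.2 (congrArg some e'.symm)⟩)
    omega
  · exfalso
    refine Ctx.tight (C := C) hD hlk hF (by omega) (by omega) (fun s => col s.1 s.2.1)
      (fun x y x' y' h => ?_) (fun e _ => ?_) (by omega)
    · by_cases r : C.mc x y <;> by_cases r' : C.mc x' y'
      · exact absurd (C.hR _ _ r r') h
      · exact Or.inl fun e => r' (cast e r)
      · exact Or.inl fun e => r (cast e.symm r')
      · exact Or.inr ⟨h, r, r', fun F' hF' => (hmax _ ⟨γ, F', hF', rfl⟩).trans t1⟩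
    · have a1 := hmax _ ⟨col e.1 e.2.1, F, hF.1.1, rfl⟩
      have sr := (cx G col hc U (some (col e.1 e.2.1)) 0 0).sum_rho F
      have := card_le_card (s := F.filter (fun s => ch s = 0 ∧ col s.1 s.2.1 = col e.1 e.2.1))
        (t := F.filter (fun s => ch s = 0 ∧ (cx G col hc U (some (col e.1 e.2.1)) 0 0).R
          ((cx G col hc U (some (col e.1 e.2.1)) 0 0).col s.1 s.2.1))) (monotone_filter_right _
          fun s _ hs => ⟨hs.1, congrArg some hs.2.symm⟩)
      omega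

lemma thmC'_core (h2 : 2 * l - 2 ≤ k) {γ : α} {M N : Finset (V × V)} (hM : IsM G.Adj U M)
    (hN : IsM G.Adj U N) (cM : ∀ e ∈ M, col e.1 e.2 = γ) (cN : ∀ e ∈ N, col e.1 e.2 ≠ γ)
    (kM : k ≤ M.card) (kN : (N.card : ℤ) = l - 1) : Sys G.Adj col U k l := by
  by_cases hE : ∃ F, (cx G col hc U none 0 0).Pk F ∧ l - 1 ≤ ∑ s ∈ F, ch s
  · obtain ⟨F, h1, h2⟩ := hE
    exact caseE hc hl hlk hD hmin h1 h2
  push Not at hE
  set C := cx G col hc U (some γ) (l - 1) (l - 1) with hC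
  obtain ⟨F0, p0, b0, r0⟩ := Ctx.init_pack (C := C) hM hN (fun e he => congrArg some (cM e he).symm)
    (fun e he h => cN e he (Option.some.inj h).symm)
  obtain ⟨F, hF, h⟩ := Ctx.lemmaK (C := C) hD hmin (F0 := F0)
    ⟨p0, by show l - 1 ≤ _; omega, by show l - 1 ≤ _; omega⟩
  have t1 : l - 1 ≤ ∑ s ∈ F, C.rho s := hF.1.2.1
  have t2 : l - 1 ≤ ∑ s ∈ F, C.bet s := hF.1.2.2
  have t3 := hE F hF.1.1
  have sr := C.sum_rho F
  have sb := C.sum_bet F
  have sw := C.sum_w F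
  by_cases hw : k + l - 1 ≤ (F.card : ℤ) + ∑ s ∈ F, ch s
  · refine hF.1.1.sys hlk t3.le hw fun δ => ?_
    by_cases e : γ = δ
    · have := card_le_card (s := F.filter (fun s => ch s = 0 ∧ ¬ C.R (C.col s.1 s.2.1)))
        (t := F.filter (fun s => ch s = 0 ∧ C.col s.1 s.2.1 ≠ δ)) (monotone_filter_right _
          fun s _ hs => ⟨hs.1, fun e' => hs.2 (congrArg some (e.trans e'.symm))⟩)
      omega
    · have := card_le_card (s := F.filter (fun s => ch s = 0 ∧ C.R (C.col s.1 s.2.1)))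
        (t := F.filter (fun s => ch s = 0 ∧ C.col s.1 s.2.1 ≠ δ)) (monotone_filter_right _
          fun s _ hs => ⟨hs.1, fun e' => e ((Option.some.inj hs.2).trans e')⟩)
      omega
  · exfalso
    refine Ctx.tight (C := C) hD hlk hF (by omega) (by omega) (fun s => C.mc s.1 s.2.1)
      (fun _ _ _ _ h => Or.inl h) (fun e _ => ?_) (by omega)
    exact Ctx.cls_mc e (by omega) (by omega) (fun s hs => (@mem_filter _ _ (_) _ _).1 hs)

end

end Pool.Agent.Lib.MP_22c8d1_co
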