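import Pool.Agent.Lib.MP_22c8d1_co.ThmC

set_option autoImplicit false
open Finset
open scoped Classical

namespace Pool.Agent.Lib.MP_22c8d1_co

variable {V α : Type*}

lemma qv_nonempty (s : (V × V) × (V × V)) : (qv s).Nonempty :=
  (ev_nonempty s.1).mono subset_union_left

lemma IsS.select {A : V → V → Prop} {U : Finset V} {S : Finset ((V × V) × (V × V))}
    (h : IsS A U S) (g : (V × V) × (V × V) → V × V) (hg : ∀ s ∈ S, g s = s.1 ∨ g s = s.2) :
    IsM A U (S.image g) ∧ Set.InjOn g S := by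
  have hs : ∀ s ∈ S, ev (g s) ⊆ qv s := by
    intro s hs
    rcases hg s hs with e | e <;> rw [e]
    · exact subset_union_left
    · exact subset_union_right
  refine ⟨⟨fun e he => ?_, h.2.image g hs⟩, h.2.injOn g hs (fun _ _ => ev_nonempty _)⟩
  obtain ⟨s, hs', rfl⟩ := mem_image.1 he
  refine ⟨?_, (hs s hs').trans (h.1 s hs').2.2⟩
  rcases hg s hs' with e | e <;> rw [e]
  · exact (h.1 s hs').1
  · exact (h.1 s hs').2.1

lemma IsM.exists_card {A : V → V → Prop} {U : Finset V} {M : Finset (V × V)} (h : IsM A U M)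
    {k : ℤ} (h0 : 0 ≤ k) (hk : k ≤ M.card) : ∃ M' ⊆ M, IsM A U M' ∧ (M'.card : ℤ) = k := by
  obtain ⟨M', m1, m2⟩ := exists_subset_card_eq (s := M) (n := k.toNat) (by omega)
  exact ⟨M', m1, h.sub m1, by omega⟩

/-- removing the edges that meet `X` -/
lemma IsM.avoid {A : V → V → Prop} {U : Finset V} {M : Finset (V × V)} (h : IsM A U M)
    (X : Finset V) : ∃ M' ⊆ M, IsM A (U \ X) M' ∧ M.card ≤ M'.card + X.card := by
  refine ⟨M.filter (fun e => ¬ ∃ x ∈ ev e, x ∈ X), filter_subset _ _,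
    h.mono (filter_subset _ _) fun e he z hz => mem_sdiff.2 ⟨(h.1 e (mem_filter.1 he).1).2 hz,
      fun hX => (mem_filter.1 he).2 ⟨z, hz, hX⟩⟩, ?_⟩
  have h1 := h.2.card_hit' X
  have h2 := card_filter_add_card_filter_not (s := M) (fun e => ∃ x ∈ ev e, x ∈ X)
  omega

section
variable {G : SimpleGraph V} {col : V → V → α} (hc : ∀ x y, col x y = col y x)
include hc

theorem thmC {k l : ℤ} (hl : 1 ≤ l) (hlk : l ≤ k) (U : Finset V) (hD : Dense G U k l) :
    Sys G.Adj col U k l ∨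
      ∃ γ M, IsM G.Adj U M ∧ (∀ e ∈ M, col e.1 e.2 = γ) ∧ (M.card : ℤ) = k := by
  induction U using Finset.strongInduction with
  | H U ih =>
  by_cases h : ∃ z ∈ U, (deg G U z : ℤ) < l
  · obtain ⟨z, hz, hd⟩ := h
    rcases ih _ (erase_ssubset hz) (hD.erase_low (by omega) hz hd) with h | ⟨γ, M, h1, h2⟩
    · exact Or.inl (h.sup (erase_subset _ _))
    · exact Or.inr ⟨γ, M, h1.sup (erase_subset _ _), h2⟩
  · push Not at h
    by_cases hm : ∀ γ M, IsM G.Adj U M → (∀ e ∈ M, col e.1 e.2 = γ) → (M.card : ℤ) < k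
    · exact Or.inl (thmC_core hc hl hlk hD (fun x hx => by have := h x hx; omega) hm)
    · push Not at hm
      obtain ⟨γ, M, m1, m2, m3⟩ := hm
      obtain ⟨M', a1, a2, a3⟩ := m1.exists_card (by omega) m3
      exact Or.inr ⟨γ, M', a2, fun e he => m2 e (a1 he), a3⟩

omit hc in
lemma sys_one {k : ℤ} {U : Finset V} {M : Finset (V × V)} (h : IsM G.Adj U M)
    (hk : (M.card : ℤ) = k) : Sys G.Adj col U k 1 := by
  have hs : ∀ e ∈ M, qv (e, e) ⊆ ev e := fun e _ => by simp [qv]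
  refine ⟨M.image (fun e => (e, e)), ⟨fun s hs' => ?_, h.2.image _ hs⟩, ?_, by simp⟩
  · obtain ⟨e, he, rfl⟩ := mem_image.1 hs'
    exact ⟨(h.1 e he).1, (h.1 e he).1, (hs e he).trans (h.1 e he).2⟩
  · rw [card_image_of_injective _ (fun a b e => (Prod.ext_iff.1 e).1), hk]

omit hc in
lemma sys_extend {k l : ℤ} {U : Finset V} {f : V × V} (hf : G.Adj f.1 f.2) (hfU : ev f ⊆ U)
    (h : Sys G.Adj col (U \ ev f) k (l - 1)) {γ : α} (hγ : col f.1 f.2 ≠ γ) :
    Sys G.Adj col U k l ∨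
      ∃ M, IsM G.Adj (U \ ev f) M ∧ (∀ e ∈ M, col e.1 e.2 ≠ γ) ∧ (M.card : ℤ) = k := by
  obtain ⟨S, s1, s2, s3⟩ := h
  by_cases hh : ∃ s ∈ S, col s.1.1 s.1.2 = col s.2.1 s.2.2 ∧ col s.1.1 s.1.2 ≠ col f.1 f.2
  · left
    obtain ⟨s, hs, c1, c2⟩ := hh
    have hd : ∀ t ∈ S.erase s, Disjoint (qv (s.1, f)) (qv t) := by
      intro t ht
      refine disjoint_union_left.2 ⟨disjoint_of_subset_left subset_union_left
        (s1.2 s hs t (mem_erase.1 ht).2 (mem_erase.1 ht).1.symm), ?_⟩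
      exact Finset.disjoint_left.2 fun z hz hz' =>
        (mem_sdiff.1 ((s1.1 t (mem_erase.1 ht).2).2.2 hz')).2 hz
    have hn : (s.1, f) ∉ S.erase s := fun h' => by
      obtain ⟨x, hx⟩ := qv_nonempty (s.1, f)
      exact Finset.disjoint_left.1 (hd _ h') hx hx
    refine ⟨insert (s.1, f) (S.erase s), ⟨fun t ht => ?_, ?_⟩, ?_, ?_⟩
    · rcases mem_insert.1 ht with rfl | ht
      · exact ⟨(s1.1 s hs).1, hf, union_subset
          (subset_union_left.trans ((s1.1 s hs).2.2.trans sdiff_subset)) hfU⟩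
      · have := s1.1 t (mem_erase.1 ht).2
        exact ⟨this.1, this.2.1, this.2.2.trans sdiff_subset⟩
    · rw [insert_eq]
      exact (PD_single _ _).union (s1.2.mono (erase_subset _ _))
        (fun a ha t ht => by rw [mem_singleton.1 ha]; exact hd t ht)
    · have := card_erase_add_one hs
      rw [card_insert_of_notMem hn]; omega
    · have hs' : s ∉ S.filter (fun s => col s.1.1 s.1.2 ≠ col s.2.1 s.2.2) :=
        fun h' => (mem_filter.1 h').2 c1
      rw [filter_insert, if_pos c2, card_insert_of_notMem (fun h' => hn (mem_filter.1 h').1),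
        filter_erase, erase_eq_of_notMem hs']
      omega
  · right
    push Not at hh
    obtain ⟨m1, m2⟩ := s1.select (fun s => if col s.1.1 s.1.2 = γ then s.2 else s.1)
      (fun s _ => by split_ifs <;> simp)
    refine ⟨_, m1, fun e he => ?_, by rw [card_image_of_injOn m2, s2]⟩
    obtain ⟨s, hs, rfl⟩ := mem_image.1 he
    split_ifs with c
    · exact fun c' => hγ ((hh s hs (c.trans c'.symm)).symm.trans c)
    · exact c

theorem thmC' {k : ℤ} (U : Finset V) : ∀ l : ℤ, 1 ≤ l → l ≤ k → 2 * l - 2 ≤ k → Dense G U k l →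
    Sys G.Adj col U k l ∨
      ∃ γ, ∀ M, IsM G.Adj U M → (∀ e ∈ M, col e.1 e.2 ≠ γ) → (M.card : ℤ) ≤ l - 2 := by
  induction U using Finset.strongInduction with
  | H U ih =>
  intro l hl hlk h2 hD
  by_cases l1 : l = 1
  · subst l1
    rcases thmC hc hl hlk U hD with h | ⟨γ, M, m1, -, m3⟩
    · exact Or.inl h
    · exact Or.inl (sys_one m1 m3)
  by_cases h : ∃ z ∈ U, (deg G U z : ℤ) < l
  · obtain ⟨z, hz, hd⟩ := h
    have hD' := hD.erase_low (by omega) hz hd
    rcases ih _ (erase_ssubset hz) l hl hlk h2 hD' with h | ⟨γ, hγ⟩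
    · exact Or.inl (h.sup (erase_subset _ _))
    rcases thmC hc hl hlk _ hD' with h | ⟨γ', M, m1, m2, m3⟩
    · exact Or.inl (h.sup (erase_subset _ _))
    have e : γ' = γ := by
      by_contra e
      have := hγ M m1 (fun x hx => by rw [m2 x hx]; exact e)
      omega
    subst e
    by_cases hs : ∀ M, IsM G.Adj U M → (∀ e ∈ M, col e.1 e.2 ≠ γ') → (M.card : ℤ) ≤ l - 2
    · exact Or.inr ⟨γ', hs⟩
    left
    push Not at hs
    obtain ⟨N, n1, n2, n3⟩ := hs
    obtain ⟨f, hf, hzf⟩ : ∃ f ∈ N, z ∈ ev f := by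
      by_contra hh
      push Not at hh
      have := hγ N (n1.mono Subset.rfl fun e he x hx =>
        mem_erase.2 ⟨fun e' => hh e he (e' ▸ hx), (n1.1 e he).2 hx⟩) n2
      omega
    have hsub : U \ ev f ⊆ U.erase z := fun x hx =>
      mem_erase.2 ⟨fun e => (mem_sdiff.1 hx).2 (e ▸ hzf), (mem_sdiff.1 hx).1⟩
    have c1 : U.card ≤ (U \ ev f).card + (ev f).card := card_le_card_sdiff_add_card
    have c2 := card_ev_le f
    have c3 := card_erase_add_one hz
    have hD'' : Dense G (U \ ev f) k (l - 1) := hD'.del hsub (by omega) le_rfl (by omega)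
    rcases ih _ (lt_of_le_of_lt hsub (erase_ssubset hz)) (l - 1) (by omega) (by omega) (by omega)
      hD'' with h | ⟨δ, hδ⟩
    · rcases sys_extend (n1.1 f hf).1 (n1.1 f hf).2 h (n2 f hf) with h | ⟨M', a1, a2, a3⟩
      · exact h
      · have := hγ M' (a1.sup hsub) a2
        omega
    · exfalso
      by_cases e : γ' = δ
      · subst e
        have := hδ (N.erase f) (n1.mono (erase_subset _ _) fun e he x hx => mem_sdiff.2
          ⟨(n1.1 e (mem_erase.1 he).2).2 hx, fun hx' =>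
            (mem_erase.1 he).1 (n1.2.eq_of_mem (mem_erase.1 he).2 hf hx hx')⟩)
          (fun e he => n2 e (mem_erase.1 he).2)
        have := card_erase_add_one hf
        omega
      · obtain ⟨M', a1, a2, a3⟩ := (m1.sup (erase_subset _ _)).avoid (ev f)
        have := hδ M' a2 (fun x hx => by rw [m2 x (a1 hx)]; exact e)
        omega
  · push Not at h
    rcases thmC hc hl hlk _ hD with h' | ⟨γ, M, m1, m2, m3⟩
    · exact Or.inl h'
    by_cases hs : ∀ M, IsM G.Adj U M → (∀ e ∈ M, col e.1 e.2 ≠ γ) → (M.card : ℤ) ≤ l - 2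
    · exact Or.inr ⟨γ, hs⟩
    left
    push Not at hs
    obtain ⟨N, n1, n2, n3⟩ := hs
    obtain ⟨N', a1, a2, a3⟩ := n1.exists_card (k := l - 1) (by omega) (by omega)
    exact thmC'_core hc hl hlk hD (fun x hx => by have := h x hx; omega) h2 m1 a2 m2
      (fun e he => n2 e (a1 he)) m3.ge a3

end

end Pool.Agent.Lib.MP_22c8d1_co
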