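import Pool.Agent.Lib.MP_22c8d1_co.LemmaL

set_option autoImplicit false
open Finset
open scoped Classical

namespace Pool.Agent.Lib.MP_22c8d1_co

variable {V α : Type*}

lemma ch_zero {s : V × V × V} (h : ch s = 0) : ∃ x y, s = (x, y, x) := by
  obtain ⟨a, b, c⟩ := s
  by_cases e : a = c
  · exact ⟨a, b, by rw [e]⟩
  · simp [ch, e] at h

lemma ch_ne {s : V × V × V} (h : ¬ ch s = 0) : s.1 ≠ s.2.2 := fun e => h (by simp [ch, e])

lemma mem_sg {x y z : V} : z ∈ tv (x, y, x) ↔ z = x ∨ z = y := by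
  rw [mem_tv]; tauto

lemma cross_ch {β : Type*} {G : SimpleGraph V} {cl : V → V → β} (hcl : ∀ x y, cl x y = cl y x)
    {x y x' y' a b : V} (h1 : G.Adj x y) (h2 : G.Adj x' y') (hne : cl x y ≠ cl x' y')
    (ha : a ∈ tv (x, y, x)) (hb : b ∈ tv (x', y', x')) (hab : G.Adj a b) :
    ∃ Q, Ch G.Adj cl Q ∧ ∀ z ∈ tv Q, z ∈ tv (x, y, x) ∨ z ∈ tv (x', y', x') := by
  by_cases e : cl a b = cl x y
  · obtain ⟨Q, q1, q2, -⟩ := good_ch (A := G.Adj) (fun _ _ => SimpleGraph.Adj.symm) hcl (p := a) h2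
      (by rcases mem_sg.1 hb with rfl | rfl
          · exact Or.inl ⟨hab, by rw [e]; exact hne⟩
          · exact Or.inr ⟨hab, by rw [e]; exact hne⟩)
    refine ⟨Q, q1, fun z hz => ?_⟩
    rcases q2 z hz with rfl | rfl | rfl <;> simp [ha, mem_sg]
  · obtain ⟨Q, q1, q2, -⟩ := good_ch (A := G.Adj) (fun _ _ => SimpleGraph.Adj.symm) hcl (p := b) h1
      (by rcases mem_sg.1 ha with rfl | rfl
          · exact Or.inl ⟨hab.symm, by rw [hcl]; exact e⟩
          · exact Or.inr ⟨hab.symm, by rw [hcl]; exact e⟩)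
    refine ⟨Q, q1, fun z hz => ?_⟩
    rcases q2 z hz with rfl | rfl | rfl <;> simp [hb, mem_sg]

lemma dense_tc {β : Type*} {G : SimpleGraph V} {cl : V → V → β} (hcl : ∀ x y, cl x y = cl y x)
    {P : V × V × V} (hP : Ch G.Adj cl P) {x y x' y' : V} (h1 : G.Adj x y) (h2 : G.Adj x' y')
    (hne : cl x y ≠ cl x' y') (d1 : Disjoint (tv P) (tv (x, y, x)))
    (d2 : Disjoint (tv P) (tv (x', y', x'))) (d3 : Disjoint (tv (x, y, x)) (tv (x', y', x')))
    (hm : mp G P (x, y, x) + mp G P (x', y', x') ≤ 1) :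
    TC G.Adj cl (fun w => w ∈ tv P ∨ (w ∈ tv (x, y, x) ∨ w ∈ tv (x', y', x'))) (cl x y)
      (cl x' y') := by
  have hPE : ∀ p z, p ∈ tv P → (z ∈ tv (x, y, x) ∨ z ∈ tv (x', y', x')) → p ≠ z := by
    rintro p z hp (hz | hz) rfl
    · exact Finset.disjoint_left.1 d1 hp hz
    · exact Finset.disjoint_left.1 d2 hp hz
  have hs : ∑ p ∈ tv P, md G (tv (x, y, x) ∪ tv (x', y', x')) p ≤ 1 := by
    refine le_trans (le_of_eq ?_) hm
    unfold mp
    rw [← sum_add_distrib]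
    refine sum_congr rfl fun p _ => ?_
    rw [md_split (subset_union_left (s₁ := tv (x, y, x)) (s₂ := tv (x', y', x'))),
      union_sdiff_cancel_left d3]
  have H : ∀ p q z w, p ∈ tv P → q ∈ tv P → (z ∈ tv (x, y, x) ∨ z ∈ tv (x', y', x')) →
      (w ∈ tv (x, y, x) ∨ w ∈ tv (x', y', x')) → (p ≠ q ∨ z ≠ w) → G.Adj p z ∨ G.Adj q w := by
    intro p q z w hp hq hz hw hne'
    by_contra hc
    push Not at hc
    have mz : z ∈ (tv (x, y, x) ∪ tv (x', y', x')).filter (fun t => t ≠ p ∧ ¬ G.Adj p t) :=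
      mem_filter.2 ⟨mem_union.2 hz, (hPE p z hp hz).symm, hc.1⟩
    have mw : w ∈ (tv (x, y, x) ∪ tv (x', y', x')).filter (fun t => t ≠ q ∧ ¬ G.Adj q t) :=
      mem_filter.2 ⟨mem_union.2 hw, (hPE q w hq hw).symm, hc.2⟩
    by_cases e : p = q
    · subst e
      have h3 : 1 < md G (tv (x, y, x) ∪ tv (x', y', x')) p :=
        one_lt_card.2 ⟨z, mz, w, mw, hne'.resolve_left (fun h => h rfl)⟩
      have := single_le_sum (f := md G (tv (x, y, x) ∪ tv (x', y', x')))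
        (fun _ _ => Nat.zero_le _) hp
      omega
    · have h3 : 0 < md G (tv (x, y, x) ∪ tv (x', y', x')) p := card_pos.2 ⟨z, mz⟩
      have h4 : 0 < md G (tv (x, y, x) ∪ tv (x', y', x')) q := card_pos.2 ⟨w, mw⟩
      have := sum_le_sum_of_subset (f := md G (tv (x, y, x) ∪ tv (x', y', x')))
        (show ({p, q} : Finset V) ⊆ tv P from insert_subset hp (singleton_subset_iff.2 hq))
      rw [sum_pair e] at this
      omega
  obtain ⟨a, b, c⟩ := P
  obtain ⟨n1, n2, n3⟩ := hP.ne hcl (fun _ => G.irrefl)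
  have k : ∀ s t, s ∈ tv (x, y, x) → t ∈ tv (x', y', x') → s ≠ t := by
    rintro s t hs ht rfl
    exact Finset.disjoint_left.1 d3 hs ht
  exact two_cherries (fun _ _ => SimpleGraph.Adj.symm) hcl hPE H (by simp [mem_tv])
    (by simp [mem_tv]) (by simp [mem_tv]) (by simp [mem_tv]) (by simp [mem_tv]) (by simp [mem_tv])
    (by simp [mem_tv]) n1 n3 n2 h1.ne h2.ne (k _ _ (by simp [mem_tv]) (by simp [mem_tv]))
    (k _ _ (by simp [mem_tv]) (by simp [mem_tv])) (k _ _ (by simp [mem_tv]) (by simp [mem_tv]))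
    (k _ _ (by simp [mem_tv]) (by simp [mem_tv])) hP h1 h2 hne

namespace Ctx
variable {C : Ctx V α}

lemma Pk.rep21 {F : Finset (V × V × V)} (h : C.Pk F) {e e' Q : V × V × V} (he : e ∈ F)
    (he' : e' ∈ F) (hne : e ≠ e') (hQ : C.Val Q) (hz : ∀ z ∈ tv Q, z ∈ tv e ∨ z ∈ tv e') :
    ∃ F', C.Pk F' ∧ ∀ f : V × V × V → ℤ, ∑ s ∈ F', f s = ∑ s ∈ F, f s - f e - f e' + f Q := by
  obtain ⟨h1, h2⟩ := h.replace (A := {e, e'}) (B := {Q})
    (insert_subset he (singleton_subset_iff.2 he'))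
    (fun s hs => by rw [mem_singleton.1 hs]; exact hQ) (PD_single _ _)
    (fun s hs z h' => by
      rw [mem_singleton.1 hs] at h'
      rcases hz z h' with h' | h'
      · exact Or.inr ⟨e, by simp, h'⟩
      · exact Or.inr ⟨e', by simp, h'⟩)
  exact ⟨_, h1, fun f => by rw [h2, sum_pair hne, sum_singleton]; ring⟩

lemma Pk.rep32 {F : Finset (V × V × V)} (h : C.Pk F) {P e e' Q Q' : V × V × V} (hP : P ∈ F)
    (he : e ∈ F) (he' : e' ∈ F) (hne : e ≠ e') (n1 : P ≠ e) (n2 : P ≠ e') (hQ : C.Val Q)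
    (hQ' : C.Val Q') (hd : Disjoint (tv Q) (tv Q'))
    (hz : ∀ z ∈ tv Q, z ∈ tv P ∨ (z ∈ tv e ∨ z ∈ tv e'))
    (hz' : ∀ z ∈ tv Q', z ∈ tv P ∨ (z ∈ tv e ∨ z ∈ tv e')) :
    ∃ F', C.Pk F' ∧ ∀ f : V × V × V → ℤ,
      ∑ s ∈ F', f s = ∑ s ∈ F, f s - f P - f e - f e' + f Q + f Q' := by
  have k : ∀ z, (z ∈ tv P ∨ (z ∈ tv e ∨ z ∈ tv e')) →
      z ∈ C.Free F ∨ ∃ t ∈ ({P, e, e'} : Finset (V × V × V)), z ∈ tv t := by
    rintro z (h' | h' | h')
    · exact Or.inr ⟨P, by simp, h'⟩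
    · exact Or.inr ⟨e, by simp, h'⟩
    · exact Or.inr ⟨e', by simp, h'⟩
  obtain ⟨h1, h2⟩ := h.replace (A := {P, e, e'}) (B := {Q, Q'})
    (insert_subset hP (insert_subset he (singleton_subset_iff.2 he')))
    (fun s hs => by
      rcases mem_insert.1 hs with rfl | hs
      · exact hQ
      · rw [mem_singleton.1 hs]; exact hQ') (PD_pair hd)
    (fun s hs z h' => by
      rcases mem_insert.1 hs with rfl | hs
      · exact k z (hz z h')
      · rw [mem_singleton.1 hs] at h'; exact k z (hz' z h'))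
  refine ⟨_, h1, fun f => ?_⟩
  rw [h2, sum_insert (by simp [n1, n2]), sum_pair hne, sum_pair (ne_of_disj hd)]; ring

lemma Opt.no_better {F F' : Finset (V × V × V)} (h : C.Opt F) (h' : C.Pk F')
    (h1 : ∑ s ∈ F, C.rho s ≤ ∑ s ∈ F', C.rho s) (h2 : ∑ s ∈ F, C.bet s ≤ ∑ s ∈ F', C.bet s) :
    ∑ s ∈ F', C.psi s ≤ ∑ s ∈ F, C.psi s :=
  h.2 F' ⟨h', h.1.2.1.trans h1, h.1.2.2.trans h2⟩

lemma sg_stats {x y x' y' : V} (h : C.mc x y ≠ C.mc x' y') :
    C.rho (x, y, x) + C.rho (x', y', x') = 1 ∧ C.bet (x, y, x) + C.bet (x', y', x') = 1 ∧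
      C.col x y ≠ C.col x' y' ∧ (C.R (C.col x y) ∨ C.R (C.col x' y')) := by
  rw [rho_sg, rho_sg, bet_sg, bet_sg]
  unfold mc at h
  by_cases r : C.R (C.col x y) <;> by_cases r' : C.R (C.col x' y')
  · exact absurd (propext ⟨fun _ => r', fun _ => r⟩) h
  · simp only [r, r', if_true, if_false]
    exact ⟨rfl, rfl, fun e => r' (e ▸ r), Or.inl trivial⟩
  · simp only [r, r', if_true, if_false]
    exact ⟨rfl, rfl, fun e => r (e ▸ r'), Or.inr trivial⟩
  · exact absurd (propext ⟨fun x => absurd x r, fun x => absurd x r'⟩) h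

theorem tight {k l : ℤ} (hD : Dense C.G C.U k l) (hlk : l ≤ k) {F : Finset (V × V × V)}
    (hF : C.Opt F) (hφ : (C.Free F).card ≤ 1) (hw : (F.card : ℤ) + ∑ s ∈ F, ch s ≤ k + l - 2)
    {β : Type*} (cls : V × V × V → β)
    (Hc : ∀ x y x' y', cls (x, y, x) ≠ cls (x', y', x') → C.mc x y ≠ C.mc x' y' ∨
      (C.col x y ≠ C.col x' y' ∧ ¬ C.R (C.col x y) ∧ ¬ C.R (C.col x' y') ∧
        ∀ F', C.Pk F' → ∑ s ∈ F', C.rho s ≤ ∑ s ∈ F, C.rho s))
    (H3 : ∀ e ∈ F, ∑ s ∈ F, ch s + (F.filter (fun s => ch s = 0 ∧ cls s = cls e)).card ≤ k - 1)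
    (H4 : ∑ s ∈ F, ch s ≤ k - 1) : False := by
  have pk := hF.1.1
  refine lemmaL hD hlk pk hφ hw cls ?_ ?_ H3 H4
  · intro e he e' he' c c' hne a ha b hb hab
    obtain ⟨x, y, rfl⟩ := ch_zero c
    obtain ⟨x', y', rfl⟩ := ch_zero c'
    have hne' : (x, y, x) ≠ (x', y', x') := fun e => hne (by rw [e])
    have v1 : C.G.Adj x y := (pk.1 _ he).1.1
    have v2 : C.G.Adj x' y' := (pk.1 _ he').1.1
    rcases Hc x y x' y' hne with h | ⟨h1, h2, h3, h4⟩
    · obtain ⟨Q, q1, q2⟩ := cross_ch C.mc_symm v1 v2 h ha hb hab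
      obtain ⟨a1, -, a3, a4, a5⟩ := ch_RB q1
      obtain ⟨F', f1, f2⟩ := pk.rep21 he he' hne' a1 q2
      obtain ⟨s1, s2, -⟩ := sg_stats h
      have := hF.no_better f1 (by rw [f2]; omega) (by rw [f2]; omega)
      rw [f2, psi_sg, psi_sg] at this
      omega
    · obtain ⟨Q, q1, q2⟩ := cross_ch C.hc v1 v2 h1 ha hb hab
      obtain ⟨a1, -, a3, -⟩ := ch_gen q1
      obtain ⟨F', f1, f2⟩ := pk.rep21 he he' hne' a1 q2
      have := h4 F' f1
      rw [f2, rho_sg, rho_sg, if_neg h2, if_neg h3] at this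
      omega
  · intro P hP cP e he e' he' c c' hne
    by_contra hm
    obtain ⟨x, y, rfl⟩ := ch_zero c
    obtain ⟨x', y', rfl⟩ := ch_zero c'
    have hne' : (x, y, x) ≠ (x', y', x') := fun e => hne (by rw [e])
    have n1 : P ≠ (x, y, x) := fun e => cP (by rw [e]; exact c)
    have n2 : P ≠ (x', y', x') := fun e => cP (by rw [e]; exact c')
    have v1 : C.G.Adj x y := (pk.1 _ he).1.1
    have v2 : C.G.Adj x' y' := (pk.1 _ he').1.1
    have vP := (pk.1 _ hP).1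
    have d1 := pk.2 _ hP _ he n1
    have d2 := pk.2 _ hP _ he' n2
    have d3 := pk.2 _ he _ he' hne'
    have gP : Ch C.G.Adj C.col P := ⟨vP.1, vP.2.1, vP.2.2 (ch_ne cP)⟩
    obtain ⟨-, -, p3, p4, -⟩ := ch_gen gP
    rcases Hc x y x' y' hne with h | ⟨h1, h2, h3, h4⟩
    · obtain ⟨s1, s2, s3, s4⟩ := sg_stats h
      rcases vP.cases (ch_ne cP) with hh | hh
      · obtain ⟨Q, Q', q1, q2, q3, q4, q5, -⟩ := dense_tc C.mc_symm hh v1 v2 h d1 d2 d3 (by omega)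
        obtain ⟨a1, -, a3, a4, a5⟩ := ch_RB q1
        obtain ⟨b1, -, b3, b4, b5⟩ := ch_RB q2
        obtain ⟨-, -, -, -, p5⟩ := ch_RB hh
        obtain ⟨F', f1, f2⟩ := pk.rep32 hP he he' hne' n1 n2 a1 b1 q3 q4 q5
        have := hF.no_better f1 (by rw [f2]; omega) (by rw [f2]; omega)
        rw [f2, psi_sg, psi_sg] at this
        omega
      · obtain ⟨Q, Q', q1, q2, q3, q4, q5, q6, q7⟩ :=
          dense_tc C.hc gP v1 v2 s3 d1 d2 d3 (by omega)
        obtain ⟨a1, -, a3, a4, a5, a6⟩ := ch_gen q1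
        obtain ⟨b1, -, b3, b4, b5, b6⟩ := ch_gen q2
        obtain ⟨-, -, -, -, p5⟩ := ch_BB hh
        obtain ⟨F', f1, f2⟩ := pk.rep32 hP he he' hne' n1 n2 a1 b1 q3 q4 q5
        have := hF.no_better f1 (by rw [f2]; omega) (by rw [f2]; omega)
        rw [f2, psi_sg, psi_sg] at this
        have k : C.psi Q = 3 ∨ C.psi Q' = 3 := by
          rcases s4 with r | r
          · exact q6.imp (a6 _ r) (b6 _ r)
          · exact q7.imp (a6 _ r) (b6 _ r)
        omega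
    · obtain ⟨Q, Q', q1, q2, q3, q4, q5, -⟩ := dense_tc C.hc gP v1 v2 h1 d1 d2 d3 (by omega)
      obtain ⟨a1, -, a3, -⟩ := ch_gen q1
      obtain ⟨b1, -, b3, -⟩ := ch_gen q2
      obtain ⟨F', f1, f2⟩ := pk.rep32 hP he he' hne' n1 n2 a1 b1 q3 q4 q5
      have := h4 F' f1
      rw [f2, rho_sg, rho_sg, if_neg h2, if_neg h3] at this
      omega

end Ctx

end Pool.Agent.Lib.MP_22c8d1_co
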