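import Pool.Agent.Lib.MP_22c8d1_co.Final

set_option autoImplicit false
open Finset
open scoped Classical

namespace Pool.Agent.Lib.MP_22c8d1_co

variable {V : Type*} [Fintype V]

lemma two_choose (n : ℕ) : 2 * (n.choose 2 : ℤ) = n * (n - 1) := by
  induction n with
  | zero => simp
  | succ n ih => rw [Nat.choose_succ_succ, Nat.choose_one_right]; push_cast; linarith

/-- the extremal value -/
def val (n m : ℕ) : ℕ :=
  if n + 2 ≤ 3 * m then n.choose 2 else
    max ((2 * m - 2).choose 2 + (2 * m - 2) * (n - (2 * m - 2)))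
      ((2 * m - 1).choose 2 + (m - 1).choose 2 + (m - 1) * (n - (m - 1)))

lemma val_a {n m : ℕ} (hm : 1 ≤ m) (h : ¬ n + 2 ≤ 3 * m) :
    2 * (((2 * m - 2).choose 2 + (2 * m - 2) * (n - (2 * m - 2)) : ℕ) : ℤ) + n +
      ((n : ℤ) - 2 * m - m + 2 + m - 1) * (n - 2 * m - m + 2 + m) = n * n := by
  have := two_choose (2 * m - 2)
  have e1 : ((2 * m - 2 : ℕ) : ℤ) = 2 * m - 2 := by omega
  have e2 : ((n - (2 * m - 2) : ℕ) : ℤ) = n - (2 * m - 2) := by omega
  rw [e1] at this
  rw [Nat.cast_add, Nat.cast_mul, e1, e2]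
  linarith

lemma val_b {n m : ℕ} (hm : 1 ≤ m) (h : ¬ n + 2 ≤ 3 * m) :
    2 * (((2 * m - 1).choose 2 + (m - 1).choose 2 + (m - 1) * (n - (m - 1)) : ℕ) : ℤ) + n +
      ((n : ℤ) - 2 * m - m + 2) * (4 * m - 3 + (n - 2 * m - m + 2)) = n * n := by
  have a1 := two_choose (2 * m - 1)
  have a2 := two_choose (m - 1)
  have e1 : ((2 * m - 1 : ℕ) : ℤ) = 2 * m - 1 := by omega
  have e3 : ((m - 1 : ℕ) : ℤ) = m - 1 := by omega
  have e2 : ((n - (m - 1) : ℕ) : ℤ) = n - (m - 1) := by omega
  rw [e1] at a1
  rw [e3] at a2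
  rw [Nat.cast_add, Nat.cast_add, Nat.cast_mul, e3, e2]
  linarith

theorem zok_le_val {G : SimpleGraph V} {s : ℕ} (hs : 1 ≤ s) (h : ZOK G s) :
    G.edgeSet.ncard ≤ val (Fintype.card V) s := by
  have hD := h.not_dense hs univ
  have e : 2 * (G.edgeSet.ncard : ℤ) + miss2 G univ + Fintype.card V
      = Fintype.card V * Fintype.card V := by exact_mod_cast edge_count G
  unfold val
  split_ifs with h1
  · have := two_choose (Fintype.card V)
    have h0 : (0 : ℤ) ≤ miss2 G univ := Int.natCast_nonneg _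
    have : (G.edgeSet.ncard : ℤ) ≤ (Fintype.card V).choose 2 := by linarith
    exact_mod_cast this
  · unfold Dense DN at hD
    rw [card_univ] at hD
    have a := val_a hs h1
    have b := val_b hs h1
    by_contra hc
    rw [not_le, max_lt_iff] at hc
    exact hD ⟨by omega, by omega, by omega⟩

theorem val_attained {s : ℕ} (hs : 1 ≤ s) :
    ∃ G : SimpleGraph V, TwoOK G s ∧ val (Fintype.card V) s ≤ G.edgeSet.ncard := by
  have e : ∀ G : SimpleGraph V, 2 * (G.edgeSet.ncard : ℤ) + miss2 G univ + Fintype.card V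
      = Fintype.card V * Fintype.card V := fun G => by exact_mod_cast edge_count G
  have cs : ∀ X : Finset V, (univ \ X).card + X.card = Fintype.card V := fun X =>
    card_sdiff_add_card_eq_card (subset_univ X)
  have cu : (univ : Finset V).card = Fintype.card V := rfl
  unfold val
  split_ifs with h1
  · obtain ⟨B, -, hB⟩ := exists_subset_card_eq (s := (univ : Finset V))
      (n := min (s - 1) (univ : Finset V).card) (min_le_right _ _)
    have := cs B
    refine ⟨GX ∅ B (univ \ B), gx_ok (by simp only [card_empty]; omega) (by omega), ?_⟩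
    have h2 := gx_miss ∅ B (univ \ B)
    rw [empty_union, Finset.sdiff_self] at h2
    simp only [card_empty, Nat.cast_zero, mul_zero, zero_mul, add_zero] at h2
    have h3 := two_choose (Fintype.card V)
    have h4 := e (GX ∅ B (univ \ B))
    have : ((Fintype.card V).choose 2 : ℤ) ≤ (GX ∅ B (univ \ B)).edgeSet.ncard := by linarith
    exact_mod_cast this
  obtain ⟨B, -, hB⟩ := exists_subset_card_eq (s := (univ : Finset V)) (n := s - 1) (by omega)
  have cB := cs B
  have a := val_a hs h1
  have b := val_b hs h1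
  rcases le_total ((2 * s - 1).choose 2 + (s - 1).choose 2 + (s - 1) * (Fintype.card V - (s - 1)))
    ((2 * s - 2).choose 2 + (2 * s - 2) * (Fintype.card V - (2 * s - 2))) with h | h
  · rw [max_eq_left h]
    obtain ⟨A, a1, hA⟩ := exists_subset_card_eq (s := univ \ B) (n := s - 1) (by omega)
    refine ⟨GX A B ∅, gx_ok (by simp only [card_empty]; omega) (by omega), ?_⟩
    have h4 := gx_miss A B ∅
    have h5 := cs (A ∪ B)
    rw [card_union_of_disjoint (Finset.disjoint_left.2 fun x hx => (mem_sdiff.1 (a1 hx)).2)] at h5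
    rw [sdiff_empty, card_empty] at h4
    have h6 : ((univ \ (A ∪ B)).card : ℤ) = Fintype.card V - 2 * s - s + 2 + s := by omega
    rw [h6, Nat.cast_zero, zero_mul, zero_add, mul_comm] at h4
    have := e (GX A B ∅)
    omega
  · rw [max_eq_right h]
    obtain ⟨C, c1, hC⟩ := exists_subset_card_eq (s := univ \ B) (n := 2 * s - 1) (by omega)
    refine ⟨GX ∅ B C, gx_ok (by simp only [card_empty]; omega) (by omega), ?_⟩
    have h4 := gx_miss ∅ B C
    rw [empty_union] at h4
    have h5 := card_sdiff_add_card_eq_card c1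
    have h6 : (((univ \ B) \ C).card : ℤ) = Fintype.card V - 2 * s - s + 2 := by omega
    have h7 : ((univ \ B).card : ℤ) = Fintype.card V - s + 1 := by omega
    have h8 : (C.card : ℤ) = 2 * s - 1 := by omega
    rw [h6, h7, h8] at h4
    have h9 : (miss2 (GX ∅ B C) univ : ℤ) ≤ ((Fintype.card V : ℤ) - 2 * s - s + 2) *
        (4 * s - 3 + (Fintype.card V - 2 * s - s + 2)) := h4.trans (le_of_eq (by ring))
    have := e (GX ∅ B C)
    omega

end Pool.Agent.Lib.MP_22c8d1_co
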